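import Mathlib
import Pool.Agent.Lib.MP_ca0fc2_an.TB.Defs
import Pool.Agent.Lib.MP_ca0fc2_an.Mg.G122


set_option autoImplicit false
set_option linter.unusedSectionVars false

open Metric Set MeasureTheory Filter Topology
open scoped InnerProductSpace ENNReal ContDiff

namespace Pool.Agent.MPca0fc2.SH

open Pool.Agent.MPca0fc2.PT
open Pool.Agent.MPca0fc2.TB (En Solv Trans)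

variable {E : Type*} [NormedAddCommGroup E] [InnerProductSpace ℂ E]

/-- Quasi-triangle inequality. `1 - ⟪p, y⟫ = (1 - ⟪p, x⟫) + ⟪p, x - y⟫`, `⟪p, x - y⟫ = ⟪x, x - y⟫ + ⟪p - x, x - y⟫`;
`|⟪x, x - y⟫| = |‖x‖² - ⟪x, y⟫| ≤ (1 - ‖x‖²) + ‖1 - ⟪x, y⟫‖ ≤ 3 A`, `A = ‖1 - ⟪x, y⟫‖` (as `1 - ‖x‖ ≤ A`); `‖x - y‖² ≤ 2 A`, `‖p - x‖² ≤ 2 B`,
`B = ‖1 - ⟪p, x⟫‖`, so `|⟪p - x, x - y⟫| ≤ 2 √(A B) ≤ A + B`. -/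
theorem tri {x y p : E} (hx : ‖x‖ ≤ 1) (hy : ‖y‖ ≤ 1) (hp : ‖p‖ ≤ 1) :
    ‖1 - ⟪p, y⟫_ℂ‖ ≤ 4 * ‖1 - ⟪x, y⟫_ℂ‖ + 2 * ‖1 - ⟪p, x⟫_ℂ‖ := by
  have hself : ⟪x, x⟫_ℂ = ((‖x‖ ^ 2 : ℝ) : ℂ) := by
    rw [inner_self_eq_norm_sq_to_K]; push_cast; rfl
  have hx0 := norm_nonneg x
  have hA1 : 1 - ‖x‖ ≤ ‖1 - ⟪x, y⟫_ℂ‖ := by
    have h1 : ‖(1 : ℂ)‖ ≤ ‖1 - ⟪x, y⟫_ℂ‖ + ‖⟪x, y⟫_ℂ‖ := by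
      calc ‖(1 : ℂ)‖ = ‖(1 - ⟪x, y⟫_ℂ) + ⟪x, y⟫_ℂ‖ := by rw [sub_add_cancel]
        _ ≤ _ := norm_add_le _ _
    have h2 : ‖⟪x, y⟫_ℂ‖ ≤ ‖x‖ * ‖y‖ := norm_inner_le_norm x y
    have h3 : ‖x‖ * ‖y‖ ≤ ‖x‖ := mul_le_of_le_one_right hx0 hy
    rw [norm_one] at h1
    linarith
  have hself1 : ‖⟪x, x⟫_ℂ - 1‖ ≤ 1 - ‖x‖ ^ 2 := by
    have e : ⟪x, x⟫_ℂ - 1 = ((‖x‖ ^ 2 - 1 : ℝ) : ℂ) := by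
      rw [hself]; push_cast; rfl
    rw [e, Complex.norm_real, Real.norm_eq_abs, abs_sub_comm, abs_of_nonneg]
    have : ‖x‖ ^ 2 ≤ 1 := by nlinarith
    linarith
  have h3A : ‖⟪x, x - y⟫_ℂ‖ ≤ 3 * ‖1 - ⟪x, y⟫_ℂ‖ := by
    have e : ⟪x, x - y⟫_ℂ = (⟪x, x⟫_ℂ - 1) + (1 - ⟪x, y⟫_ℂ) := by
      rw [inner_sub_right]; ring
    rw [e]
    refine (norm_add_le _ _).trans ?_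
    have : 1 - ‖x‖ ^ 2 ≤ 2 * (1 - ‖x‖) := by nlinarith
    linarith
  have hsq : ∀ u v : E, ‖u‖ ≤ 1 → ‖v‖ ≤ 1 → ‖u - v‖ ^ 2 ≤ 2 * ‖1 - ⟪u, v⟫_ℂ‖ := by
    intro u v hu hv
    have h1 : ‖u - v‖ ^ 2 = ‖u‖ ^ 2 - 2 * (⟪u, v⟫_ℂ).re + ‖v‖ ^ 2 := by
      have := @norm_sub_sq ℂ E _ _ _ u v
      simpa using this
    have h2 : (1 - ⟪u, v⟫_ℂ).re ≤ ‖1 - ⟪u, v⟫_ℂ‖ := Complex.re_le_norm _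
    rw [Complex.sub_re, Complex.one_re] at h2
    have hu2 : ‖u‖ ^ 2 ≤ 1 := by nlinarith [norm_nonneg u]
    have hv2 : ‖v‖ ^ 2 ≤ 1 := by nlinarith [norm_nonneg v]
    linarith
  have hAB : ‖⟪p - x, x - y⟫_ℂ‖ ≤ ‖1 - ⟪x, y⟫_ℂ‖ + ‖1 - ⟪p, x⟫_ℂ‖ := by
    have h1 : ‖⟪p - x, x - y⟫_ℂ‖ ≤ ‖p - x‖ * ‖x - y‖ := norm_inner_le_norm _ _
    have h2 := hsq p x hp hx
    have h3 := hsq x y hx hy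
    nlinarith [sq_nonneg (‖p - x‖ - ‖x - y‖)]
  have e : 1 - ⟪p, y⟫_ℂ = (1 - ⟪p, x⟫_ℂ) + (⟪x, x - y⟫_ℂ + ⟪p - x, x - y⟫_ℂ) := by
    rw [← inner_add_left, add_sub_cancel, inner_sub_right]; ring
  rw [e]
  have h1 := norm_add_le (1 - ⟪p, x⟫_ℂ) (⟪x, x - y⟫_ℂ + ⟪p - x, x - y⟫_ℂ)
  have h2 := norm_add_le (⟪x, x - y⟫_ℂ) (⟪p - x, x - y⟫_ℂ)
  linarith

end Pool.Agent.MPca0fc2.SH
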