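import Mathlib
import Pool.Agent.Lib.MP_ca0fc2_an.TB.Defs
import Pool.Agent.Lib.MP_ca0fc2_an.Mg.G122

/-!
# Definitions of campaign SH (sharp threshold), MP_ca0fc2_an

`p` is a unit vector, `aa p z = |1 - <z, p>|`, `phd p d` the automorphism of the ball which maps
`(1 - d) p` to `0` (and fixes `p` and `-p`), `psd p d` its inverse.
-/

set_option autoImplicit false

open Metric Set MeasureTheory Filter Topology
open scoped InnerProductSpace ENNReal ContDiff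

namespace Pool.Agent.MPca0fc2.SH

open Pool.Agent.MPca0fc2.PT
open Pool.Agent.MPca0fc2.TB (En Solv Trans)

variable {E : Type*} [NormedAddCommGroup E] [InnerProductSpace ℂ E]

/-- the nonisotropic distance from `p` -/
noncomputable def aa (p z : E) : ℝ := ‖1 - ⟪p, z⟫_ℂ‖

/-- the automorphism which maps `(1 - d) p` to `0` -/
noncomputable def phd (p : E) (d : ℝ) (z : E) : E := gg (-(((1 - d : ℝ) : ℂ) • p)) z

/-- the inverse automorphism -/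
noncomputable def psd (p : E) (d : ℝ) (z : E) : E := gg (((1 - d : ℝ) : ℂ) • p) z

/-- the tube around the radius which ends at `p`, of variable width -/
def Tub (R : ℝ → ℝ) (p : E) : Set E :=
  {z | ‖z‖ < 1 ∧ ∃ t : ℝ, 0 ≤ t ∧ t < 1 ∧
    ‖1 - (t : ℂ) * ⟪p, z⟫_ℂ‖ ^ 2 < R t * ((1 - t ^ 2) * (1 - ‖z‖ ^ 2))}

/-- a sequence of bad data at well separated scales -/
structure Blk {n N : ℕ} (δ₀ κ : ℝ) (c₀ : En N) (p : En n) (lam R : ℝ → ℝ) (H : ℕ → En n → En N)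
    (L m k d : ℕ → ℝ) : Prop where
  κ0 : 0 < κ
  κ1 : κ ≤ 1
  c0 : δ₀ ≤ ‖c₀‖ ∧ ‖c₀‖ ≤ 1
  p1 : ‖p‖ = 1
  L1 : ∀ j, 1 ≤ L j
  m1 : ∀ j, 1 ≤ m j
  kk : ∀ j, 0 < k j ∧ k j < 1
  hol : ∀ j, DifferentiableOn ℂ (H j) (ball 0 1)
  bd : ∀ j, ∀ z ∈ ball (0 : En n) 1, δ₀ - κ ≤ ‖H j z‖ ∧ ‖H j z‖ ≤ 1 + κ
  dr : ∀ j, ∀ z ∈ ball (0 : En n) 1, ‖fderiv ℂ (H j) z‖ ≤ L j
  lp : ∀ j, ∀ z ∈ ball (0 : En n) 1, ‖H j z - c₀‖ ≤ L j * ‖z - p‖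
  lm : ∀ j, ∀ z ∈ ball (0 : En n) 1, ‖H j z - c₀‖ ≤ L j * ‖z + p‖
  ns : ∀ j, ¬ Solv (H j) (ball 0 (k j)) j
  mk2 : ∀ j, 2 / (1 - k j) ≤ m j
  mL : ∀ j, 3 * L j ≤ κ / 4 ^ (j + 1) * √(m j)
  d0 : ∀ j, 0 < d j ∧ d j < 1
  lamb : ∀ j, 1 + 2 * ∑ i ∈ Finset.range (j + 1), L i ≤ lam (m j * d j)
  RR : ∀ j, 1 / (1 - k j ^ 2) < R (1 - d j)
  sep : ∀ i j, i < j → 3 * max (L i) (L j) * √(m i * m j * d j / d i) ≤ κ / 4 ^ (j + 1)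

/-- the data -/
noncomputable def fB {n N : ℕ} (c₀ : En N) (p : En n) (H : ℕ → En n → En N) (d : ℕ → ℝ)
    (z : En n) : En N := c₀ + ∑' j, (H j (phd p (d j) z) - c₀)

end Pool.Agent.MPca0fc2.SH
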