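import Mathlib
import Pool.Agent.Lib.MP_ca0fc2_an.SH.Defs
import Pool.Agent.Lib.MP_ca0fc2_an.EQ.GR4
import Pool.Agent.Lib.MP_ca0fc2_an.TB.J1

set_option autoImplicit false
set_option linter.unusedSectionVars false

open Metric Set MeasureTheory Filter Topology
open scoped InnerProductSpace ENNReal ContDiff

namespace Pool.Agent.MPca0fc2.SH

open Pool.Agent.MPca0fc2.PT
open Pool.Agent.MPca0fc2.TB (En Solv Trans)

private theorem B1_cauchy {E G : Type*} [NormedAddCommGroup E] [InnerProductSpace ℂ E]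
    [NormedAddCommGroup G] [InnerProductSpace ℂ G] {Q : E → G} {R B r : ℝ} (hr : 0 < r) {z : E}
    (hQ : DifferentiableOn ℂ Q (ball 0 R)) (hz : ‖z‖ + r ≤ R)
    (hB : ∀ w ∈ ball (0 : E) R, ‖w - z‖ < r → ‖Q w - Q z‖ ≤ B) (v : E) :
    ‖fderiv ℂ Q z v‖ ≤ B / r * ‖v‖ := by
  rcases eq_or_ne v 0 with rfl | hv0
  · simp
  have hv : 0 < ‖v‖ := norm_pos_iff.mpr hv0
  have hin : ∀ x ∈ ball (0 : ℂ) (r / ‖v‖), z + x • v ∈ ball (0 : E) R ∧ ‖z + x • v - z‖ < r := by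
    intro x hx
    rw [mem_ball_zero_iff, lt_div_iff₀ hv] at hx
    have h1 : ‖x • v‖ < r := by rwa [norm_smul]
    have h2 := norm_add_le z (x • v)
    refine ⟨?_, ?_⟩
    · rw [mem_ball_zero_iff]; linarith
    · rwa [add_sub_cancel_left]
  obtain ⟨F, hF⟩ : ∃ F : ℂ → G, F = fun x => Q (z + x • v) := ⟨_, rfl⟩
  have hFd : DifferentiableOn ℂ F (ball 0 (r / ‖v‖)) := by
    rw [hF]
    exact hQ.comp ((differentiable_id.smul_const v).const_add z).differentiableOn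
      fun x hx => (hin x hx).1
  have hF0 : F 0 = Q z := by rw [hF]; simp
  have hmaps : MapsTo F (ball 0 (r / ‖v‖)) (closedBall (F 0) B) := by
    intro x hx
    rw [mem_closedBall, dist_eq_norm, hF0, hF]
    exact hB _ (hin x hx).1 (hin x hx).2
  have hder := Complex.norm_deriv_le_div_of_mapsTo_ball hFd hmaps (by positivity)
  have hzR : z ∈ ball (0 : E) R := by rw [mem_ball_zero_iff]; linarith
  have hfd : deriv F 0 = fderiv ℂ Q z v := by
    have h1 : HasFDerivAt Q (fderiv ℂ Q z) (z + (0 : ℂ) • v) := by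
      rw [zero_smul, add_zero]
      exact (hQ.differentiableAt (isOpen_ball.mem_nhds hzR)).hasFDerivAt
    have h2 : HasDerivAt (fun x : ℂ => z + x • v) v 0 := by
      simpa using ((hasDerivAt_id (0 : ℂ)).smul_const v).const_add z
    have h3 := h1.comp_hasDerivAt (0 : ℂ) h2
    rw [hF]
    exact h3.deriv
  rw [hfd] at hder
  refine hder.trans (le_of_eq ?_)
  field_simp

private theorem B1_orth {n : ℕ} (hn : 2 ≤ n) (p : En n) :
    ∃ P : En n, ‖P‖ = 1 ∧ ⟪p, P⟫_ℂ = 0 := by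
  have h : (ℂ ∙ p)ᗮ ≠ ⊥ := by
    intro h
    rw [Submodule.orthogonal_eq_bot_iff] at h
    have h1 : Module.finrank ℂ (ℂ ∙ p) ≤ 1 := finrank_span_le_card ({p} : Set (En n)) |>.trans (by simp)
    rw [h, finrank_top, finrank_euclideanSpace_fin] at h1
    omega
  obtain ⟨v, hv, hv0⟩ := Submodule.exists_mem_ne_zero_of_ne_bot h
  have hn0 : ‖v‖ ≠ 0 := norm_ne_zero_iff.2 hv0
  refine ⟨((‖v‖⁻¹ : ℝ) : ℂ) • v, ?_, ?_⟩
  · rw [norm_smul, Complex.norm_real, norm_inv, norm_norm, inv_mul_cancel₀ hn0]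
  · rw [inner_smul_right, Submodule.mem_orthogonal_singleton_iff_inner_right.1 hv, mul_zero]

private theorem B1_far {n : ℕ} {p P : En n} (hp : ‖p‖ = 1) (hP : ‖P‖ = 1) (h : ⟪p, P⟫_ℂ = 0) :
    p ∉ ball P (1 / 2) := by
  intro hm
  rw [mem_ball, dist_eq_norm] at hm
  have h1 : ‖p - P‖ ^ 2 = 2 := by
    rw [@norm_sub_sq ℂ, h, hp, hP]
    norm_num
  nlinarith [norm_nonneg (p - P)]

/-- Bad data on the ball which are smooth up to the boundary and have the same value at `p` and `-p`.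
Proof. `bad_family` (EQ/GR1.lean) gives `c₀`; `Fam1 (ball 0 1) δ₀ c₀`. Let `P` be a unit vector orthogonal to `p` (`n ≥ 2`); `Trans (ball 0 1) P e` for some `e`: `TB.trans_of_support` with
`LV.support_of_domain isStrictlyPscDomain_ball` (see `acc_psc`, EQ/GR4.lean). `Fam1` with `A = 2 M`, `s = 1/2` and small `τ` (`5 τ ≤ κ`, `5 τ M ≤ 1/2`) gives `g`; `±p ∉ ball P (1/2)`, so `‖g (±p) - c₀‖ ≤ τ`.
`g` is uniformly continuous on the closed ball: `G z = g (ρ z)`, `ρ < 1`, has `‖G - g‖ ≤ τ` on the closed ball. `H z = G z + ((1 + ⟪p, z⟫)/2) • (c₀ - G p) + ((1 - ⟪p, z⟫)/2) • (c₀ - G (-p))`: `H (±p) = c₀`, `‖H - g‖ ≤ 5 τ` on the closed ball.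
`H` is holomorphic on `ball 0 (1/ρ)`, so its derivative is bounded by some `L ≥ 1` on the closed unit ball (compactness), and `H` is `L`-Lipschitz there (convexity: `Convex.norm_image_sub_le_of_norm_fderiv_le`). `Bad` gives `¬ Solv H (ball 0 1 ∩ ball P (1/2)) M`, so
`¬ Solv H (ball 0 1) M`, and `TB.solv_gap` (TB/E1.lean) with `TB.solv_scale` gives `k < 1` with `¬ Solv H (ball 0 k) M`. -/
theorem bad_fam {n N : ℕ} (hn : 2 ≤ n) {δ₀ : ℝ} (hδ : 0 < δ₀)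
    (hcon : ∀ A : ℝ, ∃ f : En n → En N, DifferentiableOn ℂ f (ball 0 1) ∧
      (∀ z ∈ ball (0 : En n) 1, δ₀ ≤ ‖f z‖ ∧ ‖f z‖ ≤ 1) ∧ ¬ Solv f (ball 0 1) A)
    {p : En n} (hp : ‖p‖ = 1) : ∃ c₀ : En N, δ₀ ≤ ‖c₀‖ ∧ ‖c₀‖ ≤ 1 ∧ ∀ κ : ℝ, 0 < κ →
      ∀ M : ℝ, 0 ≤ M → ∃ (H : En n → En N) (L k : ℝ), 1 ≤ L ∧ 0 < k ∧ k < 1 ∧
        DifferentiableOn ℂ H (ball 0 1) ∧
        (∀ z ∈ ball (0 : En n) 1, δ₀ - κ ≤ ‖H z‖ ∧ ‖H z‖ ≤ 1 + κ) ∧
        (∀ z ∈ ball (0 : En n) 1, ‖fderiv ℂ H z‖ ≤ L) ∧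
        (∀ z ∈ ball (0 : En n) 1, ‖H z - c₀‖ ≤ L * ‖z - p‖) ∧
        (∀ z ∈ ball (0 : En n) 1, ‖H z - c₀‖ ≤ L * ‖z + p‖) ∧ ¬ Solv H (ball 0 k) M := by
  obtain ⟨c₀, hc0, hc1, hFam⟩ := EQ.bad_family (n := n) (N := N) (by omega) hcon
  refine ⟨c₀, hc0, hc1, ?_⟩
  intro κ hκ M hM
  obtain ⟨P, hP, hpP⟩ := B1_orth hn p
  have hcl : closure (ball (0 : En n) 1) = closedBall 0 1 := closure_ball _ one_ne_zero
  have hfr : P ∈ frontier (ball (0 : En n) 1) := by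
    rw [frontier_ball _ one_ne_zero, mem_sphere_zero_iff_norm, hP]
  obtain ⟨U, ρ₀, hh, c, hs, -⟩ := LV.support_of_domain (TB.isStrictlyPscDomain_ball (n := n))
  obtain ⟨e, hT⟩ := TB.trans_of_support hs hfr
  obtain ⟨τ, hτ0, hτ1, hτ2⟩ : ∃ τ : ℝ, 0 < τ ∧ 5 * τ ≤ κ ∧ 5 * τ * M ≤ 1 / 2 := by
    refine ⟨min (κ / 5) (1 / (10 * (M + 1))), lt_min (by positivity) (by positivity), ?_, ?_⟩
    · have := min_le_left (κ / 5) (1 / (10 * (M + 1)))
      linarith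
    · have h1 := min_le_right (κ / 5) (1 / (10 * (M + 1)))
      have h2 : 5 * min (κ / 5) (1 / (10 * (M + 1))) * M ≤ 5 * (1 / (10 * (M + 1))) * M := by
        gcongr
      refine h2.trans ?_
      have h3 : 5 * (1 / (10 * (M + 1))) * M = M / (M + 1) / 2 := by
        field_simp
        ring
      rw [h3]
      have h4 : M / (M + 1) ≤ 1 := by
        rw [div_le_one (by linarith)]
        linarith
      linarith
  obtain ⟨g, hg1, hg2, hg3, hg4, hg5⟩ := hFam (ball 0 1) P e hT (2 * M) τ (1 / 2) hτ0 (by norm_num)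
  rw [hcl] at hg2 hg3 hg4
  -- uniform continuity
  have huc : UniformContinuousOn g (closedBall (0 : En n) 1) :=
    (isCompact_closedBall (0 : En n) 1).uniformContinuousOn_of_continuous hg2
  rw [Metric.uniformContinuousOn_iff] at huc
  obtain ⟨η, hη, hηg⟩ := huc τ hτ0
  obtain ⟨r, hr0, hr1, hrη⟩ : ∃ r : ℝ, 0 < r ∧ r < 1 ∧ 1 - r < η := by
    refine ⟨1 - min (η / 2) (1 / 2), ?_, ?_, ?_⟩
    · have := min_le_right (η / 2) (1 / 2 : ℝ)
      linarith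
    · have : 0 < min (η / 2) (1 / 2 : ℝ) := lt_min (by linarith) (by norm_num)
      linarith
    · have := min_le_left (η / 2) (1 / 2 : ℝ)
      linarith
  obtain ⟨G, hG⟩ : ∃ G : En n → En N, G = fun z => g ((r : ℂ) • z) := ⟨_, rfl⟩
  have hnr : ∀ z : En n, ‖(r : ℂ) • z‖ = r * ‖z‖ := by
    intro z
    rw [norm_smul, Complex.norm_real, Real.norm_of_nonneg hr0.le]
  have hGg : ∀ z ∈ closedBall (0 : En n) 1, ‖G z - g z‖ ≤ τ := by
    intro z hz
    have hz' := mem_closedBall_zero_iff.1 hz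
    have h1 : (r : ℂ) • z ∈ closedBall (0 : En n) 1 := by
      rw [mem_closedBall_zero_iff, hnr]
      nlinarith [norm_nonneg z]
    have h2 : dist ((r : ℂ) • z) z < η := by
      have h3 : (r : ℂ) • z - z = ((r - 1 : ℝ) : ℂ) • z := by
        rw [Complex.ofReal_sub, Complex.ofReal_one, sub_smul, one_smul]
      rw [dist_eq_norm, h3, norm_smul, Complex.norm_real, Real.norm_eq_abs, abs_of_nonpos (by linarith)]
      nlinarith [norm_nonneg z]
    have h4 := hηg _ h1 _ hz h2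
    rw [dist_eq_norm] at h4
    rw [hG]
    exact h4.le
  have hpc : p ∈ closedBall (0 : En n) 1 := by rw [mem_closedBall_zero_iff, hp]
  have hmc : -p ∈ closedBall (0 : En n) 1 := by rw [mem_closedBall_zero_iff, norm_neg, hp]
  have hfp : p ∉ ball P (1 / 2) := B1_far hp hP hpP
  have hfm : -p ∉ ball P (1 / 2) := B1_far (by rw [norm_neg, hp]) hP (by rw [inner_neg_left, hpP, neg_zero])
  have hGp : ‖c₀ - G p‖ ≤ 2 * τ := by
    have h1 := hg4 p hpc hfp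
    have h2 := hGg p hpc
    rw [norm_sub_rev] at h1 h2
    calc ‖c₀ - G p‖ = ‖(c₀ - g p) + (g p - G p)‖ := by rw [sub_add_sub_cancel]
      _ ≤ ‖c₀ - g p‖ + ‖g p - G p‖ := norm_add_le _ _
      _ ≤ 2 * τ := by linarith
  have hGm : ‖c₀ - G (-p)‖ ≤ 2 * τ := by
    have h1 := hg4 (-p) hmc hfm
    have h2 := hGg (-p) hmc
    rw [norm_sub_rev] at h1 h2
    calc ‖c₀ - G (-p)‖ = ‖(c₀ - g (-p)) + (g (-p) - G (-p))‖ := by rw [sub_add_sub_cancel]
      _ ≤ ‖c₀ - g (-p)‖ + ‖g (-p) - G (-p)‖ := norm_add_le _ _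
      _ ≤ 2 * τ := by linarith
  obtain ⟨H, hH⟩ : ∃ H : En n → En N, H = fun z => G z + ((1 + ⟪p, z⟫_ℂ) / 2) • (c₀ - G p) +
      ((1 - ⟪p, z⟫_ℂ) / 2) • (c₀ - G (-p)) := ⟨_, rfl⟩
  have hpp : ⟪p, p⟫_ℂ = 1 := by
    rw [inner_self_eq_norm_sq_to_K, hp]
    norm_num
  have hHp : H p = c₀ := by
    rw [hH]
    simp only [hpp, sub_self, zero_div, zero_smul, add_zero]
    norm_num
  have hHm : H (-p) = c₀ := by
    rw [hH]
    simp only [inner_neg_right, hpp]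
    norm_num
  have hip : ∀ z ∈ closedBall (0 : En n) 1, ‖⟪p, z⟫_ℂ‖ ≤ 1 := by
    intro z hz
    have h1 := norm_inner_le_norm (𝕜 := ℂ) p z
    rw [hp, one_mul] at h1
    exact h1.trans (mem_closedBall_zero_iff.1 hz)
  have hHg : ∀ z ∈ closedBall (0 : En n) 1, ‖H z - g z‖ ≤ 5 * τ := by
    intro z hz
    have h1 := hip z hz
    have h2 : ‖(1 + ⟪p, z⟫_ℂ) / 2‖ ≤ 1 := by
      rw [norm_div, Complex.norm_ofNat]
      have := norm_add_le (1 : ℂ) ⟪p, z⟫_ℂ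
      rw [norm_one] at this
      linarith
    have h3 : ‖(1 - ⟪p, z⟫_ℂ) / 2‖ ≤ 1 := by
      rw [norm_div, Complex.norm_ofNat]
      have := norm_sub_le (1 : ℂ) ⟪p, z⟫_ℂ
      rw [norm_one] at this
      linarith
    have h4 : H z - g z = (G z - g z) + ((1 + ⟪p, z⟫_ℂ) / 2) • (c₀ - G p) +
        ((1 - ⟪p, z⟫_ℂ) / 2) • (c₀ - G (-p)) := by
      rw [hH]
      dsimp only
      abel
    rw [h4]
    calc ‖(G z - g z) + ((1 + ⟪p, z⟫_ℂ) / 2) • (c₀ - G p) + ((1 - ⟪p, z⟫_ℂ) / 2) • (c₀ - G (-p))‖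
        ≤ ‖G z - g z‖ + ‖((1 + ⟪p, z⟫_ℂ) / 2) • (c₀ - G p)‖ + ‖((1 - ⟪p, z⟫_ℂ) / 2) • (c₀ - G (-p))‖ :=
          norm_add₃_le
      _ ≤ τ + 1 * (2 * τ) + 1 * (2 * τ) := by
          rw [norm_smul, norm_smul]
          gcongr
          · exact hGg z hz
      _ = 5 * τ := by ring
  -- `H` is holomorphic on a larger ball
  obtain ⟨R, hR⟩ : ∃ R : ℝ, R = 1 / r := ⟨_, rfl⟩
  have hR1 : 1 < R := by
    rw [hR, lt_div_iff₀ hr0]
    linarith
  have hrR : r * R = 1 := by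
    rw [hR]
    field_simp
  have hinR : ∀ z ∈ ball (0 : En n) R, (r : ℂ) • z ∈ ball (0 : En n) 1 := by
    intro z hz
    rw [mem_ball_zero_iff] at hz ⊢
    rw [hnr, ← hrR]
    exact mul_lt_mul_of_pos_left hz hr0
  have hGd : DifferentiableOn ℂ G (ball 0 R) := by
    rw [hG]
    exact hg1.comp ((differentiable_id.const_smul (r : ℂ)).differentiableOn) hinR
  have hin : Differentiable ℂ fun z : En n => ⟪p, z⟫_ℂ := (innerSL ℂ p).differentiable
  have hd1 : Differentiable ℂ fun z : En n => (1 + ⟪p, z⟫_ℂ) / 2 := by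
    have h1 : (fun z : En n => (1 + ⟪p, z⟫_ℂ) / 2) = fun z : En n => (1 + ⟪p, z⟫_ℂ) * (2 : ℂ)⁻¹ := by
      funext z
      rw [div_eq_mul_inv]
    rw [h1]
    exact (hin.const_add (1 : ℂ)).mul_const ((2 : ℂ)⁻¹)
  have hd2 : Differentiable ℂ fun z : En n => (1 - ⟪p, z⟫_ℂ) / 2 := by
    have h1 : (fun z : En n => (1 - ⟪p, z⟫_ℂ) / 2) = fun z : En n => (1 - ⟪p, z⟫_ℂ) * (2 : ℂ)⁻¹ := by
      funext z
      rw [div_eq_mul_inv]
    rw [h1]
    exact (hin.const_sub (1 : ℂ)).mul_const ((2 : ℂ)⁻¹)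
  have hHd : DifferentiableOn ℂ H (ball 0 R) := by
    rw [hH]
    refine (hGd.add ?_).add ?_
    · exact (hd1.smul_const _).differentiableOn
    · exact (hd2.smul_const _).differentiableOn
  have hHb : ∀ z ∈ ball (0 : En n) R, ‖H z‖ ≤ 1 + (1 + R) * (2 * τ) + (1 + R) * (2 * τ) := by
    intro z hz
    have hz' := mem_ball_zero_iff.1 hz
    have h1 : ‖⟪p, z⟫_ℂ‖ ≤ R := by
      have h1 := norm_inner_le_norm (𝕜 := ℂ) p z
      rw [hp, one_mul] at h1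
      linarith
    have h2 : ‖(1 + ⟪p, z⟫_ℂ) / 2‖ ≤ 1 + R := by
      rw [norm_div, Complex.norm_ofNat]
      have := norm_add_le (1 : ℂ) ⟪p, z⟫_ℂ
      rw [norm_one] at this
      linarith
    have h3 : ‖(1 - ⟪p, z⟫_ℂ) / 2‖ ≤ 1 + R := by
      rw [norm_div, Complex.norm_ofNat]
      have := norm_sub_le (1 : ℂ) ⟪p, z⟫_ℂ
      rw [norm_one] at this
      linarith
    have h4 : ‖G z‖ ≤ 1 := by
      rw [hG]
      exact (hg3 _ (ball_subset_closedBall (hinR z hz))).2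
    rw [hH]
    dsimp only
    calc ‖G z + ((1 + ⟪p, z⟫_ℂ) / 2) • (c₀ - G p) + ((1 - ⟪p, z⟫_ℂ) / 2) • (c₀ - G (-p))‖
        ≤ ‖G z‖ + ‖((1 + ⟪p, z⟫_ℂ) / 2) • (c₀ - G p)‖ + ‖((1 - ⟪p, z⟫_ℂ) / 2) • (c₀ - G (-p))‖ :=
          norm_add₃_le
      _ ≤ 1 + (1 + R) * (2 * τ) + (1 + R) * (2 * τ) := by
          rw [norm_smul, norm_smul]
          gcongr
  obtain ⟨B, hB⟩ : ∃ B : ℝ, B = 1 + (1 + R) * (2 * τ) + (1 + R) * (2 * τ) := ⟨_, rfl⟩
  rw [← hB] at hHb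
  have hB0 : 0 ≤ B := by
    rw [hB]
    positivity
  obtain ⟨L, hL⟩ : ∃ L : ℝ, L = max 1 ((B + B) / (R - 1)) := ⟨_, rfl⟩
  have hL1 : 1 ≤ L := by
    rw [hL]
    exact le_max_left _ _
  have hL0 : 0 ≤ L := by linarith
  have hder : ∀ z ∈ closedBall (0 : En n) 1, ‖fderiv ℂ H z‖ ≤ L := by
    intro z hz
    refine ContinuousLinearMap.opNorm_le_bound _ hL0 fun v => ?_
    have hz' := mem_closedBall_zero_iff.1 hz
    have hzR : z ∈ ball (0 : En n) R := by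
      rw [mem_ball_zero_iff]
      linarith
    have h1 := B1_cauchy (Q := H) (R := R) (B := B + B) (r := R - 1) (by linarith) (z := z) hHd (by linarith)
      (fun w hw _ => (norm_sub_le _ _).trans (add_le_add (hHb w hw) (hHb z hzR))) v
    refine h1.trans ?_
    refine mul_le_mul_of_nonneg_right ?_ (norm_nonneg v)
    rw [hL]
    exact le_max_right _ _
  have hda : ∀ z ∈ closedBall (0 : En n) 1, DifferentiableAt ℂ H z := by
    intro z hz
    have hz' := mem_closedBall_zero_iff.1 hz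
    refine hHd.differentiableAt (isOpen_ball.mem_nhds ?_)
    rw [mem_ball_zero_iff]
    linarith
  have hlip : ∀ x ∈ closedBall (0 : En n) 1, ∀ y ∈ closedBall (0 : En n) 1, ‖H y - H x‖ ≤ L * ‖y - x‖ :=
    fun x hx y hy => (convex_closedBall (0 : En n) 1).norm_image_sub_le_of_norm_fderiv_le (𝕜 := ℂ) hda hder hx hy
  have hHd1 : DifferentiableOn ℂ H (ball 0 1) := hHd.mono (ball_subset_ball hR1.le)
  have hns : ¬ Solv H (ball 0 1) M := by
    intro hS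
    refine hg5 H M (5 * τ) hM le_rfl hτ2 (fun z hz _ => hHg z (ball_subset_closedBall hz)) ?_
    obtain ⟨h, h1, h2, h3⟩ := hS
    exact ⟨h, h1.mono inter_subset_left, fun z hz => h2 z hz.1, fun z hz => h3 z hz.1⟩
  obtain ⟨k₀, hk0, hk1, hgap⟩ := TB.solv_gap hHd1 hns
  refine ⟨H, L, (1 + k₀) / 2, hL1, by linarith, by linarith, hHd1, fun z hz => ?_,
    fun z hz => hder z (ball_subset_closedBall hz), fun z hz => ?_, fun z hz => ?_, fun hS => ?_⟩
  · have h1 := hHg z (ball_subset_closedBall hz)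
    have h2 := hg3 z (ball_subset_closedBall hz)
    have h3 : ‖g z‖ ≤ ‖H z‖ + ‖H z - g z‖ := by
      have := norm_sub_le (H z) (H z - g z)
      rwa [sub_sub_cancel] at this
    have h4 : ‖H z‖ ≤ ‖g z‖ + ‖H z - g z‖ := by
      have := norm_add_le (g z) (H z - g z)
      rwa [add_sub_cancel] at this
    exact ⟨by linarith [h2.1], by linarith [h2.2]⟩
  · have := hlip p hpc z (ball_subset_closedBall hz)
    rwa [hHp] at this
  · have := hlip (-p) hmc z (ball_subset_closedBall hz)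
    rwa [hHm, sub_neg_eq_add] at this
  · refine hgap ((1 + k₀) / 2) (by linarith) (by linarith) ?_
    exact TB.solv_scale (by linarith) hS

end Pool.Agent.MPca0fc2.SH
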