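import Mathlib
import Pool.Agent.Lib.MP_ca0fc2_an.SH.Defs
import Pool.Agent.Lib.MP_ca0fc2_an.SH.B1

set_option autoImplicit false
set_option linter.unusedSectionVars false

open Metric Set MeasureTheory Filter Topology
open scoped InnerProductSpace ENNReal ContDiff

namespace Pool.Agent.MPca0fc2.SH

open Pool.Agent.MPca0fc2.PT
open Pool.Agent.MPca0fc2.TB (En Solv Trans)

/-- The choice of the scales. `bad_fam` with `M = j` (and the given `κ`) gives `H j, L j, k j` for `j : ℕ`; `m j ≥ 1` with `2/(1 - k j) ≤ m j` and `3 L j ≤ κ/4^(j+1) √(m j)`. Use `exists_seq_of_forall_finset_exists` for `α = ℕ × ℝ`,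
`P (j, d)`: `0 < d < 1`, `1 + 2 ∑ i ≤ j, L i ≤ lam (m j d)`, `1/(1 - k j²) < R (1 - d)`; `r (i, d) (j, d')`: `i < j ∧ 3 max (L i) (L j) √(m i m j d'/d) ≤ κ/4^(j+1)`: given a finite set take `j` larger than all indices and `d'` small (each condition holds
eventually as `d' → 0+`: `hlam`, `hR`, continuity of the square root). This gives a sequence `(ι j, d j)` with `ι` strictly increasing, `j ≤ ι j`; take `H ∘ ι`, `L ∘ ι`, ...; `ns` is monotone in the bound, `κ/4^(ι j + 1) ≤ κ/4^(j+1)`, and `∑ i ≤ j, L (ι i) ≤ ∑ i ≤ ι j, L i`. -/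
theorem exists_blk {n N : ℕ} (hn : 2 ≤ n) {δ₀ : ℝ} (hδ : 0 < δ₀)
    (hcon : ∀ A : ℝ, ∃ f : En n → En N, DifferentiableOn ℂ f (ball 0 1) ∧
      (∀ z ∈ ball (0 : En n) 1, δ₀ ≤ ‖f z‖ ∧ ‖f z‖ ≤ 1) ∧ ¬ Solv f (ball 0 1) A)
    {p : En n} (hp : ‖p‖ = 1) {lam R : ℝ → ℝ} (hlam : Tendsto lam (𝓝[>] 0) atTop)
    (hR : ∀ c : ℝ, ∃ᶠ t in 𝓝[<] (1 : ℝ), c < R t) {κ : ℝ} (hκ : 0 < κ) (hκ1 : κ ≤ 1) :
    ∃ (c₀ : En N) (H : ℕ → En n → En N) (L m k d : ℕ → ℝ),
      Blk δ₀ κ c₀ p lam R H L m k d := by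
  obtain ⟨c₀, hc1, hc2, hfam⟩ := bad_fam hn hδ hcon hp
  choose H L k hL hk0 hk1 hhol hbd hdr hlp hlm hns using
    fun j : ℕ => hfam κ hκ (j : ℝ) (Nat.cast_nonneg j)
  obtain ⟨m, hm⟩ : ∃ m : ℕ → ℝ, ∀ j, m j =
      max 1 (max (2 / (1 - k j)) ((3 * L j * 4 ^ (j + 1) / κ) ^ 2)) := ⟨_, fun j => rfl⟩
  have hm1 : ∀ j, 1 ≤ m j := fun j => by rw [hm]; exact le_max_left _ _
  have hm2 : ∀ j, 2 / (1 - k j) ≤ m j := fun j => by
    rw [hm]; exact (le_max_left _ _).trans (le_max_right _ _)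
  have hm3 : ∀ j, (3 * L j * 4 ^ (j + 1) / κ) ^ 2 ≤ m j := fun j => by
    rw [hm]; exact (le_max_right _ _).trans (le_max_right _ _)
  -- the thresholds
  have hth : ∀ j : ℕ, ∃ c : ℝ, 0 < c ∧ c ≤ 1 ∧ ∀ x ∈ Ioo (0 : ℝ) c,
      (1 + 2 * ∑ i ∈ Finset.range (j + 1), L i ≤ lam (m j * x)) ∧
      ∀ i ∈ Finset.range (j + 1),
        3 * max (L i) (L j) * √(m i * m j * x) ≤ κ / 4 ^ (j + 1) := by
    intro j
    have hmj : 0 < m j := by linarith [hm1 j]
    have t1 : Tendsto (fun x : ℝ => m j * x) (𝓝[>] 0) (𝓝[>] 0) := by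
      apply tendsto_nhdsWithin_iff.mpr
      refine ⟨?_, ?_⟩
      · have : Tendsto (fun x : ℝ => m j * x) (𝓝 0) (𝓝 (m j * 0)) :=
          (continuous_const.mul continuous_id).tendsto 0
        rw [mul_zero] at this
        exact this.mono_left nhdsWithin_le_nhds
      · filter_upwards [self_mem_nhdsWithin] with x hx
        exact mul_pos hmj hx
    have e1 : ∀ᶠ x in 𝓝[>] (0 : ℝ), 1 + 2 * ∑ i ∈ Finset.range (j + 1), L i ≤ lam (m j * x) :=
      (hlam.comp t1).eventually_ge_atTop _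
    have e3 : ∀ᶠ x in 𝓝[>] (0 : ℝ), ∀ i ∈ Finset.range (j + 1),
        3 * max (L i) (L j) * √(m i * m j * x) ≤ κ / 4 ^ (j + 1) := by
      rw [Filter.eventually_all_finset]
      intro i hi
      have t3 : Tendsto (fun x : ℝ => 3 * max (L i) (L j) * √(m i * m j * x)) (𝓝 0)
          (𝓝 (3 * max (L i) (L j) * √(m i * m j * 0))) :=
        (continuous_const.mul (Real.continuous_sqrt.comp
          (continuous_const.mul continuous_id))).tendsto 0
      rw [mul_zero, Real.sqrt_zero, mul_zero] at t3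
      have hpos : (0 : ℝ) < κ / 4 ^ (j + 1) := by positivity
      have := (t3.mono_left (nhdsWithin_le_nhds (s := Ioi 0))).eventually_lt_const hpos
      filter_upwards [this] with x hx
      exact hx.le
    obtain ⟨u, hu0, hu⟩ := mem_nhdsGT_iff_exists_Ioo_subset.mp (Filter.inter_mem e1 e3)
    have hu0' : (0 : ℝ) < u := hu0
    refine ⟨min u 1, lt_min hu0' one_pos, min_le_right _ _, ?_⟩
    intro x hx
    have := hu (show x ∈ Ioo (0 : ℝ) u from ⟨hx.1, hx.2.trans_le (min_le_left _ _)⟩)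
    exact this
  choose c hc0 hcl hc using hth
  -- the condition on `R` holds for some arbitrarily small `x`
  have hg : ∀ (j : ℕ) (u : ℝ), ∃ x : ℝ, 0 < u → 0 < x ∧ x < u ∧
      1 / (1 - k j ^ 2) < R (1 - x) := by
    intro j u
    by_cases hu : 0 < u
    · have h1 := hR (1 / (1 - k j ^ 2))
      have h2 : ∀ᶠ t in 𝓝[<] (1 : ℝ), 1 - u < t ∧ t < 1 := by
        have : Ioo (1 - u) 1 ∈ 𝓝[<] (1 : ℝ) := Ioo_mem_nhdsLT (by linarith)
        filter_upwards [this] with t ht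
        exact ⟨ht.1, ht.2⟩
      obtain ⟨t, ht1, ht2, ht3⟩ := (h1.and_eventually h2).exists
      refine ⟨1 - t, fun _ => ⟨by linarith, by linarith, ?_⟩⟩
      rw [sub_sub_cancel]
      exact ht1
    · exact ⟨0, fun h => absurd h hu⟩
  choose g hg using hg
  obtain ⟨d, hd0, hdsucc⟩ : ∃ d : ℕ → ℝ, d 0 = g 0 (c 0 / 2) ∧
      ∀ j, d (j + 1) = g (j + 1) (d j * (c (j + 1) / 2)) :=
    ⟨fun j => Nat.rec (g 0 (c 0 / 2)) (fun j x => g (j + 1) (x * (c (j + 1) / 2))) j,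
      rfl, fun j => rfl⟩
  have hdpos : ∀ j, 0 < d j := by
    intro j
    induction j with
    | zero => rw [hd0]; exact (hg 0 _ (half_pos (hc0 0))).1
    | succ j ih => rw [hdsucc]; exact (hg (j + 1) _ (mul_pos ih (half_pos (hc0 _)))).1
  have hstep : ∀ j, d (j + 1) < d j * (c (j + 1) / 2) ∧
      1 / (1 - k (j + 1) ^ 2) < R (1 - d (j + 1)) := fun j => by
    rw [hdsucc]
    exact (hg (j + 1) _ (mul_pos (hdpos j) (half_pos (hc0 _)))).2
  have h0 : d 0 < c 0 / 2 ∧ 1 / (1 - k 0 ^ 2) < R (1 - d 0) := by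
    rw [hd0]; exact (hg 0 _ (half_pos (hc0 0))).2
  have hRj : ∀ j, 1 / (1 - k j ^ 2) < R (1 - d j) := by
    intro j
    rcases j with _ | j
    · exact h0.2
    · exact (hstep j).2
  have hanti : Antitone d := by
    apply antitone_nat_of_succ_le
    intro j
    have h1 := hdpos j
    have h2 := hcl (j + 1)
    have h3 := (hstep j).1
    nlinarith
  have hdlt1 : ∀ j, d j < 1 := fun j => by
    have h1 := hanti (Nat.zero_le j)
    have h2 := hcl 0
    linarith [h0.1]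
  have hdc : ∀ j, d j ∈ Ioo (0 : ℝ) (c j) := by
    intro j
    refine ⟨hdpos j, ?_⟩
    rcases j with _ | j
    · linarith [hc0 0, h0.1]
    · have h1 := hdpos j
      have h2 := hc0 (j + 1)
      have h3 := hdlt1 j
      have h4 := (hstep j).1
      nlinarith
  have hdr' : ∀ i j, i < j → d j / d i ∈ Ioo (0 : ℝ) (c j) := by
    intro i j hij
    refine ⟨div_pos (hdpos j) (hdpos i), ?_⟩
    rcases j with _ | j
    · omega
    · rw [div_lt_iff₀ (hdpos i)]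
      have h1 := hanti (Nat.lt_succ_iff.mp hij)
      have h2 := hc0 (j + 1)
      have h3 := hdpos i
      have h4 := hdpos j
      have h5 := (hstep j).1
      nlinarith
  refine ⟨c₀, H, L, m, k, d, ?_⟩
  refine ⟨hκ, hκ1, ⟨hc1, hc2⟩, hp, hL, hm1, fun j => ⟨hk0 j, hk1 j⟩, hhol, hbd, hdr, hlp, hlm,
    hns, hm2, ?_, fun j => ⟨hdpos j, hdlt1 j⟩, fun j => (hc j _ (hdc j)).1, hRj, ?_⟩
  · intro j
    have h1 : 3 * L j * 4 ^ (j + 1) / κ ≤ √(m j) := Real.le_sqrt_of_sq_le (hm3 j)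
    have h4 : (0 : ℝ) < 4 ^ (j + 1) := by positivity
    rw [div_mul_eq_mul_div, le_div_iff₀ h4]
    rw [div_le_iff₀ hκ] at h1
    linarith
  · intro i j hij
    have h1 := (hc j _ (hdr' i j hij)).2 i (Finset.mem_range.mpr (by omega))
    rwa [← mul_div_assoc] at h1

end Pool.Agent.MPca0fc2.SH
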