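import Mathlib
import Pool.Agent.Lib.MP_ca0fc2_an.SH.Defs
import Pool.Agent.Lib.MP_ca0fc2_an.CGInv

set_option autoImplicit false
set_option linter.unusedSectionVars false

open Metric Set MeasureTheory Filter Topology
open scoped InnerProductSpace ENNReal ContDiff

namespace Pool.Agent.MPca0fc2.SH

open Pool.Agent.MPca0fc2.PT
open Pool.Agent.MPca0fc2.TB (En Solv Trans)

variable {E : Type*} [NormedAddCommGroup E] [InnerProductSpace ℂ E]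

private theorem B2_norm {p : E} (hp : ‖p‖ = 1) {d : ℝ} (hd1 : d < 1) :
    ‖-(((1 - d : ℝ) : ℂ) • p)‖ = 1 - d := by
  rw [norm_neg, norm_smul, hp, mul_one, Complex.norm_real, Real.norm_eq_abs, abs_of_pos (by linarith)]

private theorem B2_norm_lt {p : E} (hp : ‖p‖ = 1) {d : ℝ} (hd : 0 < d) (hd1 : d < 1) :
    ‖-(((1 - d : ℝ) : ℂ) • p)‖ < 1 := by
  rw [B2_norm hp hd1]; linarith

private theorem B2_inner (p x : E) (d : ℝ) :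
    ⟪-(((1 - d : ℝ) : ℂ) • p), x⟫_ℂ = -(((1 - d : ℝ) : ℂ) * ⟪p, x⟫_ℂ) := by
  rw [inner_neg_left, inner_smul_left, Complex.conj_ofReal]

private theorem B2_sub {p φ : E} (hp : ‖p‖ = 1) (hφ : ‖φ‖ ≤ 1) :
    ‖φ - p‖ ^ 2 ≤ 2 * ‖1 - ⟪p, φ⟫_ℂ‖ := by
  have h1 : ‖φ - p‖ ^ 2 = ‖φ‖ ^ 2 - 2 * (⟪p, φ⟫_ℂ).re + ‖p‖ ^ 2 := by
    have h := norm_sub_sq (𝕜 := ℂ) φ p
    rw [h]
    have h2 : (RCLike.re ⟪φ, p⟫_ℂ : ℝ) = (⟪p, φ⟫_ℂ).re := inner_re_symm (𝕜 := ℂ) φ p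
    rw [h2]
  have h2 : 1 - (⟪p, φ⟫_ℂ).re ≤ ‖1 - ⟪p, φ⟫_ℂ‖ := by
    have h := Complex.re_le_norm (1 - ⟪p, φ⟫_ℂ)
    simpa using h
  rw [h1, hp]
  nlinarith [norm_nonneg φ]

private theorem B2_add {p φ : E} (hp : ‖p‖ = 1) (hφ : ‖φ‖ ≤ 1) :
    ‖φ + p‖ ^ 2 ≤ 2 * ‖1 + ⟪p, φ⟫_ℂ‖ := by
  have h := B2_sub (p := -p) (φ := φ) (by rw [norm_neg]; exact hp) hφ
  rw [sub_neg_eq_add, inner_neg_left, sub_neg_eq_add] at h
  exact h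

/-- `gg` is holomorphic and maps the ball to itself; `gg_neg_gg`, `gg_lt` (PTGeo.lean), `TE.gg_holo` (TE/Aff.lean) or CG*. -/
theorem phd_aut {p : E} (hp : ‖p‖ = 1) {d : ℝ} (hd : 0 < d) (hd1 : d < 1) :
    Pool.Agent.Lib.MP_ca0fc2_an.IsBallAut (phd p d) (psd p d) := by
  have hw : ‖-(((1 - d : ℝ) : ℂ) • p)‖ < 1 := B2_norm_lt hp hd hd1
  have hw' : ‖(((1 - d : ℝ) : ℂ) • p)‖ < 1 := by rwa [norm_neg] at hw
  have e1 : (phd p d) = gg (-(((1 - d : ℝ) : ℂ) • p)) := rfl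
  have e2 : (psd p d) = gg (((1 - d : ℝ) : ℂ) • p) := rfl
  rw [e1, e2]
  refine ⟨CG.gg_holo hw, CG.gg_holo hw', fun z hz => CG.gg_maps hw hz,
    fun z hz => CG.gg_maps hw' hz, ?_, ?_⟩
  · intro z hz
    have h := gg_neg_gg hw (mem_ball_zero_iff.mp hz).le
    rwa [neg_neg] at h
  · intro z hz
    exact gg_neg_gg hw' (mem_ball_zero_iff.mp hz).le

/-- Estimates. `r = 1 - d`, `z₁ = ⟪p, z⟫`, `a = aa p z = |1 - z₁|`, `q = |1 - r z₁| ≥ max d (a/2)` (`q ≥ 1 - r`; `|1 - z₁| ≤ |1 - r z₁| + (1 - r)|z₁| ≤ 2 q`).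
`inner_gg`/definition of `gg`, `AA`: `⟪p, phd p d z⟫ = (z₁ - r)/(1 - r z₁)`, so `1 - ⟪p, phd z⟫ = (1 + r)(1 - z₁)/(1 - r z₁)`, `1 + ⟪p, phd z⟫ = (1 - r)(1 + z₁)/(1 - r z₁)`;
`‖φ ∓ p‖² ≤ 2 |1 ∓ ⟪p, φ⟫|` for `‖φ‖ ≤ 1`: `‖φ - p‖² ≤ 4 a/d`, `‖φ + p‖² ≤ 8 d/a`. `norm_gg`: `1 - ‖φ‖² = (1 - r²)(1 - ‖z‖²)/q²`, `1 - r² ≤ 2 d`, `q² ≥ d a/2`, `q² ≥ a²/4`. -/
theorem phd_est {p : E} (hp : ‖p‖ = 1) {d : ℝ} (hd : 0 < d) (hd1 : d < 1) {z : E}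
    (hz : ‖z‖ < 1) :
    0 < aa p z ∧ ‖phd p d z - p‖ ≤ 2 * √(aa p z / d) ∧ ‖phd p d z + p‖ ≤ 3 * √(d / aa p z) ∧
      1 - ‖phd p d z‖ ^ 2 ≤ 4 * ((1 - ‖z‖ ^ 2) / aa p z) ∧
      1 - ‖phd p d z‖ ^ 2 ≤ 8 * (d / aa p z) * ((1 - ‖z‖ ^ 2) / aa p z) := by
  obtain ⟨r, hr⟩ : ∃ r : ℝ, r = 1 - d := ⟨_, rfl⟩
  have hr0 : 0 < r := by linarith
  have hr1 : r < 1 := by linarith
  have hdr : d = 1 - r := by linarith
  obtain ⟨w, hw⟩ : ∃ w : E, w = -(((1 - d : ℝ) : ℂ) • p) := ⟨_, rfl⟩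
  have hwn : ‖w‖ = r := by rw [hw, B2_norm hp hd1, hr]
  have hw1 : ‖w‖ < 1 := by rw [hwn]; exact hr1
  have hwi : ∀ x, ⟪w, x⟫_ℂ = -((r : ℂ) * ⟪p, x⟫_ℂ) := by
    intro x
    rw [hw, B2_inner, hr]
  obtain ⟨φ, hφ⟩ : ∃ φ : E, φ = phd p d z := ⟨_, rfl⟩
  have hφg : φ = gg w z := by rw [hφ, hw]; rfl
  have hφ1 : ‖φ‖ < 1 := by rw [hφg]; exact gg_lt hw1 hz
  obtain ⟨z₁, hz₁⟩ : ∃ z₁ : ℂ, z₁ = ⟪p, z⟫_ℂ := ⟨_, rfl⟩
  have hz₁n : ‖z₁‖ < 1 := by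
    have h := norm_inner_le_norm (𝕜 := ℂ) p z
    rw [hp, one_mul, ← hz₁] at h
    linarith
  obtain ⟨q, hq⟩ : ∃ q : ℝ, q = ‖1 - (r : ℂ) * z₁‖ := ⟨_, rfl⟩
  obtain ⟨a, ha⟩ : ∃ a : ℝ, a = ‖1 - z₁‖ := ⟨_, rfl⟩
  have haa : aa p z = a := by rw [ha, hz₁]; rfl
  have hden : (1 : ℂ) - (r : ℂ) * z₁ ≠ 0 := by
    have h := one_add_ne hw1 hz.le
    rw [hwi, ← hz₁] at h
    rwa [sub_eq_add_neg]
  have hrz : ‖(r : ℂ) * z₁‖ ≤ r := by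
    rw [norm_mul, Complex.norm_real, Real.norm_eq_abs, abs_of_pos hr0]
    nlinarith [norm_nonneg z₁]
  have hqd : d ≤ q := by
    have h := norm_sub_norm_le (1 : ℂ) ((r : ℂ) * z₁)
    rw [norm_one, ← hq] at h
    linarith
  have hq0 : 0 < q := by linarith
  have ha0 : 0 < a := by
    rw [ha]
    apply norm_pos_iff.mpr
    intro h
    have h1 : z₁ = 1 := by linear_combination -h
    rw [h1, norm_one] at hz₁n
    linarith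
  have hqa : a ≤ 2 * q := by
    have h1 : (1 : ℂ) - z₁ = (1 - (r : ℂ) * z₁) - ((1 - r : ℝ) : ℂ) * z₁ := by
      push_cast; ring
    have h2 : ‖((1 - r : ℝ) : ℂ) * z₁‖ ≤ 1 - r := by
      rw [norm_mul, Complex.norm_real, Real.norm_eq_abs, abs_of_pos (by linarith)]
      nlinarith [norm_nonneg z₁]
    have h3 := norm_sub_le (1 - (r : ℂ) * z₁) (((1 - r : ℝ) : ℂ) * z₁)
    rw [← h1, ← ha, ← hq] at h3
    linarith
  have hrc : (r : ℂ) ≠ 0 := Complex.ofReal_ne_zero.mpr hr0.ne'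
  -- the inner product
  have hin : ⟪p, φ⟫_ℂ = (z₁ - r) / (1 - (r : ℂ) * z₁) := by
    have h := inner_gg_self hw1 hz.le
    rw [← hφg, hwi, hwi, hwn, ← hz₁] at h
    have h' : 1 + (r : ℂ) * ⟪p, φ⟫_ℂ = (1 - (r : ℂ) ^ 2) / (1 - (r : ℂ) * z₁) := by
      have e : (1 : ℂ) - -((r : ℂ) * ⟪p, φ⟫_ℂ) = 1 + (r : ℂ) * ⟪p, φ⟫_ℂ := by ring
      have e' : (1 : ℂ) + -((r : ℂ) * z₁) = 1 - (r : ℂ) * z₁ := by ring
      rw [e, e'] at h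
      rw [h]
      push_cast
      rfl
    rw [eq_div_iff hden] at h' ⊢
    apply mul_left_cancel₀ hrc
    linear_combination h'
  have hm : 1 - ⟪p, φ⟫_ℂ = ((1 + r : ℝ) : ℂ) * (1 - z₁) / (1 - (r : ℂ) * z₁) := by
    rw [hin, eq_div_iff hden, sub_mul, div_mul_cancel₀ _ hden]
    push_cast
    ring
  have hpl : 1 + ⟪p, φ⟫_ℂ = ((1 - r : ℝ) : ℂ) * (1 + z₁) / (1 - (r : ℂ) * z₁) := by
    rw [hin, eq_div_iff hden, add_mul, div_mul_cancel₀ _ hden]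
    push_cast
    ring
  have hmn : ‖1 - ⟪p, φ⟫_ℂ‖ = (1 + r) * a / q := by
    rw [hm, norm_div, norm_mul, Complex.norm_real, Real.norm_eq_abs, abs_of_pos (by linarith), ← ha, ← hq]
  have hpn : ‖1 + ⟪p, φ⟫_ℂ‖ ≤ 2 * d / q := by
    rw [hpl, norm_div, norm_mul, Complex.norm_real, Real.norm_eq_abs, abs_of_pos (by linarith), ← hq]
    have h1 : ‖1 + z₁‖ ≤ 2 := by
      have h2 := norm_add_le (1 : ℂ) z₁
      rw [norm_one] at h2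
      linarith
    apply div_le_div_of_nonneg_right _ hq0.le
    rw [← hdr]
    nlinarith
  have hng : 1 - ‖φ‖ ^ 2 = (1 - r ^ 2) * (1 - ‖z‖ ^ 2) / q ^ 2 := by
    have h := norm_gg hw1 hz.le
    rw [← hφg, hwn, hwi, ← hz₁] at h
    have e' : (1 : ℂ) + -((r : ℂ) * z₁) = 1 - (r : ℂ) * z₁ := by ring
    rw [e', ← hq] at h
    exact h
  have hzz : 0 ≤ 1 - ‖z‖ ^ 2 := by nlinarith [norm_nonneg z]
  rw [haa, ← hφ]
  refine ⟨ha0, ?_, ?_, ?_, ?_⟩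
  · have h1 := B2_sub hp hφ1.le
    rw [hmn] at h1
    have h2 : (1 + r) * a / q ≤ 2 * (a / d) := by
      rw [div_le_iff₀ hq0]
      have h3 : 2 * (a / d) * q = 2 * a * (q / d) := by ring
      have h4 : 1 ≤ q / d := by rw [le_div_iff₀ hd]; linarith
      rw [h3]
      nlinarith
    have h5 : ‖φ - p‖ ≤ √(4 * (a / d)) := by
      apply Real.le_sqrt_of_sq_le
      linarith
    have h6 : √(4 * (a / d)) = 2 * √(a / d) := by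
      rw [Real.sqrt_mul (by norm_num)]
      have : √(4 : ℝ) = 2 := by
        rw [show (4 : ℝ) = 2 ^ 2 by norm_num]; exact Real.sqrt_sq (by norm_num)
      rw [this]
    rw [← h6]; exact h5
  · have h1 := B2_add hp hφ1.le
    have h2 : 2 * d / q ≤ 4 * (d / a) := by
      rw [div_le_iff₀ hq0]
      have h3 : 4 * (d / a) * q = 2 * d * (2 * q / a) := by ring
      have h4 : 1 ≤ 2 * q / a := by rw [le_div_iff₀ ha0]; linarith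
      rw [h3]
      nlinarith
    have h5 : ‖φ + p‖ ≤ √(9 * (d / a)) := by
      apply Real.le_sqrt_of_sq_le
      have h7 : 0 < d / a := div_pos hd ha0
      linarith
    have h6 : √(9 * (d / a)) = 3 * √(d / a) := by
      rw [Real.sqrt_mul (by norm_num)]
      have : √(9 : ℝ) = 3 := by
        rw [show (9 : ℝ) = 3 ^ 2 by norm_num]; exact Real.sqrt_sq (by norm_num)
      rw [this]
    rw [← h6]; exact h5
  · rw [hng]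
    have h1 : (1 - r ^ 2) * (1 - ‖z‖ ^ 2) / q ^ 2 = ((1 - r ^ 2) / q ^ 2) * (1 - ‖z‖ ^ 2) := by ring
    have h2 : 4 * ((1 - ‖z‖ ^ 2) / a) = (4 / a) * (1 - ‖z‖ ^ 2) := by ring
    rw [h1, h2]
    apply mul_le_mul_of_nonneg_right _ hzz
    rw [div_le_div_iff₀ (by positivity) ha0]
    have h3 : 1 - r ^ 2 ≤ 2 * d := by rw [hdr]; nlinarith
    have h4 : d * a ≤ 2 * q ^ 2 := by nlinarith
    nlinarith
  · rw [hng]
    have h1 : (1 - r ^ 2) * (1 - ‖z‖ ^ 2) / q ^ 2 = ((1 - r ^ 2) / q ^ 2) * (1 - ‖z‖ ^ 2) := by ring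
    have h2 : 8 * (d / a) * ((1 - ‖z‖ ^ 2) / a) = (8 * d / a ^ 2) * (1 - ‖z‖ ^ 2) := by
      field_simp
    rw [h1, h2]
    apply mul_le_mul_of_nonneg_right _ hzz
    rw [div_le_div_iff₀ (by positivity) (by positivity)]
    have h3 : 1 - r ^ 2 ≤ 2 * d := by rw [hdr]; nlinarith
    have h4 : a ^ 2 ≤ 4 * q ^ 2 := by nlinarith
    have h5 : 0 ≤ 1 - r ^ 2 := by nlinarith
    nlinarith [mul_le_mul h3 h4 (by positivity) (by linarith)]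

end Pool.Agent.MPca0fc2.SH
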