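import Mathlib
import Pool.Agent.Lib.MP_ca0fc2_an.SH.Defs
import Pool.Agent.Lib.MP_ca0fc2_an.CGInv
import Pool.Agent.Lib.MP_ca0fc2_an.SH.B2

set_option autoImplicit false
set_option linter.unusedSectionVars false

open Metric Set MeasureTheory Filter Topology
open scoped InnerProductSpace ENNReal ContDiff

namespace Pool.Agent.MPca0fc2.SH

open Pool.Agent.MPca0fc2.PT
open Pool.Agent.MPca0fc2.TB (En Solv Trans)

/-- The invariant gradient of the pull back. `CG.IG_aut` (CGInv.lean) and `IG2 u w ≤ (1 - ‖w‖²) ‖fderiv u w‖²`; the derivative of a component has norm at most `L`. -/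
theorem IG_pull {n N : ℕ} {H : En n → En N} (hH : DifferentiableOn ℂ H (ball 0 1)) {L : ℝ}
    (hL : ∀ z ∈ ball (0 : En n) 1, ‖fderiv ℂ H z‖ ≤ L) {p : En n} (hp : ‖p‖ = 1) {d : ℝ}
    (hd : 0 < d) (hd1 : d < 1) {z : En n} (hz : ‖z‖ < 1) (l : Fin N) :
    IG2 (fun z => H (phd p d z) l) z ≤ L ^ 2 * (1 - ‖phd p d z‖ ^ 2) := by
  have hφ := phd_aut hp hd hd1
  have hu : DifferentiableOn ℂ (fun w => H w l) (ball 0 1) := by
    intro w hw
    exact ((EuclideanSpace.proj l : En N →L[ℂ] ℂ).differentiableAt).comp_differentiableWithinAt w (hH w hw)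
  have h1 := CG.IG_aut hu hφ hz
  refine h1.trans ?_
  have hw : phd p d z ∈ ball (0 : En n) 1 := hφ.map z (mem_ball_zero_iff.mpr hz)
  obtain ⟨w, hwd⟩ : ∃ w, w = phd p d z := ⟨_, rfl⟩
  rw [← hwd] at hw ⊢
  have hd' : DifferentiableAt ℂ H w := hH.differentiableAt (isOpen_ball.mem_nhds hw)
  have h2 : HasFDerivAt (fun w => H w l)
      ((EuclideanSpace.proj l : En N →L[ℂ] ℂ).comp (fderiv ℂ H w)) w :=
    (EuclideanSpace.proj l : En N →L[ℂ] ℂ).hasFDerivAt.comp w hd'.hasFDerivAt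
  have h3 : ‖fderiv ℂ (fun w => H w l) w‖ ≤ L := by
    rw [h2.fderiv]
    refine le_trans ?_ (hL w hw)
    refine ContinuousLinearMap.opNorm_le_bound _ (norm_nonneg _) fun v => ?_
    rw [ContinuousLinearMap.comp_apply]
    calc ‖(EuclideanSpace.proj l : En N →L[ℂ] ℂ) (fderiv ℂ H w v)‖ = ‖(fderiv ℂ H w v) l‖ := rfl
      _ ≤ ‖fderiv ℂ H w v‖ := PiLp.norm_apply_le _ l
      _ ≤ ‖fderiv ℂ H w‖ * ‖v‖ := ContinuousLinearMap.le_opNorm _ _
  have hw1 : ‖w‖ < 1 := mem_ball_zero_iff.mp hw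
  have h4 : 0 ≤ 1 - ‖w‖ ^ 2 := by nlinarith [norm_nonneg w]
  have h5 : ‖fderiv ℂ (fun w => H w l) w‖ ^ 2 ≤ L ^ 2 := by
    have := norm_nonneg (fderiv ℂ (fun w => H w l) w)
    gcongr
  unfold IG2
  have h6 : 0 ≤ ‖fderiv ℂ (fun w => H w l) w w‖ ^ 2 := by positivity
  nlinarith [mul_nonneg h4 h6, mul_nonneg h4 (sub_nonneg.2 h5)]

end Pool.Agent.MPca0fc2.SH
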