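import Mathlib
import Pool.Agent.Lib.MP_ca0fc2_an.SH.Defs
import Pool.Agent.Lib.MP_ca0fc2_an.CGInv
import Pool.Agent.Lib.MP_ca0fc2_an.TS.Gr

set_option autoImplicit false
set_option linter.unusedSectionVars false

open Metric Set MeasureTheory Filter Topology
open scoped InnerProductSpace ENNReal ContDiff

namespace Pool.Agent.MPca0fc2.SH

open Pool.Agent.MPca0fc2.PT
open Pool.Agent.MPca0fc2.TB (En Solv Trans)

variable {E : Type*} [NormedAddCommGroup E] [InnerProductSpace ℂ E] [FiniteDimensional ℂ E]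

/-- The invariant gradient of a series is at most the sum of the invariant gradients.
Proof. `CG.IG_rep` (CGInv.lean): `IG2 u z = ‖b‖²` where `fderiv ℂ (fun x => u (gg z x)) 0 v = ⟪b, v⟫`, i.e. `√(IG2 u z) = ‖fderiv ℂ (fun x => u (gg z x)) 0‖` (all `v`, `‖b‖ = ` operator norm). The
derivative at `0` of the series is the series of the derivatives (`hasFDerivAt_tsum_of_isPreconnected` on a small ball around `0`, which `gg z` maps into `closedBall 0 r`, `r < 1`; the bounds of the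
derivatives by Cauchy estimates, e.g. `Complex.norm_deriv_le_of_forall_mem_sphere_norm_le` on lines, or `gd_schwarz`, see TS/Gr.lean), and `‖∑' A_k‖ ≤ ∑' ‖A_k‖ ≤ ∑' b k`. -/
theorem IG_tsum {G : ℕ → E → ℂ} (hG : ∀ k, DifferentiableOn ℂ (G k) (ball 0 1)) {u : ℕ → ℝ}
    (hu : Summable u) (hub : ∀ r : ℝ, r < 1 → ∃ C : ℝ, ∀ k, ∀ z : E, ‖z‖ ≤ r → ‖G k z‖ ≤ C * u k)
    (c : ℂ) {z : E} (hz : ‖z‖ < 1) {b : ℕ → ℝ} (hb0 : ∀ k, 0 ≤ b k)
    (hb : ∀ k, IG2 (G k) z ≤ b k ^ 2) (hbs : Summable b) :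
    IG2 (fun z => c + ∑' k, G k z) z ≤ (∑' k, b k) ^ 2 := by
  obtain ⟨r, hr⟩ : ∃ r : ℝ, r = (1 + ‖z‖) / 2 := ⟨_, rfl⟩
  obtain ⟨ρ, hρ⟩ : ∃ ρ : ℝ, ρ = (1 - ‖z‖) / 4 := ⟨_, rfl⟩
  have hρ0 : 0 < ρ := by rw [hρ]; linarith
  have hr1 : r < 1 := by rw [hr]; linarith
  obtain ⟨C, hC⟩ := hub r hr1
  have hzs : z ∈ ball z ρ := mem_ball_self hρ0
  -- Cauchy estimates on the small ball
  have hsub : ∀ x ∈ ball z ρ, ∀ y ∈ ball x ρ, ‖y‖ ≤ r ∧ ‖y‖ < 1 := by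
    intro x hx y hy
    rw [mem_ball, dist_eq_norm] at hx hy
    have h1 : ‖y‖ ≤ ‖y - x‖ + ‖x - z‖ + ‖z‖ := by
      calc ‖y‖ = ‖(y - x) + (x - z) + z‖ := by congr 1; abel
        _ ≤ ‖(y - x) + (x - z)‖ + ‖z‖ := norm_add_le _ _
        _ ≤ ‖y - x‖ + ‖x - z‖ + ‖z‖ := by gcongr; exact norm_add_le _ _
    have h2 : ‖y‖ ≤ r := by rw [hr]; rw [hρ] at hx hy; linarith
    exact ⟨h2, h2.trans_lt hr1⟩
  have hder : ∀ k, ∀ x ∈ ball z ρ, ‖fderiv ℂ (G k) x‖ ≤ (2 * C / ρ) * u k := by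
    intro k x hx
    have h1 : ∀ v, ‖fderiv ℂ (G k) x v‖ ≤ 2 * (C * u k) / ρ * ‖v‖ := fun v =>
      Pool.Agent.Lib.MP_ca0fc2_an.norm_fderiv_apply_le hρ0
        ((hG k).mono fun y hy => mem_ball_zero_iff.mpr (hsub x hx y hy).2)
        (fun y hy => hC k y (hsub x hx y hy).1) v
    have h0 : 0 ≤ 2 * (C * u k) / ρ := by
      have := (norm_nonneg _).trans (hC k x (hsub x hx x (mem_ball_self hρ0)).1)
      positivity
    refine (ContinuousLinearMap.opNorm_le_bound _ h0 h1).trans (le_of_eq ?_)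
    ring
  have hfd : ∀ k, ∀ x ∈ ball z ρ, HasFDerivAt (G k) (fderiv ℂ (G k) x) x := by
    intro k x hx
    have h1 : ‖x‖ < 1 := (hsub x hx x (mem_ball_self hρ0)).2
    exact ((hG k).differentiableAt (isOpen_ball.mem_nhds (mem_ball_zero_iff.mpr h1))).hasFDerivAt
  have hsum0 : Summable fun k => G k z := by
    refine Summable.of_norm_bounded (hu.mul_left C) fun k => ?_
    exact hC k z (hsub z hzs z hzs).1
  have hs' : Summable fun k => (2 * C / ρ) * u k := hu.mul_left _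
  have hD : HasFDerivAt (fun y => ∑' k, G k y) (∑' k, fderiv ℂ (G k) z) z :=
    hasFDerivAt_tsum_of_isPreconnected hs' isOpen_ball (convex_ball z ρ).isPreconnected
      hfd hder hzs hsum0 hzs
  have hDs : Summable fun k => fderiv ℂ (G k) z :=
    Summable.of_norm_bounded hs' fun k => hder k z hzs
  have hD' : fderiv ℂ (fun y => c + ∑' k, G k y) z = ∑' k, fderiv ℂ (G k) z :=
    (hD.const_add c).fderiv
  obtain ⟨β, hβ, hβn⟩ := CG.IG_rep (u := fun y => c + ∑' k, G k y) hz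
  have hk : ∀ k, ∀ v : E, ‖fderiv ℂ (G k) z (gg' z 0 v)‖ ≤ b k * ‖v‖ := by
    intro k v
    obtain ⟨γ, hγ, hγn⟩ := CG.IG_rep (u := G k) hz
    have h1 : ‖γ‖ ≤ b k := by
      have h2 : ‖γ‖ ^ 2 ≤ b k ^ 2 := hγn.trans_le (hb k)
      exact le_of_sq_le_sq h2 (hb0 k)
    rw [hγ v]
    exact (norm_inner_le_norm _ _).trans (mul_le_mul_of_nonneg_right h1 (norm_nonneg _))
  have hmain : ‖β‖ ^ 2 ≤ (∑' k, b k) * ‖β‖ := by
    have h1 : (∑' k, fderiv ℂ (G k) z) (gg' z 0 β) = ∑' k, fderiv ℂ (G k) z (gg' z 0 β) :=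
      (ContinuousLinearMap.apply ℂ ℂ (gg' z 0 β)).map_tsum hDs
    have h2 : ‖⟪β, β⟫_ℂ‖ = ‖β‖ ^ 2 := by
      rw [inner_self_eq_norm_sq_to_K]; simp
    rw [← h2, ← hβ β, hD', h1]
    have h3 : Summable fun k => b k * ‖β‖ := hbs.mul_right _
    have h4 : ‖∑' k, fderiv ℂ (G k) z (gg' z 0 β)‖ ≤ ∑' k, b k * ‖β‖ :=
      tsum_of_norm_bounded h3.hasSum fun k => hk k β
    rwa [tsum_mul_right] at h4
  have hB : 0 ≤ ∑' k, b k := tsum_nonneg hb0
  rw [← hβn]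
  have h5 : ‖β‖ ≤ ∑' k, b k := by
    rcases (norm_nonneg β).eq_or_lt with h0 | h0
    · rw [← h0]; exact hB
    · have : ‖β‖ * ‖β‖ ≤ (∑' k, b k) * ‖β‖ := by rw [← sq]; exact hmain
      exact le_of_mul_le_mul_right this h0
  gcongr

end Pool.Agent.MPca0fc2.SH
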