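import Mathlib
import Pool.Agent.Lib.MP_ca0fc2_an.SH.Defs
import Pool.Agent.Lib.MP_ca0fc2_an.SH.B2

set_option autoImplicit false
set_option linter.unusedSectionVars false

open Metric Set MeasureTheory Filter Topology
open scoped InnerProductSpace ENNReal ContDiff

namespace Pool.Agent.MPca0fc2.SH

open Pool.Agent.MPca0fc2.PT
open Pool.Agent.MPca0fc2.TB (En Solv Trans)

private theorem B6_mem {n : ℕ} {p : En n} (hp : ‖p‖ = 1) {d : ℝ} (hd : 0 < d) (hd1 : d < 1)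
    {z : En n} (hz : ‖z‖ < 1) : phd p d z ∈ ball (0 : En n) 1 := by
  rw [mem_ball_zero_iff]
  unfold phd
  refine gg_lt ?_ hz
  rw [norm_neg, norm_smul, hp, mul_one, Complex.norm_real, Real.norm_eq_abs, abs_lt]
  constructor <;> linarith

private theorem B6_near {n N : ℕ} {δ₀ κ : ℝ} {c₀ : En N} {p : En n} {lam R : ℝ → ℝ}
    {H : ℕ → En n → En N} {L m k d : ℕ → ℝ} (h : Blk δ₀ κ c₀ p lam R H L m k d) (j : ℕ)
    {z : En n} (hz : ‖z‖ < 1) :
    0 < aa p z ∧ ‖H j (phd p (d j) z) - c₀‖ ≤ 2 * L j * √(aa p z / d j) ∧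
      ‖H j (phd p (d j) z) - c₀‖ ≤ 3 * L j * √(d j / aa p z) := by
  obtain ⟨h1, h2, h3, -, -⟩ := phd_est h.p1 (h.d0 j).1 (h.d0 j).2 hz
  have hm := B6_mem h.p1 (h.d0 j).1 (h.d0 j).2 hz
  have hL : 0 ≤ L j := zero_le_one.trans (h.L1 j)
  refine ⟨h1, ?_, ?_⟩
  · calc _ ≤ L j * ‖phd p (d j) z - p‖ := h.lp j _ hm
      _ ≤ L j * (2 * √(aa p z / d j)) := mul_le_mul_of_nonneg_left h2 hL
      _ = _ := by ring
  · calc _ ≤ L j * ‖phd p (d j) z + p‖ := h.lm j _ hm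
      _ ≤ L j * (3 * √(d j / aa p z)) := mul_le_mul_of_nonneg_left h3 hL
      _ = _ := by ring

private theorem B6_sm {n N : ℕ} {δ₀ κ : ℝ} {c₀ : En N} {p : En n} {lam R : ℝ → ℝ}
    {H : ℕ → En n → En N} {L m k d : ℕ → ℝ} (h : Blk δ₀ κ c₀ p lam R H L m k d) (j : ℕ)
    {x : ℝ} (hx : x ≤ 1 / m j) : 3 * L j * √x ≤ κ / 4 ^ (j + 1) := by
  have hm : 0 < m j := zero_lt_one.trans_le (h.m1 j)
  have hs : 0 < √(m j) := Real.sqrt_pos.mpr hm
  have hL : 0 ≤ L j := zero_le_one.trans (h.L1 j)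
  have h1 : √x ≤ 1 / √(m j) := by
    rw [← Real.sqrt_one, ← Real.sqrt_div zero_le_one]
    exact Real.sqrt_le_sqrt hx
  calc 3 * L j * √x ≤ 3 * L j * (1 / √(m j)) := mul_le_mul_of_nonneg_left h1 (by positivity)
    _ = 3 * L j / √(m j) := by ring
    _ ≤ _ := by
        rw [div_le_iff₀ hs]
        exact h.mL j

/-- Sizes. `lp`, `lm` and `phd_est`; the windows are `d j / m j < a < m j d j`. -/
theorem blk_size {n N : ℕ} {δ₀ κ : ℝ} {c₀ : En N} {p : En n} {lam R : ℝ → ℝ}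
    {H : ℕ → En n → En N} {L m k d : ℕ → ℝ} (h : Blk δ₀ κ c₀ p lam R H L m k d) (j : ℕ)
    {z : En n} (hz : ‖z‖ < 1) :
    ‖H j (phd p (d j) z) - c₀‖ ≤ 2 * L j * √(aa p z / d j) ∧
      ‖H j (phd p (d j) z) - c₀‖ ≤ 3 * L j * √(d j / aa p z) ∧
      (m j * d j ≤ aa p z → ‖H j (phd p (d j) z) - c₀‖ ≤ κ / 4 ^ (j + 1)) ∧
      (aa p z ≤ d j / m j → ‖H j (phd p (d j) z) - c₀‖ ≤ κ / 4 ^ (j + 1)) := by
  obtain ⟨ha, h1, h2⟩ := B6_near h j hz
  have hm : 0 < m j := zero_lt_one.trans_le (h.m1 j)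
  have hd := (h.d0 j).1
  have hL : 0 ≤ L j := zero_le_one.trans (h.L1 j)
  refine ⟨h1, h2, fun h3 => h2.trans (B6_sm h j ?_), fun h3 => h1.trans ?_⟩
  · rw [div_le_div_iff₀ ha hm]
    linarith
  · refine le_trans ?_ (B6_sm h j (x := aa p z / d j) ?_)
    · have : 0 ≤ L j * √(aa p z / d j) := mul_nonneg hL (Real.sqrt_nonneg _)
      nlinarith
    · rw [div_le_div_iff₀ hd hm]
      rw [le_div_iff₀ hm] at h3
      linarith

/-- Different scales. `i < j`: `sep` gives `m i m j d j < d i`, so `m j d j < d i / m i`. If `aa p z ≤ m j d j`: term `i` is `≤ 2 L i √(m j d j/d i) ≤ κ/4^(j+1)`; if `d i / m i ≤ aa p z`: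
term `j` is `≤ 3 L j √(d j m i/d i) ≤ κ/4^(j+1)`. -/
theorem blk_sep {n N : ℕ} {δ₀ κ : ℝ} {c₀ : En N} {p : En n} {lam R : ℝ → ℝ}
    {H : ℕ → En n → En N} {L m k d : ℕ → ℝ} (h : Blk δ₀ κ c₀ p lam R H L m k d) {i j : ℕ}
    (hij : i < j) {z : En n} (hz : ‖z‖ < 1) :
    m j * d j < d i / m i ∧
      (aa p z ≤ m j * d j → ‖H i (phd p (d i) z) - c₀‖ ≤ κ / 4 ^ (j + 1)) ∧
      (d i / m i ≤ aa p z → ‖H j (phd p (d j) z) - c₀‖ ≤ κ / 4 ^ (j + 1)) := by
  obtain ⟨ha, h1, -⟩ := B6_near h i hz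
  obtain ⟨-, -, h2⟩ := B6_near h j hz
  have hmi : 1 ≤ m i := h.m1 i
  have hmj : 1 ≤ m j := h.m1 j
  have hdi := (h.d0 i).1
  have hdj := (h.d0 j).1
  have hLi : 1 ≤ L i := h.L1 i
  have hLj : 1 ≤ L j := h.L1 j
  have hs := h.sep i j hij
  obtain ⟨X, hX⟩ : ∃ X : ℝ, X = m i * m j * d j / d i := ⟨_, rfl⟩
  rw [← hX] at hs
  have hMi : L i ≤ max (L i) (L j) := le_max_left _ _
  have hMj : L j ≤ max (L i) (L j) := le_max_right _ _
  obtain ⟨Mx, hMx⟩ : ∃ Mx : ℝ, Mx = max (L i) (L j) := ⟨_, rfl⟩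
  rw [← hMx] at hs hMi hMj
  have hX0 : 0 ≤ X := by rw [hX]; positivity
  have hsX : 0 ≤ √X := Real.sqrt_nonneg _
  have hq : κ / 4 ^ (j + 1) ≤ 1 := by
    rw [div_le_one (by positivity)]
    exact h.κ1.trans (one_le_pow₀ (by norm_num))
  have hX1 : √X < 1 := by nlinarith
  have hX2 : X < 1 := by
    by_contra hcon
    have h5 := Real.sqrt_le_sqrt (not_lt.mp hcon)
    rw [Real.sqrt_one] at h5
    linarith
  refine ⟨?_, fun h3 => ?_, fun h3 => ?_⟩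
  · rw [hX, div_lt_one hdi] at hX2
    rw [lt_div_iff₀ (by linarith)]
    linarith
  · refine (h1.trans ?_).trans hs
    have h4 : √(aa p z / d i) ≤ √X := by
      apply Real.sqrt_le_sqrt
      rw [hX]
      apply div_le_div_of_nonneg_right _ hdi.le
      have h6 : 0 < m j * d j := by positivity
      nlinarith
    have h5 : 0 ≤ √(aa p z / d i) := Real.sqrt_nonneg _
    calc 2 * L i * √(aa p z / d i) ≤ 2 * L i * √X := by gcongr
      _ ≤ 3 * Mx * √X := by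
          apply mul_le_mul_of_nonneg_right _ hsX
          linarith
  · refine (h2.trans ?_).trans hs
    have h4 : √(d j / aa p z) ≤ √X := by
      apply Real.sqrt_le_sqrt
      rw [hX, div_le_div_iff₀ ha hdi]
      rw [div_le_iff₀ (by linarith)] at h3
      have h6 : 0 ≤ aa p z * m i * d j * (m j - 1) := by
        have : 0 ≤ m j - 1 := by linarith
        positivity
      have h7 : d i * d j ≤ aa p z * m i * d j := mul_le_mul_of_nonneg_right h3 hdj.le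
      nlinarith
    calc 3 * L j * √(d j / aa p z) ≤ 3 * L j * √X := by gcongr
      _ ≤ 3 * Mx * √X := by
          apply mul_le_mul_of_nonneg_right _ hsX
          linarith

/-- Summability: for `1 ≤ j`, `sep 0 j` and `m ≥ 1`, `d 0 < 1` give `3 L j √(d j) ≤ κ/4^(j+1)`; `aa p z ≥ 1 - ‖z‖`. -/
theorem blk_sum {n N : ℕ} {δ₀ κ : ℝ} {c₀ : En N} {p : En n} {lam R : ℝ → ℝ}
    {H : ℕ → En n → En N} {L m k d : ℕ → ℝ} (h : Blk δ₀ κ c₀ p lam R H L m k d) :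
    ∃ C₀ : ℝ, 0 ≤ C₀ ∧ ∀ r : ℝ, r < 1 → ∀ (j : ℕ) (z : En n), ‖z‖ ≤ r →
      ‖H j (phd p (d j) z) - c₀‖ ≤ C₀ / √(1 - r) * (1 / 4) ^ j := by
  have hL0 : 1 ≤ L 0 := h.L1 0
  refine ⟨3 * L 0 + 1, by linarith, fun r hr j z hz => ?_⟩
  have hz1 : ‖z‖ < 1 := lt_of_le_of_lt hz hr
  obtain ⟨ha, -, h2⟩ := B6_near h j hz1
  have hr0 : 0 < 1 - r := by linarith
  have hs0 : 0 < √(1 - r) := Real.sqrt_pos.mpr hr0
  have ha2 : 1 - r ≤ aa p z := by
    have h3 : ‖⟪p, z⟫_ℂ‖ ≤ ‖z‖ := by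
      have := norm_inner_le_norm (𝕜 := ℂ) p z
      rwa [h.p1, one_mul] at this
    have h4 := norm_sub_norm_le (1 : ℂ) ⟪p, z⟫_ℂ
    rw [norm_one] at h4
    unfold aa
    linarith
  have hdj := (h.d0 j).1
  have hLj : 1 ≤ L j := h.L1 j
  have h5 : √(d j / aa p z) ≤ √(d j) / √(1 - r) := by
    rw [← Real.sqrt_div hdj.le]
    exact Real.sqrt_le_sqrt (div_le_div_of_nonneg_left hdj.le hr0 ha2)
  have h6 : 3 * L j * √(d j) ≤ (3 * L 0 + 1) * (1 / 4) ^ j := by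
    rcases Nat.eq_zero_or_pos j with hj | hj
    · subst hj
      have h7 : √(d 0) ≤ 1 := by
        rw [← Real.sqrt_one]
        exact Real.sqrt_le_sqrt (h.d0 0).2.le
      rw [pow_zero, mul_one]
      nlinarith [Real.sqrt_nonneg (d 0)]
    · have h7 := h.sep 0 j hj
      have hm0 : 1 ≤ m 0 := h.m1 0
      have hmj : 1 ≤ m j := h.m1 j
      have h8 : √(d j) ≤ √(m 0 * m j * d j / d 0) := by
        apply Real.sqrt_le_sqrt
        rw [le_div_iff₀ (h.d0 0).1]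
        have h9 : 1 ≤ m 0 * m j := one_le_mul_of_one_le_of_one_le hm0 hmj
        nlinarith [(h.d0 0).1, (h.d0 0).2]
      have h10 : 3 * L j * √(d j) ≤ 3 * max (L 0) (L j) * √(m 0 * m j * d j / d 0) := by
        have h11 : L j ≤ max (L 0) (L j) := le_max_right _ _
        gcongr
      refine (h10.trans h7).trans ?_
      calc κ / 4 ^ (j + 1) ≤ 1 / 4 ^ j := by
            apply div_le_div₀ zero_le_one h.κ1 (by positivity)
            exact pow_le_pow_right₀ (by norm_num) (Nat.le_succ j)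
        _ = 1 * (1 / 4) ^ j := by rw [one_mul, one_div_pow]
        _ ≤ _ := by
            apply mul_le_mul_of_nonneg_right _ (by positivity)
            linarith
  calc _ ≤ 3 * L j * √(d j / aa p z) := h2
    _ ≤ 3 * L j * (√(d j) / √(1 - r)) := mul_le_mul_of_nonneg_left h5 (by positivity)
    _ = 3 * L j * √(d j) / √(1 - r) := by ring
    _ ≤ (3 * L 0 + 1) * (1 / 4) ^ j / √(1 - r) := div_le_div_of_nonneg_right h6 hs0.le
    _ = _ := by ring

end Pool.Agent.MPca0fc2.SH
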