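import Mathlib
import Pool.Agent.Lib.MP_ca0fc2_an.SH.Defs
import Pool.Agent.Lib.MP_ca0fc2_an.SH.B3
import Pool.Agent.Lib.MP_ca0fc2_an.SH.B4
import Pool.Agent.Lib.MP_ca0fc2_an.SH.B6
import Pool.Agent.Lib.MP_ca0fc2_an.EQ.GR3

set_option autoImplicit false
set_option linter.unusedSectionVars false

open Metric Set MeasureTheory Filter Topology
open scoped InnerProductSpace ENNReal ContDiff

namespace Pool.Agent.MPca0fc2.SH

open Pool.Agent.MPca0fc2.PT
open Pool.Agent.MPca0fc2.TB (En Solv Trans)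

/-- A normally convergent series of holomorphic functions of several variables is holomorphic
(copy of a private lemma of EQ/GR3). -/
private theorem B7a_tsum {n N : ℕ} {U : Set (En n)} (hU : IsOpen U) {h : ℕ → En n → En N}
    {u : ℕ → ℝ} (hu : Summable u) (hh : ∀ k, DifferentiableOn ℂ (h k) U)
    (hb : ∀ k, ∀ z ∈ U, ‖h k z‖ ≤ u k)
    (hu0 : ∀ k, 0 ≤ u k) : DifferentiableOn ℂ (fun z => ∑' k, h k z) U := by
  rw [differentiableOn_euclidean]
  intro i
  set 𝒰 : Ultrafilter ℕ := Ultrafilter.of atTop with h𝒰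
  have hle : (𝒰 : Filter ℕ) ≤ atTop := Ultrafilter.of_le _
  have hG : ∀ m, DifferentiableOn ℂ (fun z => ∑ k ∈ Finset.range m, (h k z) i) U := fun m =>
    DifferentiableOn.fun_sum fun k _ => (differentiableOn_euclidean.1 (hh k)) i
  have hM : ∀ m, ∀ z ∈ U, ‖∑ k ∈ Finset.range m, (h k z) i‖ ≤ ∑' k, u k := by
    intro m z hz
    refine (norm_sum_le _ _).trans ?_
    refine (Finset.sum_le_sum fun k _ => (PiLp.norm_apply_le (h k z) i).trans (hb k z hz)).trans ?_
    exact hu.sum_le_tsum _ fun k _ => hu0 k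
  obtain ⟨g, hg1, -, hg3⟩ := SL.ultra_holo 𝒰 hU (tsum_nonneg hu0) hG hM
  refine hg1.congr fun z hz => ?_
  have hs : Summable fun k => h k z := Summable.of_norm_bounded hu fun k => hb k z hz
  have h1 : Tendsto (fun m => ∑ k ∈ Finset.range m, h k z) atTop (𝓝 (∑' k, h k z)) :=
    hs.hasSum.tendsto_sum_nat
  have h2 : Tendsto (fun m => ∑ k ∈ Finset.range m, (h k z) i) atTop (𝓝 ((∑' k, h k z) i)) := by
    have h3 := ((EuclideanSpace.proj (𝕜 := ℂ) i : StrongDual ℂ (En N)).continuous.tendsto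
      (∑' k, h k z)).comp h1
    refine h3.congr fun m => ?_
    simp only [Function.comp]
    rw [map_sum]
    rfl
  exact tendsto_nhds_unique (h2.mono_left hle) (hg3 z hz)

/-- The data are holomorphic: a locally uniformly convergent series of holomorphic functions (`blk_sum`; pattern `GR3_tsum`, private in EQ/GR3.lean, on the balls `ball 0 r`, `r < 1`), and summable at each point. -/
theorem fB_holo {n N : ℕ} {δ₀ κ : ℝ} {c₀ : En N} {p : En n} {lam R : ℝ → ℝ}
    {H : ℕ → En n → En N} {L m k d : ℕ → ℝ} (h : Blk δ₀ κ c₀ p lam R H L m k d) :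
    DifferentiableOn ℂ (fB c₀ p H d) (ball 0 1) ∧
      ∀ z ∈ ball (0 : En n) 1, Summable fun j => H j (phd p (d j) z) - c₀ := by
  obtain ⟨C₀, hC₀, hb⟩ := blk_sum h
  have hgeo : Summable fun j : ℕ => (1 / 4 : ℝ) ^ j :=
    summable_geometric_of_lt_one (by norm_num) (by norm_num)
  have hdiff : ∀ j, DifferentiableOn ℂ (fun z => H j (phd p (d j) z) - c₀) (ball 0 1) := by
    intro j
    have ha := phd_aut h.p1 (h.d0 j).1 (h.d0 j).2
    have h1 : DifferentiableOn ℂ (fun z => H j (phd p (d j) z)) (ball 0 1) :=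
      (h.hol j).comp ha.hol fun z hz => ha.map z hz
    exact h1.sub_const c₀
  refine ⟨?_, ?_⟩
  · intro z hz
    have hz1 : ‖z‖ < 1 := by simpa using hz
    obtain ⟨r, hr1, hr2⟩ := exists_between hz1
    have hU : IsOpen (ball (0 : En n) r) := isOpen_ball
    have hzr : z ∈ ball (0 : En n) r := by simpa using hr1
    have hD : DifferentiableOn ℂ (fun z => ∑' j, (H j (phd p (d j) z) - c₀)) (ball (0 : En n) r) :=
      B7a_tsum hU (u := fun j => C₀ / √(1 - r) * (1 / 4) ^ j) (hgeo.mul_left _)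
        (fun j => (hdiff j).mono (ball_subset_ball hr2.le))
        (fun j w hw => hb r hr2 j w (by simpa using (mem_ball_zero_iff.1 hw).le))
        (fun j => by positivity)
    have h1 : DifferentiableAt ℂ (fun z => ∑' j, (H j (phd p (d j) z) - c₀)) z :=
      hD.differentiableAt (hU.mem_nhds hzr)
    have h2 : DifferentiableAt ℂ (fB c₀ p H d) z := (differentiableAt_const c₀).add h1
    exact h2.differentiableWithinAt
  · intro z hz
    have hz1 : ‖z‖ < 1 := by simpa using hz
    exact Summable.of_norm_bounded (hgeo.mul_left (C₀ / √(1 - ‖z‖))) fun j => hb ‖z‖ hz1 j z le_rfl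

end Pool.Agent.MPca0fc2.SH
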