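import Mathlib
import Pool.Agent.Lib.MP_ca0fc2_an.SH.Defs
import Pool.Agent.Lib.MP_ca0fc2_an.SH.B3
import Pool.Agent.Lib.MP_ca0fc2_an.SH.B4
import Pool.Agent.Lib.MP_ca0fc2_an.SH.B6
import Pool.Agent.Lib.MP_ca0fc2_an.SH.B7a

set_option autoImplicit false
set_option linter.unusedSectionVars false

open Metric Set MeasureTheory Filter Topology
open scoped InnerProductSpace ENNReal ContDiff

namespace Pool.Agent.MPca0fc2.SH

open Pool.Agent.MPca0fc2.PT
open Pool.Agent.MPca0fc2.TB (En Solv Trans)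

/-- a geometric bound of a series -/
private theorem B7b_geo {N : ℕ} {T : ℕ → En N} {a : ℝ}
    (hT : ∀ i, ‖T i‖ ≤ a / 2 / 2 ^ i) : ‖∑' i, T i‖ ≤ a :=
  tsum_of_norm_bounded (hasSum_geometric_two' a) hT

/-- all terms but one are small -/
private theorem B7b_one {N : ℕ} {T : ℕ → En N} (hs : Summable T) {a : ℝ} (ha : 0 ≤ a) (j : ℕ)
    (hT : ∀ i, i ≠ j → ‖T i‖ ≤ a / 2 / 2 ^ i) (c v : En N) (hv : T j = v - c) :
    ‖(c + ∑' i, T i) - v‖ ≤ a := by
  rw [hs.tsum_eq_add_tsum_ite j, hv]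
  have e : (c + (v - c + ∑' i, ite (i = j) 0 (T i))) - v = ∑' i, ite (i = j) 0 (T i) := by abel
  rw [e]
  refine B7b_geo fun i => ?_
  by_cases hij : i = j
  · rw [if_pos hij, norm_zero]; positivity
  · rw [if_neg hij]; exact hT i hij

private theorem B7b_pow {κ : ℝ} (hκ : 0 < κ) (i : ℕ) : κ / 4 ^ (i + 1) ≤ κ / 2 / 2 ^ i := by
  rw [div_div]
  refine div_le_div_of_nonneg_left hκ.le (by positivity) ?_
  have h1 : (2 : ℝ) * 2 ^ i = 2 ^ (i + 1) := by ring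
  rw [h1]
  exact pow_le_pow_left₀ (by norm_num) (by norm_num) _

private theorem B7b_pow2 {κ : ℝ} (hκ : 0 < κ) {i j : ℕ} (h : i ≤ j) :
    κ / 4 ^ (j + 1) ≤ κ / 2 ^ j / 2 / 2 ^ i := by
  rw [div_div, div_div]
  refine div_le_div_of_nonneg_left hκ.le (by positivity) ?_
  have h1 : (2 : ℝ) ^ j * (2 * 2 ^ i) = 2 ^ (i + j + 1) := by ring
  have h2 : (4 : ℝ) ^ (j + 1) = 2 ^ (2 * (j + 1)) := by rw [pow_mul]; norm_num
  rw [h1, h2]
  exact pow_le_pow_right₀ (by norm_num) (by omega)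

private theorem B7b_pow3 {κ : ℝ} (hκ : 0 < κ) {i j : ℕ} (h : j ≤ i) :
    κ / 4 ^ (i + 1) ≤ κ / 2 ^ j / 2 / 2 ^ i := by
  rw [div_div, div_div]
  refine div_le_div_of_nonneg_left hκ.le (by positivity) ?_
  have h1 : (2 : ℝ) ^ j * (2 * 2 ^ i) = 2 ^ (i + j + 1) := by ring
  have h2 : (4 : ℝ) ^ (i + 1) = 2 ^ (2 * (i + 1)) := by rw [pow_mul]; norm_num
  rw [h1, h2]
  exact pow_le_pow_right₀ (by norm_num) (by omega)

/-- The size of the data. If `z` is in the window of `j` (`d j/m j < a < m j d j`, `a = aa p z`), it is not in the window of any `i ≠ j` (`blk_sep`, first part, applied to `i < j` or `j < i`; `m i d i` and `d i / m i` are separated), so all other terms are `≤ κ/4^(i+1)` (`blk_size`) and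
`‖f z - H j (phd z)‖ ≤ ∑ κ/4^(i+1) ≤ κ/3`; if `z` is in no window `‖f z - c₀‖ ≤ κ/3`. (`fB_holo` for the summability; `‖∑'‖ ≤ ∑' ‖‖`, `hasSum_ite_sub_hasSum`/`Summable.tsum_eq_add_tsum_ite` to take out a term.)
Approximation, for `d j/m j ≤ a ≤ m j d j`: terms `i < j`: `≤ κ/4^(j+1)` each (`blk_sep` for `i < j`), terms `i > j`: `≤ κ/4^(i+1)` (`blk_sep` for `j < i`); the sum is at most `κ (j/4^(j+1) + 1/(3 * 4^(j+1))) ≤ κ/2^j`. -/
theorem fB_size {n N : ℕ} {δ₀ κ : ℝ} {c₀ : En N} {p : En n} {lam R : ℝ → ℝ}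
    {H : ℕ → En n → En N} {L m k d : ℕ → ℝ} (h : Blk δ₀ κ c₀ p lam R H L m k d) :
    (∀ z ∈ ball (0 : En n) 1, δ₀ - 2 * κ ≤ ‖fB c₀ p H d z‖ ∧ ‖fB c₀ p H d z‖ ≤ 1 + 2 * κ) ∧
      ∀ j, ∀ z ∈ ball (0 : En n) 1, d j / m j ≤ aa p z → aa p z ≤ m j * d j →
        ‖fB c₀ p H d z - H j (phd p (d j) z)‖ ≤ κ / 2 ^ j := by
  have hκ := h.κ0
  have hsum := (fB_holo h).2
  have approx : ∀ j, ∀ z ∈ ball (0 : En n) 1, d j / m j ≤ aa p z → aa p z ≤ m j * d j →
        ‖fB c₀ p H d z - H j (phd p (d j) z)‖ ≤ κ / 2 ^ j := by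
    intro j z hz h1 h2
    have hz' : ‖z‖ < 1 := by simpa using hz
    refine B7b_one (T := fun i => H i (phd p (d i) z) - c₀) (hsum z hz) (by positivity) j ?_ c₀ _ rfl
    intro i hij
    rcases lt_or_gt_of_ne hij with hlt | hgt
    · exact ((blk_sep h hlt hz').2.1 h2).trans (B7b_pow2 hκ hlt.le)
    · exact ((blk_sep h hgt hz').2.2 h1).trans (B7b_pow3 hκ hgt.le)
  refine ⟨fun z hz => ?_, approx⟩
  have hz' : ‖z‖ < 1 := by simpa using hz
  by_cases hw : ∃ j, d j / m j ≤ aa p z ∧ aa p z ≤ m j * d j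
  · obtain ⟨j, h1, h2⟩ := hw
    have h3 := approx j z hz h1 h2
    have h4 : κ / 2 ^ j ≤ κ := div_le_self hκ.le (one_le_pow₀ (by norm_num))
    have hb : phd p (d j) z ∈ ball (0 : En n) 1 := by
      have := (phd_aut h.p1 (h.d0 j).1 (h.d0 j).2)
      exact this.map _ hz
    have h5 := h.bd j _ hb
    have h6 := abs_le.1 (abs_norm_sub_norm_le (fB c₀ p H d z) (H j (phd p (d j) z)))
    constructor <;> linarith [h6.1, h6.2]
  · push Not at hw
    have h3 : ‖∑' i, (H i (phd p (d i) z) - c₀)‖ ≤ κ := by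
      refine B7b_geo fun i => ?_
      refine le_trans ?_ (B7b_pow hκ i)
      by_cases h1 : d i / m i ≤ aa p z
      · exact (blk_size h i hz').2.2.1 (hw i h1).le
      · exact (blk_size h i hz').2.2.2 (not_le.1 h1).le
    have h6 := abs_le.1 (abs_norm_sub_norm_le (fB c₀ p H d z) c₀)
    have h7 : fB c₀ p H d z - c₀ = ∑' i, (H i (phd p (d i) z) - c₀) := by
      rw [fB, add_sub_cancel_left]
    rw [h7] at h6
    have h8 := h.c0
    constructor <;> linarith [h6.1, h6.2, h8.1, h8.2]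

end Pool.Agent.MPca0fc2.SH
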