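import Mathlib
import Pool.Agent.Lib.MP_ca0fc2_an.SH.Defs
import Pool.Agent.Lib.MP_ca0fc2_an.SH.B3
import Pool.Agent.Lib.MP_ca0fc2_an.SH.B4
import Pool.Agent.Lib.MP_ca0fc2_an.SH.B6
import Pool.Agent.Lib.MP_ca0fc2_an.SH.B7a

set_option autoImplicit false
set_option linter.unusedSectionVars false

open Metric Set MeasureTheory Filter Topology
open scoped InnerProductSpace ENNReal ContDiff

namespace Pool.Agent.MPca0fc2.SH

open Pool.Agent.MPca0fc2.PT
open Pool.Agent.MPca0fc2.TB (En Solv Trans)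

private theorem B7c_find {n N : ℕ} {δ₀ κ : ℝ} {c₀ : En N} {p : En n} {lam R : ℝ → ℝ}
    {H : ℕ → En n → En N} {L m k d : ℕ → ℝ} (h : Blk δ₀ κ c₀ p lam R H L m k d)
    {z : En n} (hz : ‖z‖ < 1) (ha : 0 < aa p z) :
    ∃ j₀ : ℕ, (∀ j, j < j₀ → aa p z < m j * d j) ∧ ∀ j, j₀ ≤ j → m j * d j ≤ aa p z := by
  have hex : ∃ j, ¬ aa p z < m j * d j := by
    by_contra hcon
    push Not at hcon
    obtain ⟨j, hj⟩ := exists_pow_lt_of_lt_one ha (show (1 / 4 : ℝ) < 1 by norm_num)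
    have h1 := hcon (j + 1)
    have hs := h.sep 0 (j + 1) (Nat.succ_pos j)
    have hL : 1 ≤ max (L 0) (L (j + 1)) := (h.L1 0).trans (le_max_left _ _)
    obtain ⟨X, hX⟩ : ∃ X : ℝ, X = m 0 * m (j + 1) * d (j + 1) / d 0 := ⟨_, rfl⟩
    rw [← hX] at hs
    have hd0 := h.d0 0
    have hdj := h.d0 (j + 1)
    have hm0 := h.m1 0
    have hmj := h.m1 (j + 1)
    have hX1 : m (j + 1) * d (j + 1) ≤ X := by
      rw [hX, le_div_iff₀ hd0.1]
      have h2 : 0 < m (j + 1) * d (j + 1) := mul_pos (by linarith) hdj.1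
      nlinarith [hd0.2]
    have hX0 : 0 ≤ X := le_trans (mul_pos (by linarith) hdj.1).le hX1
    have h3 : √X ≤ κ / 4 ^ (j + 1 + 1) := by
      have h4 := Real.sqrt_nonneg X
      nlinarith
    have h5 : κ / 4 ^ (j + 1 + 1) ≤ (1 / 4) ^ j := by
      rw [one_div_pow, div_le_div_iff₀ (by positivity) (by positivity)]
      have h6 : (4 : ℝ) ^ j ≤ 4 ^ (j + 1 + 1) := pow_le_pow_right₀ (by norm_num) (by omega)
      have h7 : (0 : ℝ) < 4 ^ j := by positivity
      nlinarith [h.κ1, h.κ0]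
    have h8 : (1 / 4 : ℝ) ^ j ≤ 1 := pow_le_one₀ (by norm_num) (by norm_num)
    have h9 : X = √X ^ 2 := (Real.sq_sqrt hX0).symm
    have h10 := Real.sqrt_nonneg X
    have h11 : X ≤ (1 / 4) ^ j := by
      rw [h9]
      nlinarith
    linarith
  classical
  refine ⟨Nat.find hex, fun j hj => ?_, fun j hj => ?_⟩
  · have := Nat.find_min hex hj
    push Not at this
    exact this
  · have h1 := Nat.find_spec hex
    rw [not_lt] at h1
    rcases hj.eq_or_lt with h2 | h2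
    · rw [← h2]; exact h1
    · have h3 := (blk_sep h h2 hz).1
      obtain ⟨i, hi⟩ : ∃ i, i = Nat.find hex := ⟨_, rfl⟩
      rw [← hi] at h1 h3
      have hmi := h.m1 i
      have hdi := (h.d0 i).1
      have h4 : d i / m i ≤ m i * d i := by
        rw [div_le_iff₀ (by linarith)]
        have : 0 < m i * d i := mul_pos (by linarith) hdi
        nlinarith
      linarith

private theorem B7c_term {n N : ℕ} {δ₀ κ : ℝ} {c₀ : En N} {p : En n} {lam R : ℝ → ℝ}
    {H : ℕ → En n → En N} {L m k d : ℕ → ℝ} (h : Blk δ₀ κ c₀ p lam R H L m k d)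
    {z : En n} (hz : ‖z‖ < 1) (ha : 0 < aa p z) (l : Fin N) (j : ℕ) :
    IG2 (fun z => (H j (phd p (d j) z) - c₀) l) z ≤ (2 * L j) ^ 2 * ((1 - ‖z‖ ^ 2) / aa p z) ∧
      (m j * d j ≤ aa p z →
        IG2 (fun z => (H j (phd p (d j) z) - c₀) l) z ≤
          (κ / 4 ^ (j + 1)) ^ 2 * ((1 - ‖z‖ ^ 2) / aa p z)) := by
  have e : (fun z => (H j (phd p (d j) z) - c₀) l) = fun z => H j (phd p (d j) z) l - c₀ l := by
    funext w; simp
  have h0 : IG2 (fun z => (H j (phd p (d j) z) - c₀) l) z = IG2 (fun z => H j (phd p (d j) z) l) z := by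
    rw [e]
    unfold IG2
    rw [fderiv_sub_const]
  have h1 := IG_pull (h.hol j) (h.dr j) h.p1 (h.d0 j).1 (h.d0 j).2 hz l
  obtain ⟨-, -, -, h2, h3⟩ := phd_est h.p1 (h.d0 j).1 (h.d0 j).2 hz
  rw [h0]
  have hs : 0 ≤ (1 - ‖z‖ ^ 2) / aa p z := by
    refine div_nonneg ?_ ha.le
    nlinarith [norm_nonneg z]
  obtain ⟨s, hsd⟩ : ∃ s, s = (1 - ‖z‖ ^ 2) / aa p z := ⟨_, rfl⟩
  rw [← hsd] at h2 h3 hs ⊢
  obtain ⟨q, hq⟩ : ∃ q, q = 1 - ‖phd p (d j) z‖ ^ 2 := ⟨_, rfl⟩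
  rw [← hq] at h1 h2 h3
  have hL := h.L1 j
  have hm := h.m1 j
  refine ⟨?_, fun h4 => ?_⟩
  · refine h1.trans ?_
    calc L j ^ 2 * q ≤ L j ^ 2 * (4 * s) := mul_le_mul_of_nonneg_left h2 (by positivity)
      _ = (2 * L j) ^ 2 * s := by ring
  · refine h1.trans ?_
    have hm0 : 0 < m j := by linarith
    have h5 : d j / aa p z ≤ 1 / m j := by
      rw [div_le_div_iff₀ ha hm0]; linarith
    have h6 : q ≤ 8 * (1 / m j) * s := by
      refine h3.trans ?_
      have := mul_le_mul_of_nonneg_right h5 hs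
      linarith
    have h7 := h.mL j
    have h8 : (3 * L j) ^ 2 ≤ (κ / 4 ^ (j + 1)) ^ 2 * m j := by
      have h9 : (3 * L j) ^ 2 ≤ (κ / 4 ^ (j + 1) * √(m j)) ^ 2 :=
        pow_le_pow_left₀ (by linarith) h7 2
      have e9 : (κ / 4 ^ (j + 1) * √(m j)) ^ 2 = (κ / 4 ^ (j + 1)) ^ 2 * m j := by
        rw [mul_pow, Real.sq_sqrt hm0.le]
      rwa [e9] at h9
    have h10 : L j ^ 2 * (8 * (1 / m j)) ≤ (κ / 4 ^ (j + 1)) ^ 2 := by
      have e2 : L j ^ 2 * (8 * (1 / m j)) = 8 * L j ^ 2 / m j := by ring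
      rw [e2, div_le_iff₀ hm0]
      nlinarith
    calc L j ^ 2 * q ≤ L j ^ 2 * (8 * (1 / m j) * s) := mul_le_mul_of_nonneg_left h6 (by positivity)
      _ = (L j ^ 2 * (8 * (1 / m j))) * s := by ring
      _ ≤ (κ / 4 ^ (j + 1)) ^ 2 * s := mul_le_mul_of_nonneg_right h10 hs

/-- The gradient of the data. `√(IG2 (component l of term j)) ≤ √((1 - ‖z‖²)/a) β j`, `β j = 2 L j` if `a < m j d j` and `κ/4^(j+1)` otherwise (`IG_pull`, `phd_est`: `L² 4 (1 - ‖z‖²)/a`, and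
`L² 8 (d/a) ≤ (3 L √(d/a))² ≤ (3 L/√m)² ≤ (κ/4^(j+1))²` by `mL` if `m d ≤ a`; subtracting the constant `c₀ l` does not change the derivative). The set of `j` with `a < m j d j` is finite and an initial segment (`blk_sep`, first part: `m (j+1) d (j+1) < d j/m j ≤ m j d j`; and `m j d j → 0`:
from `sep 0 j`: `3 √(m j d j) ≤ 3 √(m 0 m j d j / d 0) ≤ κ/4^(j+1)`); if `J` is its largest element, `∑ β j ≤ 2 ∑ i ≤ J, L i + κ/3 ≤ lam (m J d J) ≤ lam a` (`lamb`, antitone), if it is empty `∑ β j ≤ κ/3 ≤ 1 ≤ lam a`. `IG_tsum` with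
`G j = ` component `l` of the term `j`, `u j = (1/4)^j` (`blk_sum`), `c = c₀ l`, `b j = √((1 - ‖z‖²)/a) β j`; the component of the series is the series of the components (`fB_holo`). -/
theorem fB_grad {n N : ℕ} {δ₀ κ : ℝ} {c₀ : En N} {p : En n} {lam R : ℝ → ℝ}
    (hlam : AntitoneOn lam (Ioi 0)) (hlam1 : ∀ a, 0 < a → 1 ≤ lam a)
    {H : ℕ → En n → En N} {L m k d : ℕ → ℝ} (h : Blk δ₀ κ c₀ p lam R H L m k d) :
    ∀ z ∈ ball (0 : En n) 1, ∀ l, IG2 (fun z => fB c₀ p H d z l) z ≤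
      lam (aa p z) ^ 2 * ((1 - ‖z‖ ^ 2) / aa p z) := by
  intro z hzb l
  have hz : ‖z‖ < 1 := by simpa using hzb
  have ha : 0 < aa p z := (phd_est h.p1 (h.d0 0).1 (h.d0 0).2 hz).1
  obtain ⟨j₀, hj1, hj2⟩ := B7c_find h hz ha
  have hs : 0 ≤ (1 - ‖z‖ ^ 2) / aa p z := by
    refine div_nonneg ?_ ha.le
    nlinarith [norm_nonneg z]
  obtain ⟨s, hsd⟩ : ∃ s, s = (1 - ‖z‖ ^ 2) / aa p z := ⟨_, rfl⟩
  obtain ⟨β, hβ⟩ : ∃ β : ℕ → ℝ, ∀ j, β j = (if j < j₀ then 2 * L j else 0) + κ / 4 ^ (j + 1) :=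
    ⟨_, fun _ => rfl⟩
  have hκ := h.κ0
  have hβ0 : ∀ j, 0 ≤ β j := by
    intro j
    rw [hβ]
    have := h.L1 j
    refine add_nonneg ?_ (by positivity)
    split_ifs <;> linarith
  -- the sum
  have hg : HasSum (fun j : ℕ => κ / 4 ^ (j + 1)) (κ / 3) := by
    have h1 := (hasSum_geometric_of_lt_one (r := (1 / 4 : ℝ)) (by norm_num) (by norm_num)).mul_left
      (κ / 4)
    have e1 : κ / 4 * (1 - 1 / 4)⁻¹ = κ / 3 := by norm_num; ring
    rw [e1] at h1
    refine h1.congr_fun ?_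
    intro j
    rw [one_div_pow, pow_succ]
    field_simp
  have hf : HasSum (fun j : ℕ => if j < j₀ then 2 * L j else 0)
      (∑ j ∈ Finset.range j₀, 2 * L j) := by
    have h1 : HasSum (fun j : ℕ => if j < j₀ then 2 * L j else 0)
      (∑ j ∈ Finset.range j₀, if j < j₀ then 2 * L j else 0) := by
      refine hasSum_sum_of_ne_finset_zero fun j hj => ?_
      rw [if_neg]
      simpa using hj
    have e1 : (∑ j ∈ Finset.range j₀, if j < j₀ then 2 * L j else 0) =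
        ∑ j ∈ Finset.range j₀, 2 * L j := by
      refine Finset.sum_congr rfl fun j hj => ?_
      rw [if_pos (Finset.mem_range.1 hj)]
    rwa [e1] at h1
  have hβs : HasSum β ((∑ j ∈ Finset.range j₀, 2 * L j) + κ / 3) := by
    have h1 := hf.add hg
    have e1 : β = fun j => (if j < j₀ then 2 * L j else 0) + κ / 4 ^ (j + 1) := by
      funext j; exact hβ j
    rw [e1]
    exact h1
  have hsum : (∑ j ∈ Finset.range j₀, 2 * L j) + κ / 3 ≤ lam (aa p z) := by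
    have hκ1 := h.κ1
    rcases Nat.eq_zero_or_pos j₀ with h0 | h0
    · rw [h0, Finset.range_zero, Finset.sum_empty]
      have := hlam1 _ ha
      linarith
    · obtain ⟨J, rfl⟩ : ∃ J, j₀ = J + 1 := ⟨j₀ - 1, by omega⟩
      have h1 := h.lamb J
      have h2 := hj1 J (Nat.lt_succ_self J)
      have h3 : lam (m J * d J) ≤ lam (aa p z) := hlam ha (lt_trans ha h2) h2.le
      rw [← Finset.mul_sum]
      linarith
  -- the pointwise bounds
  have hb : ∀ j, IG2 (fun z => (H j (phd p (d j) z) - c₀) l) z ≤ (√s * β j) ^ 2 := by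
    intro j
    rw [mul_pow, Real.sq_sqrt (hsd ▸ hs), mul_comm]
    obtain ⟨t1, t2⟩ := B7c_term h hz ha l j
    rw [← hsd] at t1 t2
    have hs' : 0 ≤ s := hsd ▸ hs
    have hq : (0 : ℝ) < κ / 4 ^ (j + 1) := by positivity
    have hL := h.L1 j
    by_cases hj : j < j₀
    · refine t1.trans (mul_le_mul_of_nonneg_right ?_ hs')
      rw [hβ, if_pos hj]
      exact pow_le_pow_left₀ (by linarith) (by linarith) 2
    · refine (t2 (hj2 j (not_lt.1 hj))).trans (mul_le_mul_of_nonneg_right ?_ hs')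
      rw [hβ, if_neg hj, zero_add]
  obtain ⟨C₀, hC₀, hsumb⟩ := blk_sum h
  have hGd : ∀ j, DifferentiableOn ℂ (fun z => (H j (phd p (d j) z) - c₀) l) (ball 0 1) := by
    intro j
    have haut := phd_aut h.p1 (h.d0 j).1 (h.d0 j).2
    have h1 : DifferentiableOn ℂ (fun z => H j (phd p (d j) z)) (ball 0 1) :=
      (h.hol j).comp haut.hol fun z hz => haut.map z hz
    exact (differentiableOn_euclidean.1 (h1.sub_const c₀)) l
  have hgeo : Summable fun j : ℕ => (1 / 4 : ℝ) ^ j :=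
    summable_geometric_of_lt_one (by norm_num) (by norm_num)
  have key := IG_tsum (G := fun j z => (H j (phd p (d j) z) - c₀) l) hGd hgeo
    (fun r hr => ⟨C₀ / √(1 - r), fun j w hw =>
      (PiLp.norm_apply_le (H j (phd p (d j) w) - c₀) l).trans (hsumb r hr j w hw)⟩)
    (c₀ l) hz (b := fun j => √s * β j) (fun j => mul_nonneg (Real.sqrt_nonneg _) (hβ0 j)) hb
    (hβs.summable.mul_left _)
  have e2 : (∑' j, √s * β j) = √s * ((∑ j ∈ Finset.range j₀, 2 * L j) + κ / 3) :=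
    (hβs.mul_left _).tsum_eq
  rw [e2] at key
  -- the function is the same near z
  have hev : (fun z => fB c₀ p H d z l) =ᶠ[𝓝 z]
      fun z => c₀ l + ∑' j, (H j (phd p (d j) z) - c₀) l := by
    filter_upwards [isOpen_ball.mem_nhds hzb] with w hw
    have h1 : Summable fun j => H j (phd p (d j) w) - c₀ := (fB_holo h).2 w hw
    have h2 : (∑' j, (H j (phd p (d j) w) - c₀)) l = ∑' j, (H j (phd p (d j) w) - c₀) l := by
      have h3 := (EuclideanSpace.proj (𝕜 := ℂ) l : StrongDual ℂ (En N)).map_tsum h1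
      exact h3
    have h4 : fB c₀ p H d w l = c₀ l + (∑' j, (H j (phd p (d j) w) - c₀)) l := rfl
    rw [h4, h2]
  have e3 : IG2 (fun z => fB c₀ p H d z l) z =
      IG2 (fun z => c₀ l + ∑' j, (H j (phd p (d j) z) - c₀) l) z := by
    unfold IG2
    rw [hev.fderiv_eq]
  rw [e3]
  refine key.trans ?_
  rw [← hsd, mul_pow, Real.sq_sqrt (hsd ▸ hs), mul_comm]
  refine mul_le_mul_of_nonneg_right ?_ (hsd ▸ hs)
  refine pow_le_pow_left₀ ?_ hsum 2
  refine add_nonneg (Finset.sum_nonneg fun j _ => ?_) (by positivity)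
  linarith [h.L1 j]

end Pool.Agent.MPca0fc2.SH
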