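import Mathlib
import Pool.Agent.Lib.MP_ca0fc2_an.SH.Defs
import Pool.Agent.Lib.MP_ca0fc2_an.SH.B3
import Pool.Agent.Lib.MP_ca0fc2_an.SH.B4
import Pool.Agent.Lib.MP_ca0fc2_an.SH.B6
import Pool.Agent.Lib.MP_ca0fc2_an.SH.B7b
import Pool.Agent.Lib.MP_ca0fc2_an.SH.B7c

set_option autoImplicit false
set_option linter.unusedSectionVars false

open Metric Set MeasureTheory Filter Topology
open scoped InnerProductSpace ENNReal ContDiff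

namespace Pool.Agent.MPca0fc2.SH

open Pool.Agent.MPca0fc2.PT
open Pool.Agent.MPca0fc2.TB (En Solv Trans)

theorem blk_data {n N : ℕ} {δ₀ κ : ℝ} {c₀ : En N} {p : En n} {lam R : ℝ → ℝ}
    (hlam : AntitoneOn lam (Ioi 0)) (hlam1 : ∀ a, 0 < a → 1 ≤ lam a)
    {H : ℕ → En n → En N} {L m k d : ℕ → ℝ} (h : Blk δ₀ κ c₀ p lam R H L m k d) :
    ∃ f : En n → En N, DifferentiableOn ℂ f (ball 0 1) ∧
      (∀ z ∈ ball (0 : En n) 1, δ₀ - 2 * κ ≤ ‖f z‖ ∧ ‖f z‖ ≤ 1 + 2 * κ) ∧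
      (∀ z ∈ ball (0 : En n) 1, ∀ l, IG2 (fun z => f z l) z ≤
        lam (aa p z) ^ 2 * ((1 - ‖z‖ ^ 2) / aa p z)) ∧
      ∀ j, ∀ z ∈ ball (0 : En n) 1, d j / m j ≤ aa p z → aa p z ≤ m j * d j →
        ‖f z - H j (phd p (d j) z)‖ ≤ κ / 2 ^ j :=
  ⟨fB c₀ p H d, (fB_holo h).1, (fB_size h).1, fB_grad hlam hlam1 h, (fB_size h).2⟩

end Pool.Agent.MPca0fc2.SH
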