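import Mathlib
import Pool.Agent.Lib.MP_ca0fc2_an.SH.Defs
import Pool.Agent.Lib.MP_ca0fc2_an.CGInv

set_option autoImplicit false
set_option linter.unusedSectionVars false

open Metric Set MeasureTheory Filter Topology
open scoped InnerProductSpace ENNReal ContDiff

namespace Pool.Agent.MPca0fc2.SH

open Pool.Agent.MPca0fc2.PT
open Pool.Agent.MPca0fc2.TB (En Solv Trans)

variable {E : Type*} [NormedAddCommGroup E] [InnerProductSpace ℂ E]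

/-- The inverse automorphism on `ball 0 k`: `x₁ = ⟪p, x⟫`, `⟪p, psd x⟫ = (x₁ + r)/(1 + r x₁)`, so `1 - ⟪p, psd x⟫ = d (1 - x₁)/(1 + r x₁)`; `1 - k ≤ |1 - x₁| ≤ 2`, `1 - k ≤ |1 + r x₁| ≤ 2`.
The last: `norm_gg` for `phd p d z`, `z = psd p d x`, `phd p d z = x`, `‖x‖ < k`: `(1 - r²)(1 - ‖z‖²)/|1 - r z₁|² = 1 - ‖x‖² > 1 - k²`. -/
theorem psd_est {p : E} (hp : ‖p‖ = 1) {d k : ℝ} (hd : 0 < d) (hd1 : d < 1) (hk : 0 < k)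
    (hk1 : k < 1) {x : E} (hx : ‖x‖ < k) :
    d / (2 / (1 - k)) ≤ aa p (psd p d x) ∧ aa p (psd p d x) ≤ 2 / (1 - k) * d ∧
      ‖1 - ((1 - d : ℝ) : ℂ) * ⟪p, psd p d x⟫_ℂ‖ ^ 2 <
        1 / (1 - k ^ 2) * ((1 - (1 - d) ^ 2) * (1 - ‖psd p d x‖ ^ 2)) := by
  have hd' : (0 : ℝ) < 1 - d := by linarith
  obtain ⟨r, hr⟩ : ∃ r : ℝ, r = 1 - d := ⟨_, rfl⟩
  have hr0 : 0 < r := by rw [hr]; exact hd'
  have hr1 : r < 1 := by rw [hr]; linarith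
  have hdr : d = 1 - r := by rw [hr]; ring
  rw [← hr]
  obtain ⟨z₀, hz₀⟩ : ∃ z₀ : E, z₀ = ((r : ℝ) : ℂ) • p := ⟨_, rfl⟩
  obtain ⟨y, hy⟩ : ∃ y : E, y = psd p d x := ⟨_, rfl⟩
  have hy' : y = gg z₀ x := by rw [hy, psd, ← hr, hz₀]
  have hin : ∀ v : E, ⟪z₀, v⟫_ℂ = (r : ℂ) * ⟪p, v⟫_ℂ := by
    intro v
    rw [hz₀, inner_smul_left, Complex.conj_ofReal]
  have hz0n : ‖z₀‖ = r := by
    rw [hz₀, norm_smul, hp, mul_one, Complex.norm_real, Real.norm_of_nonneg hr0.le]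
  have hz1 : ‖z₀‖ < 1 := by rw [hz0n]; exact hr1
  have hx1 : ‖x‖ < 1 := hx.trans hk1
  rw [← hy]
  obtain ⟨x₁, hx₁⟩ : ∃ x₁ : ℂ, x₁ = ⟪p, x⟫_ℂ := ⟨_, rfl⟩
  have hx1n : ‖x₁‖ ≤ ‖x‖ := by
    rw [hx₁]
    have := norm_inner_le_norm (𝕜 := ℂ) p x
    rwa [hp, one_mul] at this
  have hne : 1 + ⟪z₀, x⟫_ℂ ≠ 0 := one_add_ne hz1 hx1.le
  have h1 := inner_gg_self hz1 hx1.le
  have h2 := norm_gg hz1 hx1.le
  rw [← hy'] at h1 h2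
  rw [hin, hz0n, hin, ← hx₁] at h1
  rw [hz0n, hin, ← hx₁] at h2
  rw [hin, ← hx₁] at hne
  obtain ⟨w, hw⟩ : ∃ w : ℂ, w = ⟪p, y⟫_ℂ := ⟨_, rfl⟩
  rw [← hw] at h1 ⊢
  have hrC : (r : ℂ) ≠ 0 := by exact_mod_cast hr0.ne'
  have h3 : 1 - w = (d : ℂ) * (1 - x₁) / (1 + (r : ℂ) * x₁) := by
    rw [eq_div_iff hne]
    rw [eq_div_iff hne] at h1
    apply mul_left_cancel₀ hrC
    rw [hdr]
    push_cast at h1 ⊢
    linear_combination h1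
  have q0 : 0 < ‖1 + (r : ℂ) * x₁‖ := norm_pos_iff.mpr hne
  have hrx : ‖(r : ℂ) * x₁‖ ≤ ‖x‖ := by
    rw [norm_mul, Complex.norm_real, Real.norm_of_nonneg hr0.le]
    nlinarith [norm_nonneg x₁]
  have q1 : 1 - k ≤ ‖1 + (r : ℂ) * x₁‖ := by
    have := norm_sub_norm_le (1 : ℂ) (-((r : ℂ) * x₁))
    rw [norm_one, norm_neg, sub_neg_eq_add] at this
    linarith
  have q2 : ‖1 + (r : ℂ) * x₁‖ ≤ 2 := by
    have := norm_add_le (1 : ℂ) ((r : ℂ) * x₁)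
    rw [norm_one] at this
    linarith
  have s1 : 1 - k ≤ ‖1 - x₁‖ := by
    have := norm_sub_norm_le (1 : ℂ) x₁
    rw [norm_one] at this
    linarith
  have s2 : ‖1 - x₁‖ ≤ 2 := by
    have := norm_sub_le (1 : ℂ) x₁
    rw [norm_one] at this
    linarith
  have h1k : 0 < 1 - k := by linarith
  have haa : aa p y = d * ‖1 - x₁‖ / ‖1 + (r : ℂ) * x₁‖ := by
    rw [aa, ← hw, h3, norm_div, norm_mul, Complex.norm_real, Real.norm_of_nonneg hd.le]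
  refine ⟨?_, ?_, ?_⟩
  · rw [haa, div_div_eq_mul_div, div_le_div_iff₀ (by norm_num) q0, mul_assoc, mul_assoc]
    apply mul_le_mul_of_nonneg_left _ hd.le
    exact mul_le_mul s1 q2 q0.le (norm_nonneg _)
  · rw [haa, div_mul_eq_mul_div, div_le_div_iff₀ q0 h1k]
    calc d * ‖1 - x₁‖ * (1 - k) ≤ d * 2 * ‖1 + (r : ℂ) * x₁‖ :=
          mul_le_mul (mul_le_mul_of_nonneg_left s2 hd.le) q1 h1k.le (by positivity)
      _ = 2 * d * ‖1 + (r : ℂ) * x₁‖ := by ring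
  · have hr2 : 0 < 1 - r ^ 2 := by nlinarith
    have hk2 : 0 < 1 - k ^ 2 := by nlinarith
    have hxk : 1 - k ^ 2 < 1 - ‖x‖ ^ 2 := by nlinarith [norm_nonneg x]
    rw [h1, h2, norm_div, Complex.norm_real, Real.norm_of_nonneg hr2.le, div_pow]
    have e : 1 / (1 - k ^ 2) * ((1 - r ^ 2) * ((1 - r ^ 2) * (1 - ‖x‖ ^ 2) /
        ‖1 + (r : ℂ) * x₁‖ ^ 2)) =
        (1 - r ^ 2) ^ 2 / ‖1 + (r : ℂ) * x₁‖ ^ 2 * ((1 - ‖x‖ ^ 2) / (1 - k ^ 2)) := by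
      field_simp
    rw [e]
    have h5 : 1 < (1 - ‖x‖ ^ 2) / (1 - k ^ 2) := by rwa [one_lt_div hk2]
    have h6 : 0 < (1 - r ^ 2) ^ 2 / ‖1 + (r : ℂ) * x₁‖ ^ 2 := by positivity
    nlinarith

end Pool.Agent.MPca0fc2.SH
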