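import Mathlib
import Pool.Agent.Lib.MP_ca0fc2_an.SH.Defs
import Pool.Agent.Lib.MP_ca0fc2_an.SH.B6
import Pool.Agent.Lib.MP_ca0fc2_an.SH.B2c

set_option autoImplicit false
set_option linter.unusedSectionVars false

open Metric Set MeasureTheory Filter Topology
open scoped InnerProductSpace ENNReal ContDiff

namespace Pool.Agent.MPca0fc2.SH

open Pool.Agent.MPca0fc2.PT
open Pool.Agent.MPca0fc2.TB (En Solv Trans)

private lemma B8_cs {N : ℕ} (a b : En N) : ‖∑ j, a j * b j‖ ≤ ‖a‖ * ‖b‖ := by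
  refine (norm_sum_le _ _).trans ?_
  have h1 : ∑ j, ‖a j * b j‖ = ∑ j, ‖a j‖ * ‖b j‖ := Finset.sum_congr rfl fun j _ => norm_mul _ _
  rw [h1, EuclideanSpace.norm_eq, EuclideanSpace.norm_eq]
  exact Real.sum_mul_le_sqrt_mul_sqrt _ _ _

/-- No bounded solution in the tube. Suppose `g` solves on `Tub R p`, `‖g‖ ≤ A`. Take `j` with `2 A ≤ j`, `κ/2^j * A ≤ 1/2`. For `x ∈ ball 0 (k j)`, `z = psd p (d j) x` is in `Tub R p` (`psd_est` with `t = 1 - d j` and `RR`) and in the window (`psd_est`, `mk2`), `phd z = x`, so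
`F x = f (psd x)` satisfies `‖F x - H j x‖ ≤ κ/2^j`; `u x = ∑ l, H j x l * g (psd x) l`, `‖1 - u‖ ≤ κ/2^j * A ≤ 1/2` (Cauchy-Schwarz), and `u⁻¹ • g ∘ psd` is a solution for `H j` on `ball 0 (k j)` with bound `2 A ≤ j`: contradiction to `ns` (pattern: the end of the
proof of `step_loc_k`, EQ/GR1.lean). -/
theorem blk_ns {n N : ℕ} {δ₀ κ : ℝ} {c₀ : En N} {p : En n} {lam R : ℝ → ℝ}
    {H : ℕ → En n → En N} {L m k d : ℕ → ℝ} (h : Blk δ₀ κ c₀ p lam R H L m k d)
    {f : En n → En N}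
    (hf : ∀ j, ∀ z ∈ ball (0 : En n) 1, d j / m j ≤ aa p z → aa p z ≤ m j * d j →
      ‖f z - H j (phd p (d j) z)‖ ≤ κ / 2 ^ j) (A : ℝ) : ¬ Solv f (Tub R p) A := by
  rintro ⟨g, hg1, hg2, hg3⟩
  -- choice of j
  have hlim : Tendsto (fun j : ℕ => κ / 2 ^ j * A) atTop (𝓝 0) := by
    have h1 : Tendsto (fun j : ℕ => (κ * A) * (1 / 2 : ℝ) ^ j) atTop (𝓝 ((κ * A) * 0)) :=
      (tendsto_pow_atTop_nhds_zero_of_lt_one (by norm_num) (by norm_num)).const_mul _
    rw [mul_zero] at h1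
    refine h1.congr fun j => ?_
    rw [one_div, inv_pow]
    field_simp
  have hev1 : ∀ᶠ j : ℕ in atTop, κ / 2 ^ j * A < 1 / 2 :=
    hlim.eventually (gt_mem_nhds (by norm_num))
  have hev2 : ∀ᶠ j : ℕ in atTop, 2 * A ≤ (j : ℝ) :=
    tendsto_natCast_atTop_atTop.eventually_ge_atTop (2 * A)
  obtain ⟨j, hj1, hj2⟩ := (hev1.and hev2).exists
  obtain ⟨hd0, hd1⟩ := h.d0 j
  obtain ⟨hk0, hk1⟩ := h.kk j
  have haut := phd_aut h.p1 hd0 hd1
  have hκ0 : 0 ≤ κ / 2 ^ j := (div_pos h.κ0 (by positivity)).le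
  have hsub : ∀ x ∈ ball (0 : En n) (k j), x ∈ ball (0 : En n) 1 := fun x hx => by
    rw [mem_ball_zero_iff] at hx ⊢
    exact hx.trans hk1
  have htub : ∀ x ∈ ball (0 : En n) (k j), psd p (d j) x ∈ Tub R p := by
    intro x hx
    have hx' := hx
    rw [mem_ball_zero_iff] at hx'
    obtain ⟨-, -, h3⟩ := psd_est h.p1 hd0 hd1 hk0 hk1 hx'
    have h4 := haut.map' x (hsub x hx)
    rw [mem_ball_zero_iff] at h4
    refine ⟨h4, 1 - d j, by linarith, by linarith, h3.trans_le ?_⟩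
    have h5 : 0 ≤ (1 - (1 - d j) ^ 2) * (1 - ‖psd p (d j) x‖ ^ 2) := by
      apply mul_nonneg
      · nlinarith
      · nlinarith [norm_nonneg (psd p (d j) x)]
    exact mul_le_mul_of_nonneg_right (h.RR j).le h5
  have hclose : ∀ x ∈ ball (0 : En n) (k j), ‖f (psd p (d j) x) - H j x‖ ≤ κ / 2 ^ j := by
    intro x hx
    have hx' := hx
    rw [mem_ball_zero_iff] at hx'
    obtain ⟨h1, h2, -⟩ := psd_est h.p1 hd0 hd1 hk0 hk1 hx'
    have h4 := haut.map' x (hsub x hx)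
    have hkp : 0 < 2 / (1 - k j) := by
      apply div_pos (by norm_num)
      linarith
    have h5 := hf j (psd p (d j) x) h4
      (le_trans (div_le_div_of_nonneg_left hd0.le hkp (h.mk2 j)) h1)
      (h2.trans (mul_le_mul_of_nonneg_right (h.mk2 j) hd0.le))
    rwa [haut.right x (hsub x hx)] at h5
  set u : En n → ℂ := fun x => ∑ l, H j x l * g (psd p (d j) x) l with hu
  have hu1 : ∀ x ∈ ball (0 : En n) (k j), ‖1 - u x‖ ≤ 1 / 2 := by
    intro x hx
    have h4 := hg3 _ (htub x hx)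
    have h5 : 1 - u x = ∑ l, (f (psd p (d j) x) - H j x) l * g (psd p (d j) x) l := by
      rw [hu, ← h4, ← Finset.sum_sub_distrib]
      refine Finset.sum_congr rfl fun l _ => ?_
      simp only [PiLp.sub_apply]
      ring
    rw [h5]
    refine (B8_cs _ _).trans ?_
    refine (mul_le_mul (hclose x hx) (hg2 _ (htub x hx)) (norm_nonneg _) hκ0).trans hj1.le
  have hu2 : ∀ x ∈ ball (0 : En n) (k j), 1 / 2 ≤ ‖u x‖ := by
    intro x hx
    have h1 := hu1 x hx
    have h2 : (1 : ℝ) ≤ ‖1 - u x‖ + ‖u x‖ := by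
      calc (1 : ℝ) = ‖(1 - u x) + u x‖ := by simp
        _ ≤ ‖1 - u x‖ + ‖u x‖ := norm_add_le _ _
    linarith
  have hu3 : ∀ x ∈ ball (0 : En n) (k j), u x ≠ 0 := by
    intro x hx h0
    have := hu2 x hx
    rw [h0, norm_zero] at this
    linarith
  have hHd : DifferentiableOn ℂ (H j) (ball 0 (k j)) := (h.hol j).mono fun x hx => hsub x hx
  have hgd : DifferentiableOn ℂ (fun x : En n => g (psd p (d j) x)) (ball 0 (k j)) :=
    hg1.comp (haut.hol'.mono fun x hx => hsub x hx) htub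
  have hcoord : ∀ {G : En n → En N} {E : Set (En n)}, DifferentiableOn ℂ G E → ∀ l : Fin N,
      DifferentiableOn ℂ (fun x => G x l) E := by
    intro G E hG l
    exact ((EuclideanSpace.proj l : En N →L[ℂ] ℂ).differentiable.comp_differentiableOn hG)
  have hud : DifferentiableOn ℂ u (ball 0 (k j)) := by
    apply DifferentiableOn.fun_sum
    intro l _
    exact (hcoord hHd l).mul (hcoord hgd l)
  refine h.ns j ⟨fun x => (u x)⁻¹ • g (psd p (d j) x), ?_, ?_, ?_⟩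
  · exact (hud.inv hu3).smul hgd
  · intro x hx
    rw [norm_smul, norm_inv]
    have h1 := hu2 x hx
    have h2 : ‖u x‖⁻¹ ≤ 2 := by
      rw [inv_le_comm₀ (by linarith) (by norm_num)]
      linarith
    calc ‖u x‖⁻¹ * ‖g (psd p (d j) x)‖ ≤ 2 * A :=
          mul_le_mul h2 (hg2 _ (htub x hx)) (norm_nonneg _) (by norm_num)
      _ ≤ j := hj2
  · intro x hx
    have h1 : ∀ l, H j x l * ((u x)⁻¹ • g (psd p (d j) x)) l =
        (u x)⁻¹ * (H j x l * g (psd p (d j) x) l) := by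
      intro l
      simp only [PiLp.smul_apply, smul_eq_mul]
      ring
    rw [Finset.sum_congr rfl fun l _ => h1 l, ← Finset.mul_sum]
    exact inv_mul_cancel₀ (hu3 x hx)

end Pool.Agent.MPca0fc2.SH
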