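import Mathlib
import Pool.Agent.Lib.MP_ca0fc2_an.SH.Defs
import Pool.Agent.Lib.MP_ca0fc2_an.SH.H1
import Pool.Agent.Lib.MP_ca0fc2_an.PV.A2
import Pool.Agent.Lib.MP_ca0fc2_an.TE.G5

set_option autoImplicit false
set_option linter.unusedSectionVars false

open Metric Set MeasureTheory Filter Topology
open scoped InnerProductSpace ENNReal ContDiff

namespace Pool.Agent.MPca0fc2.SH

open Pool.Agent.MPca0fc2.PT
open Pool.Agent.MPca0fc2.TB (En Solv Trans)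

open Pool.Agent.MPca0fc2.TS
open Pool.Agent.MPca0fc2.TE

variable {E : Type*} [NormedAddCommGroup E] [InnerProductSpace ℂ E]
variable [FiniteDimensional ℂ E] [MeasurableSpace E] [BorelSpace E]

private lemma H2_min {t s : ℝ} (ht : 0 ≤ t) (h1 : s ≤ 1) (h2 : s ≤ t) :
    s ≤ t ^ (1 / 8 : ℝ) := by
  rcases le_total t 1 with h | h
  · rcases eq_or_lt_of_le ht with h0 | h0
    · rw [← h0] at h2 ⊢
      rw [Real.zero_rpow (by norm_num)]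
      exact h2
    · calc s ≤ t := h2
        _ = t ^ (1 : ℝ) := (Real.rpow_one t).symm
        _ ≤ t ^ (1 / 8 : ℝ) := Real.rpow_le_rpow_of_exponent_ge h0 h (by norm_num)
  · exact h1.trans (Real.one_le_rpow h (by norm_num))

private lemma H2_geo {x y : E} (hx : ‖x‖ < 1) (hy : ‖y‖ < 1) :
    0 < ‖1 - ⟪x, y⟫_ℂ‖ ∧ 1 - ‖x‖ ^ 2 ≤ 2 * ‖1 - ⟪x, y⟫_ℂ‖ := by
  have h1 : ‖⟪x, y⟫_ℂ‖ ≤ ‖x‖ * ‖y‖ := norm_inner_le_norm x y
  have h2 : (1 : ℝ) - ‖⟪x, y⟫_ℂ‖ ≤ ‖1 - ⟪x, y⟫_ℂ‖ := by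
    have h3 := norm_sub_norm_le (1 : ℂ) ⟪x, y⟫_ℂ
    rw [norm_one] at h3
    exact h3
  have hx0 := norm_nonneg x
  have hy0 := norm_nonneg y
  have h4 : ‖x‖ * ‖y‖ ≤ ‖x‖ := by nlinarith
  constructor
  · linarith
  · nlinarith

private lemma H2_pt {N : ℕ} {f : Fin N → E → ℂ}
    (hf : ∀ j, DifferentiableOn ℂ (f j) (ball 0 1))
    (hb : ∀ j, ∀ z ∈ ball (0 : E) 1, ‖f j z‖ ≤ 1) {p : E} (hp : ‖p‖ = 1) {lam : ℝ → ℝ}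
    (hl : AntitoneOn lam (Ioi 0)) (hl1 : ∀ a, 0 < a → 1 ≤ lam a)
    (hc : ∀ z ∈ ball (0 : E) 1, ∀ j,
        IG2 (f j) z ≤ lam (aa p z) ^ 2 * ((1 - ‖z‖ ^ 2) / aa p z))
    {x y : E} (hx : ‖x‖ < 1) (hy : ‖y‖ < 1) (hax : 0 < aa p x) (hay : 0 < aa p y) (j : Fin N) :
    IG2 (f j) x ≤
      (16 * (lam (aa p y / 8) ^ 2 * ‖1 - ⟪x, y⟫_ℂ‖ / aa p y)) ^ (1 / 8 : ℝ) := by
  obtain ⟨hA, hxA⟩ := H2_geo hx hy
  have hL := hl1 (aa p y / 8) (by linarith)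
  set A := ‖1 - ⟪x, y⟫_ℂ‖ with hAdef
  set L := lam (aa p y / 8) with hLdef
  have h1 : IG2 (f j) x ≤ 1 := IG2_le (hf j) (hb j) hx
  have hq : 0 ≤ 16 * (L ^ 2 * A / aa p y) := by positivity
  rcases le_or_gt (aa p y / 8) (aa p x) with h | h
  · apply H2_min hq h1
    have h2 : lam (aa p x) ≤ L := hl (mem_Ioi.2 (by linarith)) (mem_Ioi.2 hax) h
    have h3 : 1 ≤ lam (aa p x) := hl1 _ hax
    have h4 := hc x (mem_ball_zero_iff.2 hx) j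
    have h5 : 0 ≤ 1 - ‖x‖ ^ 2 := by nlinarith [norm_nonneg x]
    calc IG2 (f j) x ≤ lam (aa p x) ^ 2 * ((1 - ‖x‖ ^ 2) / aa p x) := h4
      _ ≤ L ^ 2 * ((2 * A) / (aa p y / 8)) := by
          apply mul_le_mul (pow_le_pow_left₀ (by linarith) h2 2) _ (by positivity) (by positivity)
          exact div_le_div₀ (by positivity) hxA (by linarith) h
      _ = 16 * (L ^ 2 * A / aa p y) := by field_simp; ring
  · have h2 := tri hx.le hy.le hp.le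
    have h3 : aa p y ≤ 4 * A + 2 * aa p x := h2
    have h4 : 3 * aa p y ≤ 16 * A := by linarith
    have h5 : 1 ≤ 16 * (L ^ 2 * A / aa p y) := by
      have h6 : 16 * (L ^ 2 * A / aa p y) = L ^ 2 * (16 * A) / aa p y := by ring
      rw [h6, le_div_iff₀ hay]
      have h7 : 1 ≤ L ^ 2 := by nlinarith
      nlinarith
    exact h1.trans (Real.one_le_rpow h5 (by norm_num))

/-- Decay of the weight at `y`, `M = m + 2`. Write `a_x = aa p x`, `D x = ∑ j, IG2 (f j) x`, `Λ = lam (aa p y / 8) ≥ 1`.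
(1) `D x ≤ C (Λ² ‖1 - ⟪x, y⟫‖ / a_y)^(1/8)` for all `x` in the ball: always `D x ≤ N` (`IG2_le`, TS/Gr.lean). If `a_x ≥ a_y / 8`: `lam a_x ≤ Λ` (antitone), so `IG2 (f j) x ≤ Λ² (1 - ‖x‖²) 8 / a_y ≤ 16 Λ² ‖1 - ⟪x, y⟫‖/a_y =: q`
(`1 - ‖x‖² ≤ 2 ‖1 - ⟪x, y⟫‖`) and `min 1 q ≤ q^(1/8)`. If `a_x < a_y / 8`: `tri` gives `a_y ≤ 4 ‖1 - ⟪x, y⟫‖ + a_y/4`, so `‖1 - ⟪x, y⟫‖ / a_y ≥ 3/16`, and `Λ ≥ 1`.
(2) `Om ν (m+2) y = (1 - ‖y‖²)^(1/4) ∫ (1 - ‖x‖²)^(m+2) D x / (1 - ‖x‖²)^(m+2) ‖1 - ⟪x, y⟫‖^(-(m+2) - 1/4) dx` (pattern: `Om_le`, TE/G5.lean, and `PP_gen` in XC/SE.lean), insert (1), and `pv_ker`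
(PV/A2.lean) with `c = 1/8`: `≤ C (Λ²/a_y)^(1/8) (1 - ‖y‖²)^(1/4 - 1/8)`. -/
theorem Om_cls (μ : Measure E) [μ.IsAddHaarMeasure] {m : ℕ} (hm : 1 ≤ m)
    (hdim : Module.finrank ℂ E = m + 1) (N : ℕ) : ∃ C : ℝ, 0 < C ∧ ∀ f : Fin N → E → ℂ,
      (∀ j, DifferentiableOn ℂ (f j) (ball 0 1)) →
      (∀ j, ∀ z ∈ ball (0 : E) 1, ‖f j z‖ ≤ 1) → ∀ p : E, ‖p‖ = 1 → ∀ lam : ℝ → ℝ,
      AntitoneOn lam (Ioi 0) → (∀ a, 0 < a → 1 ≤ lam a) →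
      (∀ z ∈ ball (0 : E) 1, ∀ j,
        IG2 (f j) z ≤ lam (aa p z) ^ 2 * ((1 - ‖z‖ ^ 2) / aa p z)) →
      ∀ y ∈ ball (0 : E) 1, Om (nuE μ m (m + 2) f) (m + 2) y ≤
        C * (lam (aa p y / 8) ^ 2 * ((1 - ‖y‖ ^ 2) / aa p y)) ^ (1 / 8 : ℝ) := by
  obtain ⟨C, hC, hK⟩ := PV.pv_ker (E := E) μ hm hdim (c := 1 / 8) (by norm_num) (by norm_num)
  refine ⟨N * 16 ^ (1 / 8 : ℝ) * C + 1, by positivity, ?_⟩
  intro f hf hb p hp lam hl hl1 hc y hy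
  have hy1 := mem_ball_zero_iff.mp hy
  have ha : 0 < 1 - ‖y‖ ^ 2 := by nlinarith [norm_nonneg y]
  have haa : ∀ x : E, ‖x‖ < 1 → 0 < aa p x := by
    intro x hx
    have h1 : ‖⟪p, x⟫_ℂ‖ ≤ ‖p‖ * ‖x‖ := norm_inner_le_norm p x
    have h2 : (1 : ℝ) - ‖⟪p, x⟫_ℂ‖ ≤ ‖1 - ⟪p, x⟫_ℂ‖ := by
      have h3 := norm_sub_norm_le (1 : ℂ) ⟪p, x⟫_ℂ
      rw [norm_one] at h3
      exact h3
    rw [hp, one_mul] at h1
    unfold aa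
    linarith
  have hay := haa y hy1
  have hL := hl1 (aa p y / 8) (by linarith)
  set L := lam (aa p y / 8) with hLdef
  have hL0 : 0 < L := by linarith
  set G : ℝ := (16 * (L ^ 2 / aa p y)) ^ (1 / 8 : ℝ) with hG
  have hG0 : 0 ≤ G := Real.rpow_nonneg (by positivity) _
  have hcF : Continuous fun x : E => ‖1 - ⟪x, y⟫_ℂ‖ := by fun_prop
  have hmF : Measurable fun x : E => ‖1 - ⟪x, y⟫_ℂ‖ ^ (-(((m + 2 : ℕ) : ℝ) + 1 / 4)) :=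
    hcF.measurable.pow_const _
  have hmS : Measurable fun x : E => ∑ j, IG2 (f j) x :=
    Finset.measurable_fun_sum _ fun j _ => gd_IG_meas (f j)
  have hmn : Measurable fun x : E => 1 - ‖x‖ ^ 2 := by fun_prop
  have hmD : Measurable fun x : E => ENNReal.ofReal
      ((1 - ‖x‖ ^ 2) ^ (m + 2) * (∑ j, IG2 (f j) x) / (1 - ‖x‖ ^ 2) ^ (m + 2)) :=
    (((hmn.pow_const (m + 2)).mul hmS).div (hmn.pow_const (m + 2))).ennreal_ofReal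
  have hPP : PP (nuE μ m (m + 2) f) (((m + 2 : ℕ) : ℝ) + 1 / 4) y ≤
      N * G * (C * (1 - ‖y‖ ^ 2) ^ (-(1 / 8 : ℝ))) := by
    unfold PP
    rw [integral_eq_lintegral_of_nonneg_ae
      (Eventually.of_forall fun x => Real.rpow_nonneg (norm_nonneg _) _) hmF.aestronglyMeasurable]
    have hB0 : 0 ≤ N * G * (C * (1 - ‖y‖ ^ 2) ^ (-(1 / 8 : ℝ))) := by
      have : 0 ≤ (1 - ‖y‖ ^ 2) ^ (-(1 / 8 : ℝ)) := Real.rpow_nonneg ha.le _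
      positivity
    apply ENNReal.toReal_le_of_le_ofReal hB0
    unfold nuE
    rw [lintegral_withDensity_eq_lintegral_mul _ hmD hmF.ennreal_ofReal]
    calc _ ≤ ∫⁻ x in ball (0 : E) 1, ENNReal.ofReal (N * G) *
          ENNReal.ofReal (‖1 - ⟪x, y⟫_ℂ‖ ^ (-((m : ℝ) + 2 + 1 / 8))) ∂μ := by
          refine setLIntegral_mono' measurableSet_ball fun x hx => ?_
          rw [mem_ball_zero_iff] at hx
          have h0 : 0 < 1 - ‖x‖ ^ 2 := by nlinarith [norm_nonneg x]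
          obtain ⟨hD, heD⟩ := H2_geo hx hy1
          have hs : ∑ j, IG2 (f j) x ≤ N * (G * ‖1 - ⟪x, y⟫_ℂ‖ ^ (1 / 8 : ℝ)) := by
            calc ∑ j, IG2 (f j) x ≤ ∑ _j : Fin N,
                  (16 * (L ^ 2 * ‖1 - ⟪x, y⟫_ℂ‖ / aa p y)) ^ (1 / 8 : ℝ) :=
                  Finset.sum_le_sum fun j _ => H2_pt hf hb hp hl hl1 hc hx hy1 (haa x hx) hay j
              _ = N * (16 * (L ^ 2 * ‖1 - ⟪x, y⟫_ℂ‖ / aa p y)) ^ (1 / 8 : ℝ) := by simp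
              _ = N * (G * ‖1 - ⟪x, y⟫_ℂ‖ ^ (1 / 8 : ℝ)) := by
                  congr 1
                  rw [hG, ← Real.mul_rpow (by positivity) hD.le]
                  congr 1
                  ring
          have hs0 : 0 ≤ ∑ j, IG2 (f j) x := Finset.sum_nonneg fun j _ => gd_IG_nonneg hx
          simp only [Pi.mul_apply]
          rw [← ENNReal.ofReal_mul (by positivity), ← ENNReal.ofReal_mul (by positivity)]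
          apply ENNReal.ofReal_le_ofReal
          have e1 : (1 - ‖x‖ ^ 2) ^ (m + 2) * (∑ j, IG2 (f j) x) / (1 - ‖x‖ ^ 2) ^ (m + 2) =
              ∑ j, IG2 (f j) x := by
            field_simp
          have e2 : ‖1 - ⟪x, y⟫_ℂ‖ ^ (-((m : ℝ) + 2 + 1 / 8)) =
              ‖1 - ⟪x, y⟫_ℂ‖ ^ (1 / 8 : ℝ) *
                ‖1 - ⟪x, y⟫_ℂ‖ ^ (-(((m + 2 : ℕ) : ℝ) + 1 / 4)) := by
            rw [← Real.rpow_add hD]
            congr 1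
            push_cast
            ring
          rw [e1, e2]
          calc (∑ j, IG2 (f j) x) * ‖1 - ⟪x, y⟫_ℂ‖ ^ (-(((m + 2 : ℕ) : ℝ) + 1 / 4))
              ≤ (N * (G * ‖1 - ⟪x, y⟫_ℂ‖ ^ (1 / 8 : ℝ))) *
                ‖1 - ⟪x, y⟫_ℂ‖ ^ (-(((m + 2 : ℕ) : ℝ) + 1 / 4)) :=
                mul_le_mul_of_nonneg_right hs (Real.rpow_nonneg hD.le _)
            _ = _ := by ring
      _ = ENNReal.ofReal (N * G) *
          ∫⁻ x in ball (0 : E) 1, ENNReal.ofReal (‖1 - ⟪x, y⟫_ℂ‖ ^ (-((m : ℝ) + 2 + 1 / 8))) ∂μ := by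
          rw [lintegral_const_mul _ (hcF.measurable.pow_const _).ennreal_ofReal]
      _ ≤ ENNReal.ofReal (N * G) *
          ENNReal.ofReal (C * (1 - ‖y‖ ^ 2) ^ (-(1 / 8 : ℝ))) := mul_le_mul_right (hK y hy) _
      _ = _ := by rw [← ENNReal.ofReal_mul (by positivity)]
  unfold Om
  have h1 : (1 - ‖y‖ ^ 2) ^ (1 / 4 : ℝ) * (1 - ‖y‖ ^ 2) ^ (-(1 / 8 : ℝ)) =
      (1 - ‖y‖ ^ 2) ^ (1 / 8 : ℝ) := by
    rw [← Real.rpow_add ha]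
    norm_num
  have h2 : (L ^ 2 * ((1 - ‖y‖ ^ 2) / aa p y)) ^ (1 / 8 : ℝ) * 16 ^ (1 / 8 : ℝ) =
      G * (1 - ‖y‖ ^ 2) ^ (1 / 8 : ℝ) := by
    rw [hG, ← Real.mul_rpow (by positivity) (by norm_num), ← Real.mul_rpow (by positivity) ha.le]
    congr 1
    ring
  have h3 : 0 ≤ (L ^ 2 * ((1 - ‖y‖ ^ 2) / aa p y)) ^ (1 / 8 : ℝ) :=
    Real.rpow_nonneg (by positivity) _
  calc (1 - ‖y‖ ^ 2) ^ (1 / 4 : ℝ) * PP (nuE μ m (m + 2) f) (((m + 2 : ℕ) : ℝ) + 1 / 4) y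
      ≤ (1 - ‖y‖ ^ 2) ^ (1 / 4 : ℝ) * (N * G * (C * (1 - ‖y‖ ^ 2) ^ (-(1 / 8 : ℝ)))) :=
        mul_le_mul_of_nonneg_left hPP (Real.rpow_nonneg ha.le _)
    _ = N * C * (G * ((1 - ‖y‖ ^ 2) ^ (1 / 4 : ℝ) * (1 - ‖y‖ ^ 2) ^ (-(1 / 8 : ℝ)))) := by ring
    _ = N * C * ((L ^ 2 * ((1 - ‖y‖ ^ 2) / aa p y)) ^ (1 / 8 : ℝ) * 16 ^ (1 / 8 : ℝ)) := by
        rw [h1, h2]
    _ = N * 16 ^ (1 / 8 : ℝ) * C * (L ^ 2 * ((1 - ‖y‖ ^ 2) / aa p y)) ^ (1 / 8 : ℝ) := by ring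
    _ ≤ _ := by nlinarith

end Pool.Agent.MPca0fc2.SH
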