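import Mathlib
import Pool.Agent.Lib.MP_ca0fc2_an.SH.Defs


set_option autoImplicit false
set_option linter.unusedSectionVars false

open Metric Set MeasureTheory Filter Topology
open scoped InnerProductSpace ENNReal ContDiff

namespace Pool.Agent.MPca0fc2.SH

open Pool.Agent.MPca0fc2.PT
open Pool.Agent.MPca0fc2.TB (En Solv Trans)

/-- One variable. Let `w = 1 - t ρ`, `w ≤ 1 - t² ρ² ≤ 2 w`, `κ = 2 Λ²`: `Φ ≤ min 1 ((κ w)^(1/8)) ≤ 2 (κ w)^(1/8) / (1 + (κ w)^(1/8))`, so the integrand is at most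
`2 ρ (κ w)^(1/8) / (w (1 + (κ w)^(1/8)))`, the derivative of `t ↦ -16 log (1 + (κ (1 - t ρ))^(1/8))` (fundamental theorem, pattern: `one_var` in TE/V0.lean, `GI_log` in TE/G6.lean). The
integral is at most `16 log (1 + κ^(1/8)) ≤ 16 log (2 κ^(1/8)) = 18 log 2 + 4 log Λ`. -/
theorem one_var : ∃ C : ℝ, 0 < C ∧ ∀ Λ ρ : ℝ, 1 ≤ Λ → 0 ≤ ρ → ρ < 1 → ∀ Φ : ℝ → ℝ,
    ContinuousOn Φ (Icc 0 1) → (∀ t ∈ Icc (0 : ℝ) 1, Φ t ≤ 1) →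
    (∀ t ∈ Icc (0 : ℝ) 1, Φ t ≤ (Λ ^ 2 * (1 - t ^ 2 * ρ ^ 2)) ^ (1 / 8 : ℝ)) →
    ∫ t in Icc (0 : ℝ) 1, Φ t * (ρ / (1 - t ^ 2 * ρ ^ 2)) ≤ C * (1 + Real.log Λ) := by
  refine ⟨18, by norm_num, ?_⟩
  intro Λ ρ hΛ hρ0 hρ1 Φ hΦc hΦ1 hΦ2
  have hw : ∀ t ∈ Icc (0 : ℝ) 1, 0 < 1 - t * ρ := by
    intro t ht
    nlinarith [ht.1, ht.2, mul_le_mul ht.2 hρ1.le hρ0 (by norm_num : (0:ℝ) ≤ 1), mul_le_of_le_one_left hρ0 ht.2]
  have hκ : 0 < 2 * Λ ^ 2 := by positivity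
  -- the derivative
  have hder : ∀ t ∈ Icc (0 : ℝ) 1,
      HasDerivAt (fun t => -16 * Real.log (1 + (2 * Λ ^ 2 * (1 - t * ρ)) ^ (1 / 8 : ℝ)))
        (2 * ρ * (2 * Λ ^ 2 * (1 - t * ρ)) ^ (1 / 8 : ℝ) /
          ((1 - t * ρ) * (1 + (2 * Λ ^ 2 * (1 - t * ρ)) ^ (1 / 8 : ℝ)))) t := by
    intro t ht
    have hwt := hw t ht
    have hpos : 0 < 2 * Λ ^ 2 * (1 - t * ρ) := mul_pos hκ hwt
    have h1 : HasDerivAt (fun t : ℝ => 2 * Λ ^ 2 * (1 - t * ρ)) (2 * Λ ^ 2 * (-ρ)) t := by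
      have h := (((hasDerivAt_id t).mul_const ρ).const_sub 1).const_mul (2 * Λ ^ 2)
      simpa using h
    have h2 := h1.rpow_const (p := (1 / 8 : ℝ)) (Or.inl hpos.ne')
    have hs : 0 < (2 * Λ ^ 2 * (1 - t * ρ)) ^ (1 / 8 : ℝ) := Real.rpow_pos_of_pos hpos _
    have h3 := ((h2.const_add 1).log (by positivity)).const_mul (-16)
    refine h3.congr_deriv ?_
    have h4 : (2 * Λ ^ 2 * (1 - t * ρ)) ^ ((1 / 8 : ℝ) - 1) =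
        (2 * Λ ^ 2 * (1 - t * ρ)) ^ (1 / 8 : ℝ) / (2 * Λ ^ 2 * (1 - t * ρ)) := by
      rw [Real.rpow_sub_one hpos.ne']
    rw [h4]
    field_simp
    ring
  have hsc : ContinuousOn (fun t : ℝ => (2 * Λ ^ 2 * (1 - t * ρ)) ^ (1 / 8 : ℝ)) (Icc 0 1) := by
    refine ContinuousOn.rpow_const (by fun_prop) ?_
    intro t ht
    exact Or.inl (mul_pos hκ (hw t ht)).ne'
  have hRc : ContinuousOn (fun t : ℝ => 2 * ρ * (2 * Λ ^ 2 * (1 - t * ρ)) ^ (1 / 8 : ℝ) /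
          ((1 - t * ρ) * (1 + (2 * Λ ^ 2 * (1 - t * ρ)) ^ (1 / 8 : ℝ)))) (Icc 0 1) := by
    refine (continuousOn_const.mul hsc).div ((by fun_prop : ContinuousOn (fun t : ℝ => 1 - t * ρ) (Icc 0 1)).mul
      (continuousOn_const.add hsc)) ?_
    intro t ht
    have h1 := hw t ht
    have h2 : 0 < (2 * Λ ^ 2 * (1 - t * ρ)) ^ (1 / 8 : ℝ) := Real.rpow_pos_of_pos (mul_pos hκ h1) _
    positivity
  have hden : ∀ t ∈ Icc (0 : ℝ) 1, 0 < 1 - t ^ 2 * ρ ^ 2 := by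
    intro t ht
    have h1 := hw t ht
    have h2 : 0 ≤ t * ρ := mul_nonneg ht.1 hρ0
    nlinarith
  have hLc : ContinuousOn (fun t : ℝ => Φ t * (ρ / (1 - t ^ 2 * ρ ^ 2))) (Icc 0 1) := by
    refine hΦc.mul (continuousOn_const.div (by fun_prop) ?_)
    intro t ht
    exact (hden t ht).ne'
  have hu : uIcc (0 : ℝ) 1 = Icc 0 1 := uIcc_of_le (by norm_num)
  have hLi : IntervalIntegrable (fun t : ℝ => Φ t * (ρ / (1 - t ^ 2 * ρ ^ 2))) volume 0 1 :=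
    ContinuousOn.intervalIntegrable (by rw [hu]; exact hLc)
  have hRi : IntervalIntegrable (fun t : ℝ => 2 * ρ * (2 * Λ ^ 2 * (1 - t * ρ)) ^ (1 / 8 : ℝ) /
          ((1 - t * ρ) * (1 + (2 * Λ ^ 2 * (1 - t * ρ)) ^ (1 / 8 : ℝ)))) volume 0 1 :=
    ContinuousOn.intervalIntegrable (by rw [hu]; exact hRc)
  rw [integral_Icc_eq_integral_Ioc, ← intervalIntegral.integral_of_le (by norm_num : (0:ℝ) ≤ 1)]
  have hmono : (∫ t in (0:ℝ)..1, Φ t * (ρ / (1 - t ^ 2 * ρ ^ 2))) ≤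
      ∫ t in (0:ℝ)..1, 2 * ρ * (2 * Λ ^ 2 * (1 - t * ρ)) ^ (1 / 8 : ℝ) /
          ((1 - t * ρ) * (1 + (2 * Λ ^ 2 * (1 - t * ρ)) ^ (1 / 8 : ℝ))) := by
    refine intervalIntegral.integral_mono_on (by norm_num) hLi hRi ?_
    intro t ht
    have hwt := hw t ht
    have hd := hden t ht
    have hpos : 0 < 2 * Λ ^ 2 * (1 - t * ρ) := mul_pos hκ hwt
    have htρ : 0 ≤ t * ρ := mul_nonneg ht.1 hρ0
    set σ := (2 * Λ ^ 2 * (1 - t * ρ)) ^ (1 / 8 : ℝ) with hσ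
    have hs : 0 < σ := Real.rpow_pos_of_pos hpos _
    have h1 : Φ t ≤ σ := by
      refine (hΦ2 t ht).trans (Real.rpow_le_rpow ?_ ?_ (by norm_num))
      · have : 0 ≤ Λ ^ 2 := sq_nonneg _
        positivity
      · have h5 : 1 - t ^ 2 * ρ ^ 2 ≤ 2 * (1 - t * ρ) := by nlinarith
        nlinarith [mul_le_mul_of_nonneg_left h5 (sq_nonneg Λ)]
    have h2 : Φ t ≤ 2 * σ / (1 + σ) := by
      rw [le_div_iff₀ (by positivity)]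
      rcases le_total σ 1 with h | h
      · nlinarith [mul_le_mul_of_nonneg_right h1 (by positivity : (0:ℝ) ≤ 1 + σ)]
      · nlinarith [mul_le_mul_of_nonneg_right (hΦ1 t ht) (by positivity : (0:ℝ) ≤ 1 + σ)]
    have h3 : ρ / (1 - t ^ 2 * ρ ^ 2) ≤ ρ / (1 - t * ρ) := by
      refine div_le_div_of_nonneg_left hρ0 hwt ?_
      nlinarith
    have h4 : 0 ≤ ρ / (1 - t ^ 2 * ρ ^ 2) := div_nonneg hρ0 hd.le
    calc Φ t * (ρ / (1 - t ^ 2 * ρ ^ 2)) ≤ (2 * σ / (1 + σ)) * (ρ / (1 - t ^ 2 * ρ ^ 2)) :=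
          mul_le_mul_of_nonneg_right h2 h4
      _ ≤ (2 * σ / (1 + σ)) * (ρ / (1 - t * ρ)) := mul_le_mul_of_nonneg_left h3 (by positivity)
      _ = 2 * ρ * σ / ((1 - t * ρ) * (1 + σ)) := by
          field_simp
  have hftc : (∫ t in (0:ℝ)..1, 2 * ρ * (2 * Λ ^ 2 * (1 - t * ρ)) ^ (1 / 8 : ℝ) /
          ((1 - t * ρ) * (1 + (2 * Λ ^ 2 * (1 - t * ρ)) ^ (1 / 8 : ℝ)))) =
      -16 * Real.log (1 + (2 * Λ ^ 2 * (1 - 1 * ρ)) ^ (1 / 8 : ℝ)) -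
        -16 * Real.log (1 + (2 * Λ ^ 2 * (1 - 0 * ρ)) ^ (1 / 8 : ℝ)) :=
    intervalIntegral.integral_eq_sub_of_hasDerivAt (by rw [hu]; exact hder) hRi
  rw [hftc] at hmono
  have hlogΛ : 0 ≤ Real.log Λ := Real.log_nonneg hΛ
  have hΛ0 : 0 < Λ := by linarith
  have e1 : 0 ≤ Real.log (1 + (2 * Λ ^ 2 * (1 - 1 * ρ)) ^ (1 / 8 : ℝ)) := by
    refine Real.log_nonneg ?_
    have h1 := hw 1 ⟨by norm_num, le_refl _⟩
    have h2 : 0 < (2 * Λ ^ 2 * (1 - 1 * ρ)) ^ (1 / 8 : ℝ) := Real.rpow_pos_of_pos (mul_pos hκ h1) _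
    linarith
  have e2 : Real.log (1 + (2 * Λ ^ 2 * (1 - 0 * ρ)) ^ (1 / 8 : ℝ)) ≤
      9 / 8 * Real.log 2 + 1 / 4 * Real.log Λ := by
    have h0 : 2 * Λ ^ 2 * (1 - 0 * ρ) = 2 * Λ ^ 2 := by ring
    rw [h0]
    have h1 : 1 ≤ 2 * Λ ^ 2 := by nlinarith
    have h2 : 1 ≤ (2 * Λ ^ 2) ^ (1 / 8 : ℝ) := Real.one_le_rpow h1 (by norm_num)
    have h3 : Real.log (1 + (2 * Λ ^ 2) ^ (1 / 8 : ℝ)) ≤ Real.log (2 * (2 * Λ ^ 2) ^ (1 / 8 : ℝ)) :=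
      Real.log_le_log (by linarith) (by linarith)
    refine h3.trans (le_of_eq ?_)
    rw [Real.log_mul (by norm_num) (by positivity), Real.log_rpow hκ, Real.log_mul (by norm_num) (by positivity),
      Real.log_pow]
    push_cast
    ring
  have e3 : Real.log 2 ≤ 1 := by
    have := Real.log_two_lt_d9
    linarith
  nlinarith

end Pool.Agent.MPca0fc2.SH
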