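import Mathlib
import Pool.Agent.Lib.MP_ca0fc2_an.SH.Defs
import Pool.Agent.Lib.MP_ca0fc2_an.SH.H2
import Pool.Agent.Lib.MP_ca0fc2_an.SH.H3
import Pool.Agent.Lib.MP_ca0fc2_an.XC.SE

set_option autoImplicit false
set_option linter.unusedSectionVars false

open Metric Set MeasureTheory Filter Topology
open scoped InnerProductSpace ENNReal ContDiff

namespace Pool.Agent.MPca0fc2.SH

open Pool.Agent.MPca0fc2.PT
open Pool.Agent.MPca0fc2.TB (En Solv Trans)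

open Pool.Agent.MPca0fc2.TS
open Pool.Agent.MPca0fc2.TE

/-- Solutions for the class. `Pool.Agent.MPca0fc2SE.result` (XC/SE.lean) for `M = n + 1`, `V = span {p}`, `a = 0` (second part, `finrank V ≤ 1`) gives `h` with
`√(∑ ‖h j z‖²) ≤ C (1 + geodEnergy (n+1) f V z)`; with `n = m + 1`, `GI_eq` (same file): `geodEnergy = GI (Om (nuE volume m (m+2) f) (m+2)) V.starProjection z`, `V.starProjection z = ⟪p, z⟫ • p`.
Bound by the second term: `GI_log` (TE/G6.lean) with `Om_le` (TE/G5.lean): `GI ≤ C₀/2 log((1+r)/(1-r))`, `r = rr P z`, `1 - r² = (1 - ‖z‖²)/(1 - ‖P z‖²)`. Bound by the first: on the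
geodesic `y = pt P t z`: `⟪p, y⟫ = ⟪p, z⟫`, so `aa p y = aa p z =: a`, and `1 - ‖y‖² = (1 - ‖P z‖²)(1 - t² r²) ≤ 2 a (1 - t² r²)` (as `1 - |z₁|² ≤ 2 |1 - z₁|`), so by `Om_cls`
`Om y ≤ C (2 Λ² (1 - t² r²))^(1/8)`, `Λ = lam (a/8)`; and `Om y ≤ C₀`; apply `one_var` to `Φ t = Om (pt P t z) / C'`, `C'` large. -/
theorem upper {n N : ℕ} (hn : 2 ≤ n) {δ : ℝ} (hδ : 0 < δ) : ∃ C : ℝ, 0 < C ∧
    ∀ f : Fin N → EuclideanSpace ℂ (Fin n) → ℂ, (∀ j, DifferentiableOn ℂ (f j) (ball 0 1)) →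
      (∀ z ∈ ball (0 : EuclideanSpace ℂ (Fin n)) 1,
        δ ≤ ∑ j, ‖f j z‖ ^ 2 ∧ ∑ j, ‖f j z‖ ^ 2 ≤ 1) →
      ∀ p : EuclideanSpace ℂ (Fin n), ‖p‖ = 1 → ∀ lam : ℝ → ℝ, AntitoneOn lam (Ioi 0) →
      (∀ a, 0 < a → 1 ≤ lam a) →
      (∀ z ∈ ball (0 : EuclideanSpace ℂ (Fin n)) 1, ∀ j,
        IG2 (f j) z ≤ lam (aa p z) ^ 2 * ((1 - ‖z‖ ^ 2) / aa p z)) →
      ∃ h : Fin N → EuclideanSpace ℂ (Fin n) → ℂ, (∀ j, DifferentiableOn ℂ (h j) (ball 0 1)) ∧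
        ∀ z ∈ ball (0 : EuclideanSpace ℂ (Fin n)) 1, ∑ j, f j z * h j z = 1 ∧
          ∀ j, ‖h j z‖ ≤ C * (1 + Real.log (lam (aa p z / 8))) ∧
            ‖h j z‖ ≤ C * (1 + Real.log ((1 - ‖⟪p, z⟫_ℂ‖ ^ 2) / (1 - ‖z‖ ^ 2))) := by
  obtain ⟨m, rfl⟩ : ∃ m, n = m + 1 := ⟨n - 1, by omega⟩
  have hm : 1 ≤ m := by omega
  have hdim : Module.finrank ℂ (EuclideanSpace ℂ (Fin (m + 1))) = m + 1 := by
    rw [finrank_euclideanSpace_fin]
  obtain ⟨C0, hC0, h0⟩ := Pool.Agent.MPca0fc2SE.result (n := m + 1) (N := N) (M := m + 2) hn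
    (by omega) hδ one_pos
  obtain ⟨C1, hC1, h1⟩ := Om_cls (E := EuclideanSpace ℂ (Fin (m + 1))) volume hm hdim N
  obtain ⟨C2, hC2, h2⟩ := SH.one_var
  obtain ⟨C3, hC3, h3⟩ := Om_le (E := EuclideanSpace ℂ (Fin (m + 1))) volume hm hdim
    (M := m + 2) le_rfl N
  refine ⟨C0 * (1 + (C3 + 2 * C1) * C2 + C3 * 2), by positivity, ?_⟩
  intro f hf hb p hp lam hlam hlam1 hIG
  have hf1 : ∀ j, ∀ z ∈ ball (0 : EuclideanSpace ℂ (Fin (m + 1))) 1, ‖f j z‖ ≤ 1 := by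
    intro j z hz
    have a2 := (hb z hz).2
    have a3 : ‖f j z‖ ^ 2 ≤ ∑ j, ‖f j z‖ ^ 2 :=
      Finset.single_le_sum (f := fun j => ‖f j z‖ ^ 2) (fun _ _ => sq_nonneg _)
        (Finset.mem_univ j)
    nlinarith [norm_nonneg (f j z)]
  have hν : OnB (nuE volume m (m + 2) f) := nuE_OnB volume (by omega) hf hf1
  obtain ⟨V, hV⟩ : ∃ V : Submodule ℂ (EuclideanSpace ℂ (Fin (m + 1))), V = ℂ ∙ p := ⟨_, rfl⟩
  have hp0 : p ≠ 0 := by
    intro h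
    rw [h, norm_zero] at hp
    exact zero_ne_one hp
  have hPz : ∀ z, V.starProjection z = ⟪p, z⟫_ℂ • p := by
    intro z
    rw [hV]
    exact Submodule.starProjection_unit_singleton ℂ hp z
  have hfr : Module.finrank ℂ V ≤ 1 := by
    rw [hV, finrank_span_singleton hp0]
  obtain ⟨h, hh⟩ := (h0 f hf hb V 0 (by simp)).2.1 hfr
  have hP := Pool.Agent.MPca0fc2SE.prj_star V
  have hnP : ∀ z, ‖V.starProjection z‖ = ‖⟪p, z⟫_ℂ‖ := by
    intro z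
    rw [hPz, norm_smul, hp, mul_one]
  refine ⟨h, hh.holo, fun z hz => ⟨hh.sol z hz, fun j => ?_⟩⟩
  have hz1 : ‖z‖ < 1 := mem_ball_zero_iff.1 hz
  have hg := hh.geod rfl z hz
  rw [← Pool.Agent.MPca0fc2SE.GI_eq] at hg
  have hj : ‖h j z‖ ≤ √(∑ j, ‖h j z‖ ^ 2) := by
    apply Real.le_sqrt_of_sq_le
    exact Finset.single_le_sum (f := fun j => ‖h j z‖ ^ 2) (fun _ _ => sq_nonneg _)
        (Finset.mem_univ j)
  have hj2 := hj.trans hg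
  obtain ⟨G, hG⟩ : ∃ G : ℝ, G = GI (Om (nuE volume m (m + 2) f) (m + 2)) V.starProjection z :=
    ⟨_, rfl⟩
  rw [← hG] at hj2
  obtain ⟨r, hr⟩ : ∃ r : ℝ, r = rr V.starProjection z := ⟨_, rfl⟩
  obtain ⟨r0, r1, r2, -, -⟩ := rr_facts hP hz1 1
  have r5 : ∀ t : ℝ, Dp V.starProjection t z =
      (1 - ‖⟪p, z⟫_ℂ‖ ^ 2) * (1 - t ^ 2 * r ^ 2) := by
    intro t
    rw [(rr_facts hP hz1 t).2.2.2.2, hnP, ← hr]
  rw [← hr] at r0 r1
  rw [hnP] at r2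
  have hD1 : 1 - ‖z‖ ^ 2 = (1 - ‖⟪p, z⟫_ℂ‖ ^ 2) * (1 - r ^ 2) := by
    have a1 := (Dp_anti hP hz1 (s := 1) (t := 1) zero_le_one le_rfl le_rfl).2.1
    rw [← a1, r5]
    ring
  have hz2 : 0 < 1 - ‖z‖ ^ 2 := by nlinarith [norm_nonneg z]
  have hr2 : 0 < 1 - r ^ 2 := by nlinarith
  -- the depth of `z` relative to the line
  have hs1 : ‖⟪p, z⟫_ℂ‖ < 1 := by
    have a1 := norm_inner_le_norm (𝕜 := ℂ) p z
    rw [hp, one_mul] at a1
    linarith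
  have hL0 : 1 ≤ (1 - ‖⟪p, z⟫_ℂ‖ ^ 2) / (1 - ‖z‖ ^ 2) := by
    rw [one_le_div hz2, hD1]
    nlinarith [sq_nonneg r]
  have hL : 0 ≤ Real.log ((1 - ‖⟪p, z⟫_ℂ‖ ^ 2) / (1 - ‖z‖ ^ 2)) := Real.log_nonneg hL0
  have ha0 : 1 - ‖⟪p, z⟫_ℂ‖ ≤ aa p z := by
    have a1 := norm_sub_norm_le (1 : ℂ) ⟪p, z⟫_ℂ
    rw [norm_one] at a1
    exact a1
  have ha : 0 < aa p z := by linarith
  have hsn : 0 ≤ ‖⟪p, z⟫_ℂ‖ := norm_nonneg _
  have h2a : 1 - ‖⟪p, z⟫_ℂ‖ ^ 2 ≤ 2 * aa p z := by nlinarith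
  have hΛ1 : 1 ≤ lam (aa p z / 8) := hlam1 _ (by positivity)
  have hlogΛ : 0 ≤ Real.log (lam (aa p z / 8)) := Real.log_nonneg hΛ1
  -- first bound
  have hG1 : G ≤ (C3 + 2 * C1) * (C2 * (1 + Real.log (lam (aa p z / 8)))) := by
    have hK : 0 < C3 + 2 * C1 := by positivity
    have hmem : ∀ t ∈ Icc (0 : ℝ) 1, pt V.starProjection t z ∈
        ball (0 : EuclideanSpace ℂ (Fin (m + 1))) 1 := by
      intro t ht
      obtain ⟨b1, -, b3, -⟩ := Dp_anti hP hz1 (s := t) (t := t) ht.1 le_rfl ht.2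
      have b5 := Dp_eq hP t z
      rw [mem_ball_zero_iff]
      nlinarith [norm_nonneg (pt V.starProjection t z)]
    have hcont : ContinuousOn (fun t : ℝ =>
        Om (nuE volume m (m + 2) f) (m + 2) (pt V.starProjection t z) / (C3 + 2 * C1))
        (Icc 0 1) := by
      refine ContinuousOn.div_const ?_ _
      refine (Om_cont hν (m + 2)).comp ?_ hmem
      refine Continuous.continuousOn ?_
      unfold pt
      exact continuous_const.add ((Complex.continuous_ofReal).smul continuous_const)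
    have hle1 : ∀ t ∈ Icc (0 : ℝ) 1,
        Om (nuE volume m (m + 2) f) (m + 2) (pt V.starProjection t z) / (C3 + 2 * C1) ≤ 1 := by
      intro t ht
      rw [div_le_one hK]
      have := h3 f hf hf1 _ (hmem t ht)
      linarith
    have hip : ∀ t : ℝ, ⟪p, pt V.starProjection t z⟫_ℂ = ⟪p, z⟫_ℂ := by
      intro t
      have hpp : ⟪p, p⟫_ℂ = 1 := by
        rw [inner_self_eq_norm_sq_to_K, hp]
        simp
      unfold pt
      rw [hPz, inner_add_right, inner_smul_right, inner_smul_right, inner_sub_right,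
        inner_smul_right, hpp]
      ring
    have haa : ∀ t : ℝ, aa p (pt V.starProjection t z) = aa p z := by
      intro t
      unfold aa
      rw [hip]
    have hle2 : ∀ t ∈ Icc (0 : ℝ) 1,
        Om (nuE volume m (m + 2) f) (m + 2) (pt V.starProjection t z) / (C3 + 2 * C1) ≤
          (lam (aa p z / 8) ^ 2 * (1 - t ^ 2 * r ^ 2)) ^ (1 / 8 : ℝ) := by
      intro t ht
      rw [div_le_iff₀ hK]
      have b1 := h1 f hf hf1 p hp lam hlam hlam1 hIG _ (hmem t ht)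
      rw [haa, Dp_eq hP, r5] at b1
      have htr : 0 ≤ 1 - t ^ 2 * r ^ 2 := by
        have c1 : t ^ 2 ≤ 1 := by nlinarith [ht.1, ht.2]
        nlinarith [sq_nonneg r]
      have b2 : lam (aa p z / 8) ^ 2 * ((1 - ‖⟪p, z⟫_ℂ‖ ^ 2) * (1 - t ^ 2 * r ^ 2) / aa p z) ≤
          2 * (lam (aa p z / 8) ^ 2 * (1 - t ^ 2 * r ^ 2)) := by
        have c1 : (1 - ‖⟪p, z⟫_ℂ‖ ^ 2) * (1 - t ^ 2 * r ^ 2) / aa p z ≤
            2 * (1 - t ^ 2 * r ^ 2) := by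
          rw [div_le_iff₀ ha]
          nlinarith
        have c2 : 0 ≤ lam (aa p z / 8) ^ 2 := sq_nonneg _
        calc _ ≤ lam (aa p z / 8) ^ 2 * (2 * (1 - t ^ 2 * r ^ 2)) :=
              mul_le_mul_of_nonneg_left c1 c2
          _ = _ := by ring
      have b3 : 0 ≤ lam (aa p z / 8) ^ 2 *
          ((1 - ‖⟪p, z⟫_ℂ‖ ^ 2) * (1 - t ^ 2 * r ^ 2) / aa p z) := by positivity
      have b4 : (lam (aa p z / 8) ^ 2 *
          ((1 - ‖⟪p, z⟫_ℂ‖ ^ 2) * (1 - t ^ 2 * r ^ 2) / aa p z)) ^ (1 / 8 : ℝ) ≤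
          2 * (lam (aa p z / 8) ^ 2 * (1 - t ^ 2 * r ^ 2)) ^ (1 / 8 : ℝ) := by
        refine (Real.rpow_le_rpow b3 b2 (by norm_num)).trans ?_
        rw [Real.mul_rpow (by norm_num) (by positivity)]
        refine mul_le_mul_of_nonneg_right ?_ (by positivity)
        calc (2 : ℝ) ^ (1 / 8 : ℝ) ≤ (2 : ℝ) ^ (1 : ℝ) :=
              Real.rpow_le_rpow_of_exponent_le (by norm_num) (by norm_num)
          _ = 2 := Real.rpow_one 2
      have b5 : 0 ≤ (lam (aa p z / 8) ^ 2 * (1 - t ^ 2 * r ^ 2)) ^ (1 / 8 : ℝ) := by positivity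
      calc _ ≤ _ := b1
        _ ≤ C1 * (2 * (lam (aa p z / 8) ^ 2 * (1 - t ^ 2 * r ^ 2)) ^ (1 / 8 : ℝ)) :=
          mul_le_mul_of_nonneg_left b4 hC1.le
        _ ≤ _ := by nlinarith
    have b6 := h2 (lam (aa p z / 8)) r hΛ1 r0 r1 _ hcont hle1 hle2
    have b7 : G = (C3 + 2 * C1) * ∫ t in Icc (0 : ℝ) 1,
        Om (nuE volume m (m + 2) f) (m + 2) (pt V.starProjection t z) / (C3 + 2 * C1) *
          (r / (1 - t ^ 2 * r ^ 2)) := by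
      rw [hG, ← integral_const_mul]
      unfold GI
      rw [← hr]
      refine setIntegral_congr_fun measurableSet_Icc fun t ht => ?_
      field_simp
    rw [b7]
    exact mul_le_mul_of_nonneg_left b6 hK.le
  -- second bound
  have hG2 : G ≤ C3 * (Real.log 4 + Real.log ((1 - ‖⟪p, z⟫_ℂ‖ ^ 2) / (1 - ‖z‖ ^ 2))) := by
    have b1 := GI_log hP (Om_cont hν (m + 2)) (fun y hy => h3 f hf hf1 y hy) hz1
    rw [← hG, ← hr] at b1
    have hr1' : 0 < 1 - r := by linarith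
    have b2 : (1 + r) / (1 - r) ≤ 4 * ((1 - ‖⟪p, z⟫_ℂ‖ ^ 2) / (1 - ‖z‖ ^ 2)) := by
      have e1 : (1 - ‖⟪p, z⟫_ℂ‖ ^ 2) / (1 - ‖z‖ ^ 2) = 1 / (1 - r ^ 2) := by
        rw [hD1]
        field_simp
      rw [e1, mul_one_div, div_le_div_iff₀ hr1' hr2]
      have e2 : (1 + r) * (1 - r ^ 2) = (1 + r) ^ 2 * (1 - r) := by ring
      rw [e2]
      refine mul_le_mul_of_nonneg_right ?_ hr1'.le
      nlinarith
    have b3 : Real.log ((1 + r) / (1 - r)) ≤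
        Real.log 4 + Real.log ((1 - ‖⟪p, z⟫_ℂ‖ ^ 2) / (1 - ‖z‖ ^ 2)) := by
      rw [← Real.log_mul (by norm_num) (by positivity)]
      exact Real.log_le_log (by positivity) b2
    have b4 : 0 ≤ Real.log ((1 + r) / (1 - r)) := by
      apply Real.log_nonneg
      rw [one_le_div hr1']
      linarith
    nlinarith
  have hlog4 : Real.log 4 ≤ 2 := by
    have e1 : Real.log 4 = 2 * Real.log 2 := by
      rw [show (4 : ℝ) = 2 ^ 2 by norm_num, Real.log_pow]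
      norm_num
    have e2 := Real.log_two_lt_d9
    linarith
  obtain ⟨X, hX⟩ : ∃ X : ℝ, X = Real.log (lam (aa p z / 8)) := ⟨_, rfl⟩
  obtain ⟨Y, hY⟩ : ∃ Y : ℝ, Y = Real.log ((1 - ‖⟪p, z⟫_ℂ‖ ^ 2) / (1 - ‖z‖ ^ 2)) := ⟨_, rfl⟩
  rw [← hX] at hG1 hlogΛ ⊢
  rw [← hY] at hG2 hL ⊢
  constructor
  · refine hj2.trans ?_
    rw [mul_assoc]
    refine mul_le_mul_of_nonneg_left ?_ hC0.le
    have e1 : 0 ≤ (C3 + 2 * C1) * C2 := by positivity
    have e2 : 0 ≤ C3 * 2 * (1 + X) := by positivity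
    nlinarith
  · refine hj2.trans ?_
    rw [mul_assoc]
    refine mul_le_mul_of_nonneg_left ?_ hC0.le
    have e1 : 0 ≤ (C3 + 2 * C1) * C2 * (1 + Y) := by positivity
    have e2 : C3 * (Real.log 4 + Y) ≤ C3 * (2 * (1 + Y)) := by
      refine mul_le_mul_of_nonneg_left ?_ hC3.le
      linarith
    nlinarith

end Pool.Agent.MPca0fc2.SH
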