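import Mathlib
import Pool.Agent.Lib.MP_ca0fc2_an.XC.AD
import Pool.Agent.Lib.MP_ca0fc2_an.SH.H4
import Pool.Agent.Lib.MP_ca0fc2_an.SH.B5
import Pool.Agent.Lib.MP_ca0fc2_an.SH.B7
import Pool.Agent.Lib.MP_ca0fc2_an.SH.B8

/-!
# The corona problem: a sharp threshold at one boundary point of the ball

Let `n ≥ 2`, `p` a boundary point of the unit ball `B` of `ℂⁿ`, `a(z) = |1 - ⟨z, p⟩|`, `λ ≥ 1` a decreasing
function on `(0, ∞)`. Consider the corona data `f` on `B` with `|∇̃ f_j|² ≤ λ(a)² (1 - |z|²) / a`. They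
have solutions of the size `C (1 + log λ(a/8))` on `B`, and of the size
`C (1 + log ((1 - |P z|²)/(1 - |z|²)))`, `P` the projection on `ℂ p`. Let `R` be a function on `[0, 1)`
and let `Ω_R` be the tube of the width `R(t)` around the radius `t p`. If `λ` or `R` is bounded, all
data of the class have solutions which are bounded on `Ω_R`. If both are unbounded, this is
equivalent to the corona theorem for `N` functions on all strictly pseudoconvex domains in `ℂᵐ`,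
`2 ≤ m ≤ n`.
-/

set_option autoImplicit false

open Metric Set Filter Topology
open scoped InnerProductSpace
open Pool.Agent.Lib.MP_ca0fc2_an

namespace Pool.Agent.MPca0fc2ST

/-- the square of the invariant gradient -/
noncomputable def invGrad {n : ℕ} (u : EuclideanSpace ℂ (Fin n) → ℂ)
    (z : EuclideanSpace ℂ (Fin n)) : ℝ :=
  (1 - ‖z‖ ^ 2) * (‖fderiv ℂ u z‖ ^ 2 - ‖fderiv ℂ u z z‖ ^ 2)

/-- the nonisotropic distance of `z` from the boundary point `p` -/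
noncomputable def dst {n : ℕ} (p z : EuclideanSpace ℂ (Fin n)) : ℝ := ‖1 - ⟪z, p⟫_ℂ‖

/-- corona data on the unit ball, with the lower bound `δ`, whose invariant gradient is controlled by `lam`
at each nonisotropic distance from `p` -/
structure InClass {n N : ℕ} (lam : ℝ → ℝ) (p : EuclideanSpace ℂ (Fin n)) (δ : ℝ)
    (f : Fin N → EuclideanSpace ℂ (Fin n) → ℂ) : Prop where
  holo : ∀ j, DifferentiableOn ℂ (f j) (ball 0 1)
  bd : ∀ z ∈ ball (0 : EuclideanSpace ℂ (Fin n)) 1,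
    δ ≤ ∑ j, ‖f j z‖ ^ 2 ∧ ∑ j, ‖f j z‖ ^ 2 ≤ 1
  grad : ∀ z ∈ ball (0 : EuclideanSpace ℂ (Fin n)) 1, ∀ j,
    invGrad (f j) z ≤ lam (dst p z) ^ 2 * ((1 - ‖z‖ ^ 2) / dst p z)

/-- the union over `0 ≤ t < 1` of the hyperbolic balls around `t p` of the size `R t` -/
def tube {n : ℕ} (R : ℝ → ℝ) (p : EuclideanSpace ℂ (Fin n)) : Set (EuclideanSpace ℂ (Fin n)) :=
  {z | ‖z‖ < 1 ∧ ∃ t : ℝ, 0 ≤ t ∧ t < 1 ∧
    ‖1 - ⟪z, (t : ℂ) • p⟫_ℂ‖ ^ 2 < R t * ((1 - ‖(t : ℂ) • p‖ ^ 2) * (1 - ‖z‖ ^ 2))}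

/-- all data of the class have holomorphic solutions which are bounded on the tube -/
def TubeSolvable {n : ℕ} (N : ℕ) (lam R : ℝ → ℝ) (p : EuclideanSpace ℂ (Fin n)) : Prop :=
  ∀ δ > 0, ∀ f : Fin N → EuclideanSpace ℂ (Fin n) → ℂ, InClass lam p δ f →
    ∃ (C : ℝ) (h : Fin N → EuclideanSpace ℂ (Fin n) → ℂ),
      (∀ j, DifferentiableOn ℂ (h j) (tube R p)) ∧
      ∀ z ∈ tube R p, ∑ j, f j z * h j z = 1 ∧ ∀ j, ‖h j z‖ ≤ C

open Pool.Agent.MPca0fc2.SH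
open Pool.Agent.MPca0fc2.TB (En Solv)

theorem dst_eq {n : ℕ} (p z : EuclideanSpace ℂ (Fin n)) : dst p z = aa p z := by
  unfold dst aa
  rw [← Complex.norm_conj, map_sub, map_one, inner_conj_symm]

theorem mem_tube {n : ℕ} {R : ℝ → ℝ} {p z : EuclideanSpace ℂ (Fin n)} (hp : ‖p‖ = 1) :
    z ∈ tube R p ↔ ‖z‖ < 1 ∧ ∃ t : ℝ, 0 ≤ t ∧ t < 1 ∧
      ‖1 - (t : ℂ) * ⟪p, z⟫_ℂ‖ ^ 2 < R t * ((1 - t ^ 2) * (1 - ‖z‖ ^ 2)) := by
  have e : ∀ t : ℝ, ‖1 - ⟪z, (t : ℂ) • p⟫_ℂ‖ = ‖1 - (t : ℂ) * ⟪p, z⟫_ℂ‖ := by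
    intro t
    rw [← Complex.norm_conj, map_sub, map_one, inner_conj_symm, inner_smul_left,
      Complex.conj_ofReal]
  have e2 : ∀ t : ℝ, ‖(t : ℂ) • p‖ ^ 2 = t ^ 2 := by
    intro t
    rw [norm_smul, hp, mul_one, Complex.norm_real, Real.norm_eq_abs, sq_abs]
  unfold tube
  simp only [mem_setOf_eq, e, e2]

theorem tube_eq {n : ℕ} {R : ℝ → ℝ} {p : EuclideanSpace ℂ (Fin n)} (hp : ‖p‖ = 1) :
    tube R p = Tub R p := by
  ext z
  rw [mem_tube hp]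
  rfl

theorem tube_sub {n : ℕ} {R : ℝ → ℝ} {p : EuclideanSpace ℂ (Fin n)} : tube R p ⊆ ball 0 1 :=
  fun _ hz => mem_ball_zero_iff.2 hz.1

/-- the growth of solutions for the class -/
theorem growth {n N : ℕ} (hn : 2 ≤ n) {δ : ℝ} (hδ : 0 < δ) : ∃ C : ℝ, 0 < C ∧
    ∀ lam : ℝ → ℝ, AntitoneOn lam (Ioi 0) → (∀ a, 0 < a → 1 ≤ lam a) →
      ∀ p : EuclideanSpace ℂ (Fin n), ‖p‖ = 1 →
      ∀ f : Fin N → EuclideanSpace ℂ (Fin n) → ℂ, InClass lam p δ f →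
      ∃ h : Fin N → EuclideanSpace ℂ (Fin n) → ℂ, (∀ j, DifferentiableOn ℂ (h j) (ball 0 1)) ∧
        ∀ z ∈ ball (0 : EuclideanSpace ℂ (Fin n)) 1, ∑ j, f j z * h j z = 1 ∧
          ∀ j, ‖h j z‖ ≤ C * (1 + Real.log (lam (dst p z / 8))) ∧
            ‖h j z‖ ≤ C * (1 + Real.log ((1 - ‖⟪z, p⟫_ℂ‖ ^ 2) / (1 - ‖z‖ ^ 2))) := by
  obtain ⟨C, hC, h⟩ := upper (n := n) (N := N) hn hδ
  refine ⟨C, hC, fun lam h1 h2 p hp f hf => ?_⟩
  obtain ⟨g, hg, hgs⟩ := h f hf.holo hf.bd p hp lam h1 h2 (fun z hz j => by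
    have := hf.grad z hz j
    rw [dst_eq] at this
    exact this)
  refine ⟨g, hg, fun z hz => ⟨(hgs z hz).1, fun j => ?_⟩⟩
  have := (hgs z hz).2 j
  rw [dst_eq]
  refine ⟨this.1, ?_⟩
  rw [← inner_conj_symm, Complex.norm_conj]
  exact this.2

/-- inside a tube of bounded width the second estimate is a bound -/
theorem tube_bd {n : ℕ} {R : ℝ → ℝ} {p z : EuclideanSpace ℂ (Fin n)} (hp : ‖p‖ = 1) {c : ℝ}
    (hR : ∀ t, 0 ≤ t → t < 1 → R t ≤ c) (hz : z ∈ tube R p) :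
    (1 - ‖⟪z, p⟫_ℂ‖ ^ 2) / (1 - ‖z‖ ^ 2) ≤ c := by
  obtain ⟨hz1, t, ht0, ht1, h⟩ := (mem_tube hp).1 hz
  have hz2 : 0 < 1 - ‖z‖ ^ 2 := by nlinarith [norm_nonneg z]
  have ht2 : 0 < 1 - t ^ 2 := by nlinarith
  rw [← inner_conj_symm, Complex.norm_conj]
  generalize hw : ⟪p, z⟫_ℂ = w at h ⊢
  have key : (1 - ‖w‖ ^ 2) * (1 - t ^ 2) ≤ ‖1 - (t : ℂ) * w‖ ^ 2 := by
    have e1 : ‖1 - (t : ℂ) * w‖ ^ 2 = (1 - t * w.re) ^ 2 + (t * w.im) ^ 2 := by
      rw [← Complex.normSq_eq_norm_sq, Complex.normSq_apply]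
      simp
      ring
    have e2 : ‖w‖ ^ 2 = w.re ^ 2 + w.im ^ 2 := by
      rw [← Complex.normSq_eq_norm_sq, Complex.normSq_apply]
      ring
    rw [e1, e2]
    nlinarith [sq_nonneg (w.re - t), sq_nonneg w.im]
  rw [div_le_iff₀ hz2]
  have h1 : R t * ((1 - t ^ 2) * (1 - ‖z‖ ^ 2)) ≤ c * ((1 - t ^ 2) * (1 - ‖z‖ ^ 2)) :=
    mul_le_mul_of_nonneg_right (hR t ht0 ht1) (by positivity)
  have h2 : (1 - ‖w‖ ^ 2) * (1 - t ^ 2) ≤ (c * (1 - ‖z‖ ^ 2)) * (1 - t ^ 2) := by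
    nlinarith
  exact le_of_mul_le_mul_right h2 ht2

theorem solvable_of_bdd {n N : ℕ} (hn : 2 ≤ n) {lam R : ℝ → ℝ}
    {p : EuclideanSpace ℂ (Fin n)} (h1 : AntitoneOn lam (Ioi 0)) (h2 : ∀ a, 0 < a → 1 ≤ lam a)
    (hp : ‖p‖ = 1) (hb : BddAbove (lam '' Ioi 0) ∨ BddAbove (R '' Ico 0 1)) :
    TubeSolvable N lam R p := by
  intro δ hδ f hf
  obtain ⟨C, hC, h⟩ := growth (n := n) (N := N) hn hδ
  obtain ⟨g, hg, hgs⟩ := h lam h1 h2 p hp f hf
  rcases hb with ⟨c, hc⟩ | ⟨c, hc⟩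
  · refine ⟨C * (1 + Real.log c), g, fun j => (hg j).mono tube_sub, fun z hz =>
      ⟨(hgs z (tube_sub hz)).1, fun j => ((hgs z (tube_sub hz)).2 j).1.trans ?_⟩⟩
    have hz1 := mem_ball_zero_iff.1 (tube_sub hz)
    have ha : 0 < dst p z / 8 := by
      have h3 := norm_sub_norm_le (1 : ℂ) ⟪z, p⟫_ℂ
      have h4 := norm_inner_le_norm (𝕜 := ℂ) z p
      rw [norm_one] at h3
      rw [hp, mul_one] at h4
      unfold dst
      linarith
    have h5 : lam (dst p z / 8) ≤ c := hc ⟨_, ha, rfl⟩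
    have h6 := h2 _ ha
    have := Real.log_le_log (by linarith) h5
    apply mul_le_mul_of_nonneg_left _ hC.le
    linarith
  · refine ⟨C * (1 + Real.log (max c 1)), g, fun j => (hg j).mono tube_sub, fun z hz =>
      ⟨(hgs z (tube_sub hz)).1, fun j => ((hgs z (tube_sub hz)).2 j).2.trans ?_⟩⟩
    have h3 := tube_bd hp (c := c) (fun t h0 h1 => hc ⟨t, ⟨h0, h1⟩, rfl⟩) hz
    apply mul_le_mul_of_nonneg_left _ hC.le
    have h4 : 0 < (1 - ‖⟪z, p⟫_ℂ‖ ^ 2) / (1 - ‖z‖ ^ 2) := by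
      have hz1 : ‖z‖ < 1 := hz.1
      have h5 := norm_inner_le_norm (𝕜 := ℂ) z p
      rw [hp, mul_one] at h5
      have h6 : 0 < 1 - ‖z‖ ^ 2 := by nlinarith [norm_nonneg z]
      have h7 : 0 < 1 - ‖⟪z, p⟫_ℂ‖ ^ 2 := by nlinarith [norm_nonneg ⟪z, p⟫_ℂ, norm_nonneg z]
      positivity
    have := Real.log_le_log h4 (h3.trans (le_max_left c 1))
    linarith

theorem not_solvable {n N : ℕ} (hn : 2 ≤ n) {lam R : ℝ → ℝ} {p : EuclideanSpace ℂ (Fin n)}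
    (h1 : AntitoneOn lam (Ioi 0)) (h2 : ∀ a, 0 < a → 1 ≤ lam a) (hp : ‖p‖ = 1)
    (hlam : Tendsto lam (𝓝[>] 0) atTop) (hR : ∀ c : ℝ, ∃ᶠ t in 𝓝[<] (1 : ℝ), c < R t)
    (hT : TubeSolvable N lam R p) : ∀ δ > 0, ∃ A : ℝ, Pool.Agent.MPca0fc2AD.UniformQ1 N δ A
      (ball (0 : EuclideanSpace ℂ (Fin n)) 1) (ball 0 1) := by
  intro δ₀ hδ₀
  by_contra hcon
  push Not at hcon
  have hcon' : ∀ A : ℝ, ∃ f : En n → En N, DifferentiableOn ℂ f (ball 0 1) ∧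
      (∀ z ∈ ball (0 : En n) 1, δ₀ ≤ ‖f z‖ ∧ ‖f z‖ ≤ 1) ∧ ¬ Solv f (ball 0 1) A := by
    intro A
    have h3 := hcon |A|
    rw [Pool.Agent.MPca0fc2AD.uniformQ1_iff hδ₀ (abs_nonneg A)] at h3
    push Not at h3
    obtain ⟨f, hf, hfb, hns⟩ := h3
    refine ⟨f, hf, hfb, fun hs => hns ?_⟩
    obtain ⟨g, g1, g2, g3⟩ := hs
    exact ⟨g, g1, fun z hz => (g2 z hz).trans (le_abs_self A), g3⟩
  obtain ⟨κ, hκ⟩ : ∃ κ : ℝ, κ = min 1 (δ₀ / 4) := ⟨_, rfl⟩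
  have hκ0 : 0 < κ := by rw [hκ]; positivity
  have hκ1 : κ ≤ 1 := by rw [hκ]; exact min_le_left _ _
  have hκ2 : κ ≤ δ₀ / 4 := by rw [hκ]; exact min_le_right _ _
  obtain ⟨c₀, H, L, m, k, d, hB⟩ := exists_blk hn hδ₀ hcon' hp hlam hR hκ0 hκ1
  obtain ⟨f, f1, f2, f3, f4⟩ := blk_data h1 h2 hB
  have hcomp : ∀ j, DifferentiableOn ℂ (fun z => f z j) (ball 0 1) := fun j =>
    (EuclideanSpace.proj (𝕜 := ℂ) j).differentiable.comp_differentiableOn f1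
  have hn3 : ∀ j z, ‖(3 : ℂ)⁻¹ * f z j‖ ^ 2 = ‖f z j‖ ^ 2 / 9 := by
    intro j z
    rw [norm_mul, norm_inv]
    norm_num
    ring
  have hcl : InClass lam p ((δ₀ / 6) ^ 2) (fun j z => (3 : ℂ)⁻¹ * f z j) := by
    refine ⟨fun j => (hcomp j).const_mul _, fun z hz => ?_, fun z hz j => ?_⟩
    · obtain ⟨b1, b2⟩ := f2 z hz
      have e : ∑ j, ‖(3 : ℂ)⁻¹ * f z j‖ ^ 2 = ‖f z‖ ^ 2 / 9 := by
        simp only [hn3]
        rw [← Finset.sum_div, EuclideanSpace.norm_sq_eq]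
      show _ ≤ ∑ j, ‖(3 : ℂ)⁻¹ * f z j‖ ^ 2 ∧ ∑ j, ‖(3 : ℂ)⁻¹ * f z j‖ ^ 2 ≤ 1
      rw [e]
      constructor
      · have h5 : δ₀ / 2 ≤ ‖f z‖ := by linarith
        nlinarith
      · have h5 : ‖f z‖ ≤ 3 := by linarith
        nlinarith [norm_nonneg (f z)]
    · have h5 := f3 z hz j
      rw [dst_eq]
      have hda : DifferentiableAt ℂ (fun z => f z j) z :=
        (hcomp j).differentiableAt (isOpen_ball.mem_nhds hz)
      have h6 : fderiv ℂ (fun z => (3 : ℂ)⁻¹ * f z j) z =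
          (3 : ℂ)⁻¹ • fderiv ℂ (fun z => f z j) z := fderiv_const_mul hda _
      have h7 : invGrad (fun z => (3 : ℂ)⁻¹ * f z j) z =
          Pool.Agent.MPca0fc2.PT.IG2 (fun z => f z j) z / 9 := by
        unfold invGrad Pool.Agent.MPca0fc2.PT.IG2
        rw [h6, norm_smul, ContinuousLinearMap.smul_apply, norm_smul, norm_inv]
        norm_num
        ring
      rw [h7]
      have h8 : 0 ≤ lam (aa p z) ^ 2 * ((1 - ‖z‖ ^ 2) / aa p z) := by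
        have : ‖z‖ < 1 := mem_ball_zero_iff.1 hz
        have h9 : 0 < 1 - ‖z‖ ^ 2 := by nlinarith [norm_nonneg z]
        have h10 : 0 ≤ aa p z := norm_nonneg _
        positivity
      linarith
  obtain ⟨C, h, hh, hs⟩ := hT _ (by positivity) _ hcl
  refine blk_ns hB f4 ((N + 1) * |C|) ?_
  rw [← tube_eq hp]
  refine ⟨fun z => WithLp.toLp 2 fun j => (3 : ℂ)⁻¹ * h j z, ?_, fun z hz => ?_,
    fun z hz => ?_⟩
  · intro z hz
    rw [differentiableWithinAt_euclidean]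
    intro j
    exact ((hh j).const_mul _) z hz
  · have h3 : ∀ j, ‖(3 : ℂ)⁻¹ * h j z‖ ≤ |C| := fun j => by
      have h4 := ((hs z hz).2 j).trans (le_abs_self C)
      rw [norm_mul, norm_inv]
      norm_num
      nlinarith [norm_nonneg (h j z), abs_nonneg C]
    rw [EuclideanSpace.norm_eq]
    have h4 : √(∑ j, ‖(WithLp.toLp 2 fun j => (3 : ℂ)⁻¹ * h j z : En N) j‖ ^ 2) ≤
        √(∑ _j : Fin N, |C| ^ 2) :=
      Real.sqrt_le_sqrt (Finset.sum_le_sum fun j _ =>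
        pow_le_pow_left₀ (norm_nonneg _) (h3 j) 2)
    refine h4.trans ?_
    rw [Finset.sum_const, Finset.card_univ, Fintype.card_fin, nsmul_eq_mul,
      Real.sqrt_mul (by positivity), Real.sqrt_sq (abs_nonneg _)]
    refine mul_le_mul_of_nonneg_right ?_ (abs_nonneg _)
    rw [Real.sqrt_le_left (by positivity)]
    nlinarith [(Nat.cast_nonneg N : (0 : ℝ) ≤ N)]
  · rw [← (hs z hz).1]
    refine Finset.sum_congr rfl fun j _ => ?_
    show f z j * ((3 : ℂ)⁻¹ * h j z) = (3 : ℂ)⁻¹ * f z j * h j z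
    ring

theorem tendsto_of_unbdd {lam : ℝ → ℝ} (h1 : AntitoneOn lam (Ioi 0))
    (h : ¬ BddAbove (lam '' Ioi 0)) : Tendsto lam (𝓝[>] 0) atTop := by
  rw [Filter.tendsto_atTop]
  intro c
  rw [not_bddAbove_iff] at h
  obtain ⟨_, ⟨a, ha, rfl⟩, hc⟩ := h c
  filter_upwards [Ioo_mem_nhdsGT (show (0 : ℝ) < a from ha)] with b hb
  exact hc.le.trans (h1 hb.1 ha hb.2.le)

theorem TubeSolvable.mono {n N : ℕ} {lam R R' : ℝ → ℝ} {p : EuclideanSpace ℂ (Fin n)}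
    (h : TubeSolvable N lam R p) (hs : tube R' p ⊆ tube R p) : TubeSolvable N lam R' p := by
  intro δ hδ f hf
  obtain ⟨C, g, hg, hgs⟩ := h δ hδ f hf
  exact ⟨C, g, fun j => (hg j).mono hs, fun z hz => hgs z (hs hz)⟩

theorem result {n N : ℕ} (hn : 2 ≤ n) :
    -- the growth of solutions
    (∀ δ > 0, ∃ C : ℝ, 0 < C ∧ ∀ lam : ℝ → ℝ, AntitoneOn lam (Ioi 0) →
      (∀ a, 0 < a → 1 ≤ lam a) → ∀ p : EuclideanSpace ℂ (Fin n), ‖p‖ = 1 →
      ∀ f : Fin N → EuclideanSpace ℂ (Fin n) → ℂ, InClass lam p δ f →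
      ∃ h : Fin N → EuclideanSpace ℂ (Fin n) → ℂ, (∀ j, DifferentiableOn ℂ (h j) (ball 0 1)) ∧
        ∀ z ∈ ball (0 : EuclideanSpace ℂ (Fin n)) 1, ∑ j, f j z * h j z = 1 ∧
          ∀ j, ‖h j z‖ ≤ C * (1 + Real.log (lam (dst p z / 8))) ∧
            ‖h j z‖ ≤ C * (1 + Real.log ((1 - ‖⟪z, p⟫_ℂ‖ ^ 2) / (1 - ‖z‖ ^ 2)))) ∧
    -- the threshold
    ∀ (lam R : ℝ → ℝ) (p : EuclideanSpace ℂ (Fin n)), AntitoneOn lam (Ioi 0) →
      (∀ a, 0 < a → 1 ≤ lam a) → ‖p‖ = 1 →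
      (BddAbove (lam '' Ioi 0) ∨ BddAbove (R '' Ico 0 1) → TubeSolvable N lam R p) ∧
      (1 ≤ N → ¬ BddAbove (lam '' Ioi 0) → ¬ BddAbove (R '' Ico 0 1) →
        (TubeSolvable N lam R p ↔
          ∀ m, 2 ≤ m → m ≤ n → ∀ D : Set (EuclideanSpace ℂ (Fin m)), IsStrictlyPscDomain D →
            ∀ f : Fin N → EuclideanSpace ℂ (Fin m) → ℂ, (∀ j, IsHinf D (f j)) →
              (∃ δ > 0, ∀ z ∈ D, δ ≤ ∑ j, ‖f j z‖ ^ 2) →
              ∃ h : Fin N → EuclideanSpace ℂ (Fin m) → ℂ, (∀ j, IsHinf D (h j)) ∧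
                ∀ z ∈ D, ∑ j, f j z * h j z = 1)) := by
  refine ⟨fun δ hδ => growth hn hδ, fun lam R p h1 h2 hp =>
    ⟨solvable_of_bdd hn h1 h2 hp, fun hN hl hR => ⟨fun hT => ?_, fun hQ => ?_⟩⟩⟩
  · have hlam := tendsto_of_unbdd h1 hl
    have h4 : ∀ δ > 0, ∃ A : ℝ, Pool.Agent.MPca0fc2AD.UniformQ1 N δ A
        (ball (0 : EuclideanSpace ℂ (Fin n)) 1) (ball 0 1) := by
      by_cases hf : ∀ c : ℝ, ∃ᶠ t in 𝓝[<] (1 : ℝ), c < R t
      · exact not_solvable hn h1 h2 hp hlam hf hT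
      · push Not at hf
        obtain ⟨c, hc⟩ := hf
        obtain ⟨s, hs, hsc⟩ := (mem_nhdsLT_iff_exists_Ioo_subset.1 hc)
        have hs1 : s < 1 := hs
        have hsub : tube (fun t => 1 / (1 - t)) p ⊆ tube R p := by
          intro z hz
          have hz1 : ‖z‖ < 1 := hz.1
          rw [mem_tube hp]
          refine ⟨hz1, ?_⟩
          have hz2 : 0 < 1 - ‖z‖ ^ 2 := by nlinarith [norm_nonneg z]
          obtain ⟨q, hq⟩ : ∃ q : ℝ, q = max s 0 := ⟨_, rfl⟩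
          have hq0 : 0 ≤ q := by rw [hq]; exact le_max_right _ _
          have hq1 : q < 1 := by rw [hq]; exact max_lt hs1 one_pos
          have hq2 : 0 < 1 - q ^ 2 := by nlinarith
          rw [not_bddAbove_iff] at hR
          obtain ⟨_, ⟨t, ht, rfl⟩, hRt⟩ := hR (max c (4 / ((1 - q ^ 2) * (1 - ‖z‖ ^ 2))))
          have ht1 := ht.1
          have ht2 := ht.2
          have hts : t ≤ q := by
            rw [hq]
            by_contra hcon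
            have h5 : s < t := lt_of_le_of_lt (le_max_left s 0) (not_le.1 hcon)
            have h6 : R t ≤ c := hsc ⟨h5, ht2⟩
            have h7 := (le_max_left c (4 / ((1 - q ^ 2) * (1 - ‖z‖ ^ 2)))).trans_lt hRt
            linarith
          refine ⟨t, ht1, ht2, ?_⟩
          have h8 := (le_max_right c (4 / ((1 - q ^ 2) * (1 - ‖z‖ ^ 2)))).trans_lt hRt
          have h9 : 1 - q ^ 2 ≤ 1 - t ^ 2 := by nlinarith
          have h10 : ‖1 - (t : ℂ) * ⟪p, z⟫_ℂ‖ ≤ 2 := by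
            have h11 := norm_sub_le (1 : ℂ) ((t : ℂ) * ⟪p, z⟫_ℂ)
            have h12 := norm_inner_le_norm (𝕜 := ℂ) p z
            rw [norm_one, norm_mul, Complex.norm_real, Real.norm_of_nonneg ht1] at h11
            rw [hp, one_mul] at h12
            nlinarith [norm_nonneg ⟪p, z⟫_ℂ]
          rw [div_lt_iff₀ (by positivity)] at h8
          have h13 : 0 < R t := by
            by_contra hcon
            have : R t * ((1 - q ^ 2) * (1 - ‖z‖ ^ 2)) ≤ 0 :=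
              mul_nonpos_of_nonpos_of_nonneg (not_lt.1 hcon) (by positivity)
            linarith
          have h14 : R t * ((1 - q ^ 2) * (1 - ‖z‖ ^ 2)) ≤
              R t * ((1 - t ^ 2) * (1 - ‖z‖ ^ 2)) := by gcongr
          nlinarith [norm_nonneg (1 - (t : ℂ) * ⟪p, z⟫_ℂ)]
        refine not_solvable hn h1 h2 hp hlam (fun c => ?_) (hT.mono hsub)
        apply Filter.Eventually.frequently
        have h5 : 1 - 1 / (|c| + 1) < 1 := by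
          have : 0 < 1 / (|c| + 1) := by positivity
          linarith
        filter_upwards [Ioo_mem_nhdsLT h5] with t ht
        have h6 : 0 < 1 - t := by linarith [ht.2]
        rw [lt_div_iff₀ h6]
        have h7 : 1 - t < 1 / (|c| + 1) := by linarith [ht.1]
        rw [lt_div_iff₀ (by positivity)] at h7
        nlinarith [le_abs_self c, abs_nonneg c]
    exact ((Pool.Agent.MPca0fc2AD.result (n := n) (N := N) hn hN).out 3 0).1 h4
  · intro δ hδ f hf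
    obtain ⟨h, hh, hs⟩ := hQ n hn le_rfl (ball 0 1)
      Pool.Agent.MPca0fc2.TB.isStrictlyPscDomain_ball f
      (fun j => ⟨hf.holo j, 1, fun z hz => by
        have h5 := (hf.bd z hz).2
        have h6 : ‖f j z‖ ^ 2 ≤ ∑ j, ‖f j z‖ ^ 2 :=
          Finset.single_le_sum (f := fun j => ‖f j z‖ ^ 2) (fun _ _ => sq_nonneg _)
            (Finset.mem_univ j)
        nlinarith [norm_nonneg (f j z)]⟩) ⟨δ, hδ, fun z hz => (hf.bd z hz).1⟩
    choose hd M hM using hh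
    refine ⟨∑ j, |M j|, h, fun j => (hd j).mono tube_sub, fun z hz =>
      ⟨hs z (tube_sub hz), fun j => ?_⟩⟩
    exact (hM j z (tube_sub hz)).trans ((le_abs_self _).trans
      (Finset.single_le_sum (f := fun j => |M j|) (fun _ _ => abs_nonneg _)
        (Finset.mem_univ j)))

end Pool.Agent.MPca0fc2ST
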